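import Mathlib
import Pool.Agent.Lib.MP_2a83f9_an.Stmt

set_option autoImplicit false

namespace Pool.Agent.Lib.MP_2a83f9_an.H

universe u

/-- The corner `q B q`: the subspace of all products `q * b * q`. -/
def Corner {B : Type u} [Ring B] [Algebra ℂ B] (q : B) : Submodule ℂ B :=
  LinearMap.range (LinearMap.mulLeftRight ℂ (q, q))

/-- The closure of the sum of the corners `p n B p n`. -/
noncomputable def CornerAlg {B : Type u} [NormedRing B] [NormedAlgebra ℂ B] (p : ℕ → B) :
    Submodule ℂ B :=
  (⨆ n, Corner (p n)).topologicalClosure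

end Pool.Agent.Lib.MP_2a83f9_an.H
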