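import Mathlib
import Pool.Agent.Lib.MP_2a83f9_an.H.CStmt

set_option autoImplicit false

open Filter Topology

noncomputable section

namespace Pool.Agent.Lib.MP_2a83f9_an.H

universe u v

/-- A bounded increasing sequence of idempotents with finite-dimensional corners. -/
structure Pr (B : Type u) [NormedRing B] [NormedAlgebra ℂ B] where
  p : ℕ → B
  p_p : ∀ n m, p n * p m = p (min n m)
  bdd : ∃ C : ℝ, ∀ n, ‖p n‖ ≤ C
  fin : ∀ n, FiniteDimensional ℂ (Corner (p n))

theorem exists_norming {E : Type v} [NormedAddCommGroup E] [NormedSpace ℂ E] {S : Set E}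
    (hS : TopologicalSpace.IsSeparable S) : ∃ G : ℕ → E →L[ℂ] ℂ, (∀ r, ‖G r‖ ≤ 1) ∧
    ∀ x ∈ S, ∀ c : ℝ, (∀ r, ‖G r x‖ ≤ c) → ‖x‖ ≤ c := by
  obtain ⟨D, hD, hSD⟩ := hS
  obtain ⟨d, hd⟩ := (hD.insert 0).exists_eq_range (Set.insert_nonempty _ _)
  choose G hG hG' using fun k => exists_dual_vector'' ℂ (d k)
  refine ⟨G, hG, fun x hx c h => le_of_forall_pos_le_add fun ε hε => ?_⟩
  obtain ⟨y, hy, hk⟩ := Metric.mem_closure_iff.1 (hSD hx) _ (half_pos hε)
  obtain ⟨k, rfl⟩ : y ∈ Set.range d := hd ▸ Set.mem_insert_of_mem _ hy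
  rw [dist_eq_norm] at hk
  have h1 : ‖G k (d k)‖ = ‖d k‖ := by rw [hG']; simp
  have h2 : ‖G k (x - d k)‖ ≤ ‖x - d k‖ := by simpa using (G k).le_of_opNorm_le (hG k) (x - d k)
  have h3 := norm_sub_norm_le x (d k)
  have h4 := norm_sub_le (G k x) (G k (x - d k))
  rw [← map_sub, sub_sub_cancel] at h4
  linarith [h k]

namespace Pr

variable {B : Type u} [NormedRing B] [NormedAlgebra ℂ B] (F : Pr B)

def alg : Submodule ℂ B := CornerAlg F.p

theorem exists_bound : ∃ K : ℝ, 2 ≤ K ∧ ∀ n, ‖F.p n‖ ≤ K := by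
  obtain ⟨C, hC⟩ := F.bdd
  exact ⟨max 2 C, le_max_left _ _, fun n => (hC n).trans (le_max_right _ _)⟩

theorem pp (n : ℕ) : F.p n * F.p n = F.p n := by rw [F.p_p, min_self]

theorem pp' (n m : ℕ) (b : B) : F.p n * (F.p m * b) = F.p (min n m) * b := by
  rw [← mul_assoc, F.p_p]

theorem alg_closed : IsClosed (F.alg : Set B) := Submodule.isClosed_topologicalClosure _

theorem corner_le (n : ℕ) : Corner (F.p n) ≤ F.alg :=
  (le_iSup (fun n => Corner (F.p n)) n).trans (Submodule.le_topologicalClosure _)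

theorem two_mem (n m : ℕ) (b : B) : F.p n * b * F.p m ∈ F.alg :=
  F.corner_le (max n m) ⟨F.p n * b * F.p m, by
    simp only [LinearMap.mulLeftRight_apply, mul_assoc, F.pp', F.p_p, min_eq_right (le_max_left n m),
      min_eq_left (le_max_right n m)]⟩

/-- Induction over the algebra, for closed subspaces. -/
theorem alg_le {S : Submodule ℂ B} (hS : IsClosed (S : Set B))
    (h : ∀ n b, F.p n * b * F.p n ∈ S) : F.alg ≤ S :=
  Submodule.topologicalClosure_minimal _ (iSup_le fun n => by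
    rintro _ ⟨b, rfl⟩
    exact h n b) hS

theorem p_mem (n : ℕ) : F.p n ∈ F.alg := by
  have := F.two_mem n n 1
  rwa [mul_one, F.pp] at this

theorem mul_mem {A A' : B} (hA : A ∈ F.alg) (hA' : A' ∈ F.alg) : A * A' ∈ F.alg := by
  refine F.alg_le (S := F.alg.comap ((ContinuousLinearMap.mul ℂ B).flip A').toLinearMap)
    (F.alg_closed.preimage ((ContinuousLinearMap.mul ℂ B).flip A').continuous)
    (fun n b => ?_) hA
  change F.p n * b * F.p n * A' ∈ F.alg
  refine F.alg_le (S := F.alg.comap (ContinuousLinearMap.mul ℂ B (F.p n * b * F.p n)).toLinearMap)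
    (F.alg_closed.preimage (ContinuousLinearMap.mul ℂ B _).continuous) (fun m b' => ?_) hA'
  change F.p n * b * F.p n * (F.p m * b' * F.p m) ∈ F.alg
  have := F.two_mem n m (b * F.p n * (F.p m * b'))
  simpa only [mul_assoc] using this

theorem separable : TopologicalSpace.IsSeparable (F.alg : Set B) := by
  have h : ∀ n, TopologicalSpace.IsSeparable (Corner (F.p n) : Set B) := fun n => by
    have := F.fin n
    have := FiniteDimensional.proper ℂ (Corner (F.p n))
    exact TopologicalSpace.IsSeparable.of_subtype _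
  have h1 := ((TopologicalSpace.IsSeparable.iUnion h).span (R := ℂ)).closure
  rwa [← Submodule.iSup_eq_span] at h1

theorem exists_test : ∃ T : ℕ → B, (∀ r, T r ∈ F.alg ∧ ‖T r‖ ≤ 1) ∧
    ∀ (g : B →L[ℂ] ℂ) (c : ℝ), (∀ r, ‖g (T r)‖ ≤ c) → ∀ A ∈ F.alg, ‖g A‖ ≤ c * ‖A‖ := by
  have h := (F.separable.mono
    (Set.inter_subset_left (t := Metric.closedBall (0 : B) 1))).separableSpace
  have : Nonempty ((F.alg : Set B) ∩ Metric.closedBall (0 : B) 1 : Set B) :=
    ⟨⟨0, F.alg.zero_mem, by simp⟩⟩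
  obtain ⟨d, hd⟩ := TopologicalSpace.exists_dense_seq
    ((F.alg : Set B) ∩ Metric.closedBall (0 : B) 1 : Set B)
  refine ⟨fun r => d r, fun r => ⟨(d r).2.1, mem_closedBall_zero_iff.1 (d r).2.2⟩,
    fun g c hc A hA => ?_⟩
  have h1 : ∀ y : ((F.alg : Set B) ∩ Metric.closedBall (0 : B) 1 : Set B), ‖g y‖ ≤ c := fun y =>
    hd.induction_on y (isClosed_le (by fun_prop) continuous_const) hc
  rcases eq_or_ne A 0 with rfl | h0
  · simp
  · have h2 : 0 < ‖A‖ := norm_pos_iff.2 h0
    have h3 := h1 ⟨((‖A‖⁻¹ : ℝ) : ℂ) • A, F.alg.smul_mem _ hA, mem_closedBall_zero_iff.2 (by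
      rw [norm_smul, Complex.norm_real, Real.norm_of_nonneg (by positivity),
        inv_mul_cancel₀ h2.ne'])⟩
    change ‖g (((‖A‖⁻¹ : ℝ) : ℂ) • A)‖ ≤ c at h3
    rw [map_smul, norm_smul, Complex.norm_real, Real.norm_of_nonneg (by positivity),
      inv_mul_le_iff₀ h2] at h3
    rwa [mul_comm]

/-- Approximation properties pass from the corners to the algebra. -/
theorem approx (Φ : ℕ → B →L[ℂ] B) {C : ℝ} (C0 : 0 ≤ C) (hC : ∀ n A, ‖Φ n A‖ ≤ C * ‖A‖)
    (h : ∀ m b, ∀ᶠ n in atTop, Φ n (F.p m * b * F.p m) = F.p m * b * F.p m)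
    {A : B} (hA : A ∈ F.alg) : Tendsto (fun n => ‖A - Φ n A‖) atTop (𝓝 0) := by
  let S : Submodule ℂ B :=
    { carrier := {A | Tendsto (fun n => Φ n A) atTop (𝓝 A)}
      add_mem' := fun {y z} hy hz => by simpa using Tendsto.add hy hz
      zero_mem' := by simp
      smul_mem' := fun c y hy => by simpa using Tendsto.const_smul hy c }
  have hS : IsClosed (S : Set B) := by
    refine isClosed_of_closure_subset fun y hy => ?_
    change Tendsto _ _ _
    rw [Metric.tendsto_atTop]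
    intro ε hε
    obtain ⟨z, hz, hyz⟩ := Metric.mem_closure_iff.1 hy (ε / (2 * (C + 1))) (by positivity)
    obtain ⟨N, hN⟩ := Metric.tendsto_atTop.1 hz (ε / 2) (by positivity)
    refine ⟨N, fun n hn => ?_⟩
    have h1 := hN n hn
    have h2 := dist_triangle4 (Φ n y) (Φ n z) z y
    have h3 : dist (Φ n y) (Φ n z) ≤ C * dist y z := by
      rw [dist_eq_norm, dist_eq_norm, ← map_sub]
      exact hC n _
    rw [lt_div_iff₀ (by positivity)] at hyz
    rw [dist_comm z y] at h2
    nlinarith [dist_nonneg (x := y) (y := z)]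
  have h1 : A ∈ S := F.alg_le hS
    (fun m b => tendsto_const_nhds.congr' ((h m b).mono fun _ e => e.symm)) hA
  exact (tendsto_iff_norm_sub_tendsto_zero.1 h1).congr fun n => norm_sub_rev _ _

theorem left {A : B} (hA : A ∈ F.alg) : Tendsto (fun n => ‖A - F.p n * A‖) atTop (𝓝 0) := by
  obtain ⟨K, K2, hK⟩ := F.exists_bound
  refine F.approx (fun n => ContinuousLinearMap.mul ℂ B (F.p n)) (C := K) (by linarith)
    (fun n A' => (norm_mul_le (F.p n) A').trans
      (mul_le_mul_of_nonneg_right (hK n) (norm_nonneg _))) (fun m b => ?_) hA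
  filter_upwards [eventually_ge_atTop m] with n hn
  change F.p n * (F.p m * b * F.p m) = _
  simp only [mul_assoc, F.pp', min_eq_right hn]

theorem both {A : B} (hA : A ∈ F.alg) :
    Tendsto (fun n => ‖A - F.p n * A * F.p n‖) atTop (𝓝 0) := by
  obtain ⟨K, K2, hK⟩ := F.exists_bound
  refine F.approx (fun n => ContinuousLinearMap.mulLeftRight ℂ B (F.p n) (F.p n)) (C := K * K)
    (by positivity) (fun n A' => ?_) (fun m b => ?_) hA
  · change ‖F.p n * A' * F.p n‖ ≤ _
    rw [mul_right_comm]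
    exact (norm_mul_le _ _).trans (mul_le_mul ((norm_mul_le _ _).trans
      (mul_le_mul_of_nonneg_right (hK n) (norm_nonneg _))) (hK n) (norm_nonneg _) (by positivity))
  filter_upwards [eventually_ge_atTop m] with n hn
  change F.p n * (F.p m * b * F.p m) * F.p n = _
  simp only [mul_assoc, F.pp', F.p_p, min_eq_right hn, min_eq_left hn]

/-- The projection onto a corner. -/
def cor (n : ℕ) : B →L[ℂ] Corner (F.p n) :=
  (ContinuousLinearMap.mulLeftRight ℂ B (F.p n) (F.p n)).codRestrict _ fun b => ⟨b, rfl⟩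

theorem cor_coe (n : ℕ) (b : B) : (F.cor n b : B) = F.p n * b * F.p n := rfl

theorem p_cor (n : ℕ) (f : Corner (F.p n)) : F.p n * f = f := by
  obtain ⟨_, b, rfl⟩ := f
  simp only [LinearMap.mulLeftRight_apply, mul_assoc, F.pp', min_self]

theorem cor_p (n : ℕ) (f : Corner (F.p n)) : f * F.p n = f := by
  obtain ⟨_, b, rfl⟩ := f
  simp only [LinearMap.mulLeftRight_apply, mul_assoc, F.pp]

theorem cor_self (n : ℕ) (f : Corner (F.p n)) : F.cor n f = f :=
  Subtype.ext (by rw [cor_coe, p_cor, cor_p])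

end Pr

end Pool.Agent.Lib.MP_2a83f9_an.H
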