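import Mathlib
import Pool.Agent.Lib.MP_2a83f9_an.Abstract
import Pool.Agent.Lib.MP_2a83f9_an.H.Idem

set_option autoImplicit false

open Filter Topology

noncomputable section

namespace Pool.Agent.Lib.MP_2a83f9_an.H

universe u v

theorem cal_nonneg {Y : Type u} [NormedAddCommGroup Y] [NormedSpace ℂ Y] (A : Y →L[ℂ] Y) :
    0 ≤ ‖cal A‖ := norm_nonneg (cal A)

theorem cal_mul {Y : Type u} [NormedAddCommGroup Y] [NormedSpace ℂ Y] (S T : Y →L[ℂ] Y) :
    ‖cal (S * T)‖ ≤ ‖cal S‖ * ‖cal T‖ := by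
  have h : ∀ ε : ℝ, 0 < ε → ‖cal (S * T)‖ ≤ ‖cal S‖ * (‖cal T‖ + ε) := fun ε hε => by
    obtain ⟨T', h1, h2⟩ := Submodule.Quotient.norm_mk_lt (cal T) hε
    have : cal (S * T') = cal (S * T) := Abs.cal_eq_iff.2 (by
      rw [← mul_sub]
      exact (Abs.cal_eq_iff.1 h1).clm_comp S)
    rw [← this]
    exact (Abs.cal_mul_right _ _).trans (mul_le_mul_of_nonneg_left h2.le (cal_nonneg S))
  have t : Tendsto (fun ε : ℝ => ‖cal S‖ * (‖cal T‖ + ε)) (𝓝[>] 0)
      (𝓝 (‖cal S‖ * (‖cal T‖ + 0))) :=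
    tendsto_nhdsWithin_of_tendsto_nhds (Continuous.tendsto (by fun_prop) _)
  rw [add_zero] at t
  exact ge_of_tendsto t (eventually_nhdsWithin_of_forall h)

variable {X : Type u} [NormedRing X] [NormedAlgebra ℂ X] [CompleteSpace X]

theorem core (F : Pr X)
    {B : Type u} [NormedRing B] [NormedAlgebra ℂ B] (one_le : ‖(1 : B)‖ ≤ 1)
    {Q : Type u} [NormedAddCommGroup Q] [NormedSpace ℂ Q] [CompleteSpace Q]
    (π : B →ₗ[ℂ] Q) (π_surj : Function.Surjective π) (π_le : ∀ T, ‖π T‖ ≤ ‖T‖)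
    (π_mul : ∀ S T, ‖π (S * T)‖ ≤ ‖π S‖ * ‖π T‖)
    (L : ℕ → X →ₗ[ℂ] B) (M : ℝ) (M0 : 0 < M)
    (L_norm : ∀ n, ∀ A ∈ F.alg, ‖π (L n A)‖ ≤ M * ‖A‖)
    (L_mul : ∀ n, ∀ A ∈ F.alg, ∀ B ∈ F.alg, L n A * L n B = L n (A * F.p n * B))
    (L_stab : ∀ n m A, n ≤ m → π (L m (F.p n * A * F.p n)) = π (L n A))
    (L_low : ∀ n, ∀ A ∈ F.alg, ∀ l : ℂ,
      ‖l • F.p n + F.p n * A * F.p n‖ ≤ M * ‖π (l • (1 : B) + L n A)‖)
    (L_low2 : ∀ n, ∀ A ∈ F.alg, ∀ l : ℂ, ‖l‖ ≤ M * ‖π (l • (1 : B) + L n A)‖)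
    (L_dense : ∀ T : B, ∃ (l : ℂ) (A : ℕ → X), (∀ n, A n ∈ F.alg) ∧
      Tendsto (fun n => ‖π (T - l • (1 : B) - L n (A n))‖) atTop (𝓝 0)) :
    ∃ e : Q ≃L[ℂ] (F.alg × ℂ), ∀ S T : B,
      ((e (π (S * T))).1 : X) =
          ((e (π S)).1 : X) * ((e (π T)).1 : X) +
            (e (π S)).2 • ((e (π T)).1 : X) +
            (e (π T)).2 • ((e (π S)).1 : X) ∧
        (e (π (S * T))).2 = (e (π S)).2 * (e (π T)).2 := by
  have : CompleteSpace F.alg := F.alg_closed.completeSpace_coe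
  -- the limit of the lifts
  have ex : ∀ p : F.alg × ℂ, ∃ q : Q,
      Tendsto (fun n => π (p.2 • (1 : B) + L n p.1)) atTop (𝓝 q) := fun p => by
    refine cauchySeq_tendsto_of_complete (cauchySeq_of_le_tendsto_0'
      (fun n => M * ‖(p.1 : X) - F.p n * p.1 * F.p n‖) (fun n m h => ?_) ?_)
    · rw [dist_comm, dist_eq_norm, map_add, map_add, add_sub_add_left_eq_sub, ← L_stab n m _ h,
        ← map_sub, ← map_sub]
      exact L_norm _ _ (F.alg.sub_mem p.1.2 (F.mul_mem (F.mul_mem (F.p_mem n) p.1.2) (F.p_mem n)))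
    · simpa using (F.both p.1.2).const_mul M
  choose ψ hψ using ex
  let Ψ : (F.alg × ℂ) →ₗ[ℂ] Q :=
    { toFun := ψ
      map_add' := fun p q => tendsto_nhds_unique (hψ _) (((hψ p).add (hψ q)).congr fun n => by
        rw [← map_add, Prod.fst_add, Prod.snd_add, Submodule.coe_add, map_add (L n), add_smul]
        congr 1
        abel)
      map_smul' := fun c p => tendsto_nhds_unique (hψ _) (((hψ p).const_smul c).congr fun n => by
        rw [← map_smul, Prod.smul_fst, Prod.smul_snd, Submodule.coe_smul, map_smul (L n), smul_add,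
          smul_assoc]) }
  have bd : ∀ (p : F.alg × ℂ) n,
      ‖π (p.2 • (1 : B) + L n p.1)‖ ≤ (1 + M) * ‖p‖ := fun p n => by
    have a1 : ‖π (p.2 • (1 : B))‖ ≤ ‖p‖ := by
      refine (π_le _).trans ?_
      rw [norm_smul]
      exact (mul_le_of_le_one_right (norm_nonneg _) one_le).trans (norm_snd_le p)
    have a2 : ‖π (L n p.1)‖ ≤ M * ‖p‖ := (L_norm _ _ p.1.2).trans (by gcongr; exact norm_fst_le p)
    rw [map_add]
    linarith [norm_add_le (π (p.2 • (1 : B))) (π (L n p.1))]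
  have up : ∀ p, ‖Ψ p‖ ≤ (1 + M) * ‖p‖ := fun p =>
    le_of_tendsto' (hψ p).norm fun n => bd p n
  obtain ⟨K, K2, hK⟩ := F.exists_bound
  have low : ∀ p, ‖p‖ ≤ (1 + 2 * K) * M * ‖Ψ p‖ := fun p => by
    have t0 : Tendsto (fun n => ‖(p.1 : X) - F.p n * p.1 * F.p n‖) atTop (𝓝 0) := F.both p.1.2
    have t1 : Tendsto (fun n => M * ‖π (p.2 • (1 : B) + L n p.1)‖) atTop (𝓝 (M * ‖Ψ p‖)) :=
      (hψ p).norm.const_mul M
    have b3 : ‖p.2‖ ≤ M * ‖Ψ p‖ := ge_of_tendsto' t1 fun n => L_low2 n _ p.1.2 p.2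
    have b4 : ‖(p.1 : X)‖ ≤ M * ‖Ψ p‖ + ‖p.2‖ * K := by
      have t := (t1.add_const (‖p.2‖ * K)).add t0
      rw [add_zero] at t
      refine ge_of_tendsto' t fun n => ?_
      have a1 := L_low n _ p.1.2 p.2
      have e : (p.1 : X) = ((p.2 • F.p n + F.p n * p.1 * F.p n) - p.2 • F.p n) +
          ((p.1 : X) - F.p n * p.1 * F.p n) := by abel
      have a2 : ‖p.2 • F.p n‖ ≤ ‖p.2‖ * K := by
        rw [norm_smul]
        exact mul_le_mul_of_nonneg_left (hK n) (norm_nonneg _)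
      exact (congrArg norm e).trans_le ((norm_add_le _ _).trans (add_le_add
        ((norm_sub_le _ _).trans (add_le_add a1 a2)) le_rfl))
    have m0 := mul_nonneg M0.le (norm_nonneg (Ψ p))
    exact max_le (b4.trans (by nlinarith)) (b3.trans (by nlinarith))
  have inj : Function.Injective Ψ := (injective_iff_map_eq_zero Ψ).2 fun p hp => by
    have := low p
    rw [hp, norm_zero, mul_zero] at this
    exact norm_le_zero_iff.1 this
  have surj : Function.Surjective Ψ := by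
    have cl : IsClosed (Set.range Ψ) :=
      (AddMonoidHomClass.antilipschitz_of_bound Ψ (K := ⟨(1 + 2 * K) * M, by positivity⟩) low).isClosed_range
        (Ψ.mkContinuous _ up).uniformContinuous
    intro q
    obtain ⟨T, rfl⟩ := π_surj q
    obtain ⟨l, A, hA0, hA⟩ := L_dense T
    change π T ∈ Set.range Ψ
    refine cl.mem_of_tendsto (f := fun n : ℕ => π (l • (1 : B) + L n (A n))) (b := atTop)
      ?_ (Eventually.of_forall fun n => ?_)
    · refine tendsto_iff_norm_sub_tendsto_zero.2 (hA.congr fun n => ?_)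
      rw [norm_sub_rev (π (l • (1 : B) + L n (A n))), sub_sub, map_sub]
    · refine ⟨(⟨F.p n * A n * F.p n,
        F.mul_mem (F.mul_mem (F.p_mem n) (hA0 n)) (F.p_mem n)⟩, l), ?_⟩
      refine tendsto_nhds_unique (hψ _) (tendsto_const_nhds.congr' ?_)
      filter_upwards [eventually_ge_atTop n] with m hm
      rw [map_add, map_add, L_stab n m _ hm]
  let E := (LinearEquiv.ofBijective Ψ ⟨inj, surj⟩).symm
  have hE : ∀ q, Ψ (E q) = q := fun q => (LinearEquiv.ofBijective Ψ ⟨inj, surj⟩).apply_symm_apply q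
  refine ⟨E.toContinuousLinearEquivOfBounds ((1 + 2 * K) * M) (1 + M)
    (fun q => (low (E q)).trans_eq (by rw [hE])) up, fun S T => ?_⟩
  change ((E (π (S * T))).1 : X) =
          ((E (π S)).1 : X) * ((E (π T)).1 : X) +
            (E (π S)).2 • ((E (π T)).1 : X) +
            (E (π T)).2 • ((E (π S)).1 : X) ∧
        (E (π (S * T))).2 = (E (π S)).2 * (E (π T)).2
  have hS := hψ (E (π S))
  have hT := hψ (E (π T))
  rw [show ψ (E (π S)) = π S from hE _] at hS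
  rw [show ψ (E (π T)) = π T from hE _] at hT
  generalize E (π S) = p at hS ⊢
  generalize E (π T) = q at hT ⊢
  let r : F.alg × ℂ :=
    (⟨(p.1 : X) * q.1, F.mul_mem p.1.2 q.1.2⟩ +
      p.2 • q.1 + q.2 • p.1, p.2 * q.2)
  have hr : E (π (S * T)) = r := by
    refine inj ((hE _).trans (tendsto_nhds_unique ?_ (hψ r)))
    have t := (((tendsto_iff_norm_sub_tendsto_zero.1 hT).const_mul ‖S‖).add
      ((tendsto_iff_norm_sub_tendsto_zero.1 hS).mul_const ((1 + M) * ‖q‖))).add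
      ((F.left q.1.2).const_mul (M * ‖(p.1 : X)‖))
    simp only [mul_zero, zero_mul, add_zero] at t
    refine tendsto_iff_norm_sub_tendsto_zero.2
      (squeeze_zero (fun _ => norm_nonneg _) (fun n => ?_) t)
    have e : r.2 • (1 : B) + L n r.1 - S * T =
        S * (q.2 • (1 : B) + L n q.1 - T) +
        (p.2 • (1 : B) + L n p.1 - S) * (q.2 • (1 : B) + L n q.1) +
        L n ((p.1 : X) * ((q.1 : X) - F.p n * q.1)) := by
      have e1 : (r.1 : X) = (p.1 : X) * q.1 + p.2 • (q.1 : X) +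
        q.2 • (p.1 : X) := rfl
      rw [e1, show r.2 = p.2 * q.2 from rfl, mul_sub (p.1 : X), ← mul_assoc, map_sub,
        ← L_mul n _ p.1.2 _ q.1.2, map_add, map_add, map_smul, map_smul]
      simp only [mul_sub, sub_mul, mul_add, add_mul, smul_mul_assoc, mul_smul_comm, mul_one,
        one_mul, smul_smul, mul_comm q.2 p.2, smul_add, smul_sub]
      abel
    rw [← map_sub, ← map_sub, ← map_sub, e, map_add, map_add]
    refine (norm_add₃_le).trans (add_le_add (add_le_add ((π_mul _ _).trans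
      (mul_le_mul_of_nonneg_right (π_le _) (norm_nonneg _))) ((π_mul _ _).trans ?_))
      ((L_norm _ _ (F.mul_mem p.1.2 (F.alg.sub_mem q.1.2 (F.mul_mem (F.p_mem n) q.1.2)))).trans ?_))
    · exact mul_le_mul_of_nonneg_left (bd q n) (norm_nonneg _)
    · rw [mul_assoc]
      exact mul_le_mul_of_nonneg_left (norm_mul_le _ _) M0.le
  rw [hr]
  exact ⟨rfl, rfl⟩

theorem calkin_of_lifts (F : Pr X)
    {Y : Type u} [NormedAddCommGroup Y] [NormedSpace ℂ Y] [CompleteSpace Y]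
    (L : ℕ → X →ₗ[ℂ] (Y →L[ℂ] Y)) (M : ℝ)
    (L_norm : ∀ n, ∀ A ∈ F.alg, ‖cal (L n A)‖ ≤ M * ‖A‖)
    (L_mul : ∀ n, ∀ A ∈ F.alg, ∀ B ∈ F.alg, L n A * L n B = L n (A * F.p n * B))
    (L_stab : ∀ n m A, n ≤ m → cal (L m (F.p n * A * F.p n)) = cal (L n A))
    (L_low : ∀ n, ∀ A ∈ F.alg, ∀ l : ℂ,
      ‖l • F.p n + F.p n * A * F.p n‖ ≤ M * ‖cal (l • (1 : Y →L[ℂ] Y) + L n A)‖)
    (L_low2 : ∀ n, ∀ A ∈ F.alg, ∀ l : ℂ, ‖l‖ ≤ M * ‖cal (l • (1 : Y →L[ℂ] Y) + L n A)‖)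
    (L_dense : ∀ T : Y →L[ℂ] Y, ∃ (l : ℂ) (A : ℕ → X), (∀ n, A n ∈ F.alg) ∧
      Tendsto (fun n => ‖cal (T - l • (1 : Y →L[ℂ] Y) - L n (A n))‖) atTop (𝓝 0)) :
    ¬ FiniteDimensional ℂ Y ∧ QuotIsoUnitization (Compacts Y) F.alg := by
  have h1 : 1 ≤ M * ‖cal (1 : Y →L[ℂ] Y)‖ := by
    have a1 := L_low2 0 0 F.alg.zero_mem 1
    simpa only [one_smul, map_zero, add_zero, norm_one] using a1
  have n0 : 0 ≤ ‖cal (1 : Y →L[ℂ] Y)‖ := cal_nonneg _
  have M0 : 0 < M := by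
    by_contra c
    nlinarith [not_lt.1 c]
  refine ⟨fun hf => ?_, ?_⟩
  · have := FiniteDimensional.proper ℂ Y
    have e : cal (1 : Y →L[ℂ] Y) = cal 0 := Abs.cal_eq_iff.2
      (isCompactOperator_of_locallyCompactSpace_rng _)
    have h2 := Abs.cal_le (0 : Y →L[ℂ] Y)
    rw [← e, norm_zero] at h2
    nlinarith
  have cY : IsClosed (compactOperator (RingHom.id ℂ) Y Y : Set (Y →L[ℂ] Y)) :=
    isClosed_setOfPred_isCompactOperator
  obtain ⟨e, he⟩ := @core X _ _ _ F (Y →L[ℂ] Y) _ _ ContinuousLinearMap.norm_id_le (Calkin Y)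
    (Submodule.Quotient.normedAddCommGroup _) (Submodule.Quotient.normedSpace _ _)
    (Submodule.Quotient.completeSpace _) (Submodule.mkQ _) (Submodule.mkQ_surjective _)
    Abs.cal_le cal_mul L M M0 L_norm L_mul L_stab L_low L_low2 L_dense
  exact ⟨fun x => e x, ⟨e, fun _ => rfl⟩, fun S T => Prod.ext (he S T).1 (he S T).2⟩

end Pool.Agent.Lib.MP_2a83f9_an.H
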