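import Mathlib
import Pool.Agent.Lib.MP_2a83f9_an.Fam

set_option autoImplicit false

open Filter Topology

noncomputable section

namespace Pool.Agent.Lib.MP_2a83f9_an.H

universe u v w

def cls (j : ℕ) : ℕ := (j / 2).unpair.1

def sg (a ξ : ℕ) : ℕ := 2 * Nat.pair a (ξ + 1)

theorem cls_even (a i : ℕ) : cls (2 * Nat.pair a i) = a := by
  unfold cls
  rw [Nat.mul_div_cancel_left _ two_pos, Nat.unpair_pair]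

theorem cls_odd (a i : ℕ) : cls (2 * Nat.pair a i + 1) = a := by
  unfold cls
  rw [show (2 * Nat.pair a i + 1) / 2 = Nat.pair a i by omega, Nat.unpair_pair]

theorem cls_sg (a ξ : ℕ) : cls (sg a ξ) = a := cls_even _ _

theorem even_sg (a ξ : ℕ) : Even (sg a ξ) := even_two_mul _

theorem lt_sg (a ξ : ℕ) : ξ < sg a ξ := by
  have := Nat.right_le_pair a (ξ + 1)
  unfold sg
  omega

theorem sg_inj {a ξ ξ' : ℕ} (h : sg a ξ = sg a ξ') : ξ = ξ' := by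
  unfold sg at h
  have h1 : Nat.pair a (ξ + 1) = Nat.pair a (ξ' + 1) := by omega
  have := (Nat.pair_eq_pair.1 h1).2
  omega

abbrev Cmb := (Om × ℕ) →₀ ℚ × ℚ

def bsum (b : Cmb) : ℝ := ∑ q ∈ b.support, ‖cf (b q)‖

def sing (η : ℕ) : Cmb := Finsupp.single (Sum.inr η, 0) (1, 0)

structure Tree (𝓖 : ℕ → Fam) (S : Set ℕ) where
  w : ℕ → ℕ
  par : ℕ → Option ℕ
  b : ℕ → Cmb
  D : ℕ → Finset ℕ
  cls_w : ∀ γ, cls (w γ) ∈ S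
  root_D : ∀ γ, par γ = none → D γ = {γ}
  par_lt : ∀ γ ξ, par γ = some ξ → ξ < γ
  par_w : ∀ γ ξ, par γ = some ξ → w γ = w ξ
  par_D : ∀ γ ξ, par γ = some ξ → D γ = insert γ (D ξ)
  par_good : ∀ γ ξ, par γ = some ξ → ¬ GoodJ 𝓖 (w γ) (D ξ)
  par_bsum : ∀ γ ξ, par γ = some ξ → bsum (b γ) ≤ 1
  par_supp : ∀ γ ξ, par γ = some ξ → ∀ η r, (Sum.inr η, r) ∈ (b γ).support → η < γ
  par_odd : ∀ γ ξ, par γ = some ξ → Odd (w γ) →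
    ∃ η, b γ = sing η ∧ w η = sg (cls (w γ)) ξ ∧ w γ < sg (cls (w γ)) ξ
  rich_root : ∀ j, cls j ∈ S → ∀ n, ∃ γ, n ≤ γ ∧ par γ = none ∧ w γ = j
  rich_child : ∀ ξ c, ¬ GoodJ 𝓖 (w ξ) (D ξ) → bsum c ≤ 1 →
    (Odd (w ξ) → ∃ η, c = sing η ∧ w η = sg (cls (w ξ)) ξ ∧ w ξ < sg (cls (w ξ)) ξ) →
    ∀ n, ∃ γ, n ≤ γ ∧ par γ = some ξ ∧ b γ = c

/-! The space of values, the base space and the extended space. -/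

structure Val (E : Type w) [NormedAddCommGroup E] [NormedSpace ℂ E] where
  θ : ℕ → ℕ → E →L[ℂ] E
  Λ : ℕ → E →L[ℂ] E
  θ_le : ∀ a r x, ‖θ a r x‖ ≤ ‖x‖
  Λ_θ : ∀ a r x, Λ a (θ a r x) = θ a r x
  Λ_Λ : ∀ a x, Λ a (Λ a x) = Λ a x

structure Base (E : Type w) [NormedAddCommGroup E] [NormedSpace ℂ E]
    (V : Type u) [NormedAddCommGroup V] [NormedSpace ℂ V] where
  R : ℕ → V →L[ℂ] V
  φ : ℕ → V →L[ℂ] E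
  K : ℝ
  two_le : 2 ≤ K
  R_norm : ∀ n, ‖R n‖ ≤ K
  R_comp : ∀ n m v, R n (R m v) = R (min n m) v
  φ_norm : ∀ i, ‖φ i‖ ≤ 1
  norming : ∀ (v : V) (c : ℝ), 0 ≤ c → (∀ i, ‖φ i v‖ ≤ c) → ‖v‖ ≤ c
  lsep : ∀ (v : V) (n : ℕ) (ε : ℝ), R n v = v → 0 < ε →
    ∃ N, ∀ i, ‖φ i v‖ ≤ ε ∨ ∀ z, R N z = 0 → φ i z = 0

/-- The map coded by a finite rational combination. -/
def gf {Y : Type u} [NormedAddCommGroup Y] [NormedSpace ℂ Y] {E : Type w} [NormedAddCommGroup E]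
    [NormedSpace ℂ E] (g : Om × ℕ → Y →L[ℂ] E) (c : Cmb) : Y →L[ℂ] E :=
  ∑ q ∈ c.support, cf (c q) • g q

def bf {Y : Type u} [NormedAddCommGroup Y] [NormedSpace ℂ Y] {E : Type w} [NormedAddCommGroup E]
    [NormedSpace ℂ E] (θ : ℕ → E →L[ℂ] E) (e : Om → Y →L[ℂ] E) (c : Cmb) : Y →L[ℂ] E :=
  gf (fun q => (θ q.2).comp (e q.1)) c

structure BD (𝓖 : ℕ → Fam) (S : Set ℕ) {E : Type w} [NormedAddCommGroup E] [NormedSpace ℂ E]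
    (σ : Val E) (Y : Type u) [NormedAddCommGroup Y] [NormedSpace ℂ Y] where
  t : Tree 𝓖 S
  e : Om → Y →L[ℂ] E
  P : ℕ → Y →L[ℂ] Y
  M : ℝ
  two_le : 2 ≤ M
  e_norm : ∀ ω, ‖e ω‖ ≤ 1
  norming : ∀ (y : Y) (c : ℝ), 0 ≤ c → (∀ ω, ‖e ω y‖ ≤ c) → ‖y‖ ≤ c
  P_norm : ∀ n, ‖P n‖ ≤ M
  P_comp : ∀ n m y, P n (P m y) = P (min n m) y
  P_tendsto : ∀ y, Tendsto (fun n => P n y) atTop (𝓝 y)
  coord : ∀ γ n y, γ < n → e (Sum.inr γ) (P n y) = e (Sum.inr γ) y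
  rec_root : ∀ γ y, t.par γ = none → e (Sum.inr γ) (P γ y) = 0
  rec_child : ∀ γ ξ y, t.par γ = some ξ → e (Sum.inr γ) (P γ y) =
    e (Sum.inr ξ) y + (dl (t.w γ) : ℂ) • bf (σ.θ (cls (t.w γ))) e (t.b γ) (P γ y - P (ξ + 1) y)
  lab : ∀ γ y, σ.Λ (cls (t.w γ)) (e (Sum.inr γ) y) = e (Sum.inr γ) y
  lsep : ∀ (y : Y) (n : ℕ) (ε : ℝ), P n y = y → 0 < ε →
    ∃ N, ∀ i, ‖e (Sum.inl i) y‖ ≤ ε ∨ ∀ z, P N z = 0 → e (Sum.inl i) z = 0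
  split : ∀ (y : Y) (s n : ℕ) (W : Set ℕ), P s y = 0 → P n y = y →
    ∃ y' : Y, P s y' = 0 ∧ P n y' = y' ∧ ‖y'‖ ≤ M * ‖y‖ ∧
      (∀ γ, γ < n → γ ∈ W → e (Sum.inr γ) y' = e (Sum.inr γ) y) ∧
      (∀ γ, γ < n → γ ∉ W → e (Sum.inr γ) y' = 0)
  unit : ∀ γ x, σ.Λ (cls (t.w γ)) x = x →
    ∃ y : Y, P γ y = 0 ∧ P (γ + 1) y = y ∧ ‖y‖ ≤ M * ‖x‖ ∧ e (Sum.inr γ) y = x

/-- The link between the extended space and the base space. -/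
structure Link {𝓖 : ℕ → Fam} {S : Set ℕ} {E : Type w} [NormedAddCommGroup E] [NormedSpace ℂ E]
    {σ : Val E} {V : Type v} [NormedAddCommGroup V] [NormedSpace ℂ V]
    {Y : Type u} [NormedAddCommGroup Y] [NormedSpace ℂ Y] (B : Base E V) (s : BD 𝓖 S σ Y) where
  π : Y →L[ℂ] V
  ι : ℕ → V →L[ℂ] Y
  π_norm : ‖π‖ ≤ 1
  ι_norm : ∀ n, ‖ι n‖ ≤ s.M
  e_inl : ∀ i y, s.e (Sum.inl i) y = B.φ i (π y)
  π_ι : ∀ n v, π (ι n v) = B.R n v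
  ι_R : ∀ n v, ι n (B.R n v) = ι n v
  P_ι : ∀ n m v, s.P n (ι m v) = ι (min n m) v
  P_sub : ∀ n (T : Y →L[ℂ] Y), (∀ γ, IsCompactOperator ((s.e (Sum.inr γ)).comp T)) →
    IsCompactOperator ((s.P n - (ι n).comp π).comp T)
  act : (∀ i, B.φ i = 0) → ∀ ρ : E →L[ℂ] E, (∀ a r x, ρ (σ.θ a r x) = σ.θ a r (ρ x)) →
    (∀ a x, ρ (σ.Λ a x) = σ.Λ a (ρ x)) → ∃ A : Y →L[ℂ] Y,
      (∀ γ y, s.e (Sum.inr γ) (A y) = ρ (s.e (Sum.inr γ) y)) ∧ ∀ n y, s.P n (A y) = A (s.P n y)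

/-! Block families and sequences. -/

section
variable {𝓖 : ℕ → Fam} {S : Set ℕ} {E : Type w} [NormedAddCommGroup E] [NormedSpace ℂ E] {σ : Val E}
  {Y : Type u} [NormedAddCommGroup Y] [NormedSpace ℂ Y]

structure BFam (s : BD 𝓖 S σ Y) (D J : Finset ℕ) (x : ℕ → Y) (C : ℝ) : Prop where
  sub : J ⊆ D
  low : ∀ p ∈ J, ∀ q ∈ D, q < p → s.P (q + 1) (x p) = 0
  high : ∀ p ∈ J, s.P (p + 1) (x p) = x p
  norm : ∀ p ∈ J, ‖x p‖ ≤ C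

/-- An estimate of the functional `f` on a combination. -/
def Est (D : Finset ℕ) (x : ℕ → Y) (c : ℕ → ℝ) (C : ℝ) (f : Y →L[ℂ] E) (𝓗 : Fam) (μ : ℝ)
    (J : Finset ℕ) : Prop :=
  ∃ H ∈ 𝓗, ‖f (cmb c J x)‖ ≤ C * mass D H c J + C * μ * ∑ p ∈ J, c p

/-- Bounded sequences with finite ranges that go to infinity. -/
structure Blk (s : BD 𝓖 S σ Y) (x : ℕ → Y) : Prop where
  fin : ∀ k, ∃ n, s.P n (x k) = x k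
  far : ∀ n, ∀ᶠ k in atTop, s.P n (x k) = 0
  bdd : ∃ C : ℝ, ∀ k, ‖x k‖ ≤ C

/-- Rapidly increasing sequences, asymptotic form. -/
structure RIS (s : BD 𝓖 S σ Y) (x : ℕ → Y) : Prop where
  blk : Blk s x
  est : ∃ C : ℝ, ∀ h, ∀ᶠ k in atTop, ∀ γ, s.t.w γ = h → ‖s.e (Sum.inr γ) (x k)‖ ≤ C * dl h

/-- Rapidly increasing sequences, strong form. -/
structure SRIS (s : BD 𝓖 S σ Y) (C : ℝ) (x : ℕ → Y) : Prop where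
  fin : ∀ k, ∃ n, s.P n (x k) = x k
  far : ∀ n, ∀ᶠ k in atTop, s.P n (x k) = 0
  bdd : ∀ k, ‖x k‖ ≤ C
  exc : ∀ γ, ∃ k₀, ∀ k, k ≠ k₀ → ‖s.e (Sum.inr γ) (x k)‖ ≤ C * dl (s.t.w γ)
  excL : ∀ i, ∃ k₀, ∀ k, k ≠ k₀ → ‖s.e (Sum.inl i) (x k)‖ ≤ C * dl k

/-- Local data: a finite-dimensional space of operators that acts on a complemented part. -/
structure Loc (s : BD 𝓖 S σ Y) {F : Type v} [NormedAddCommGroup F] [NormedSpace ℂ F]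
    (α : F →L[ℂ] Y →L[ℂ] Y) where
  q : Y →L[ℂ] Y
  a : ℕ
  mem : a ∈ S
  ε : E →L[ℂ] ℂ
  ε_le : ∀ x, ‖ε x‖ ≤ ‖x‖
  κ : ℝ
  κ_pos : 0 < κ
  sep : ∀ x y : Y, q x = x → q y = y → ∀ δ η : ℝ, 0 < δ → 0 < η → (∀ f, δ ≤ ‖y - α f x‖) →
    ∃ b : Cmb, bsum b ≤ 1 ∧ ‖bf (σ.θ a) s.e b x‖ ≤ η ∧
      κ * δ ≤ (ε (σ.θ a 0 (bf (σ.θ a) s.e b y))).re
  q_q : ∀ y, q (q y) = q y
  q_P : ∀ n y, s.P n (q y) = q (s.P n y)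
  q_e : ∃ C : ℝ, ∀ γ y, ‖s.e (Sum.inr γ) (q y)‖ ≤ C * ‖s.e (Sum.inr γ) y‖
  α_q : ∀ f y, α f (q y) = α f y
  q_α : ∀ f y, q (α f y) = α f y
  α_P : ∀ f n y, s.P n (α f y) = α f (s.P n y)
  cpt : ∀ γ, IsCompactOperator ((s.e (Sum.inr γ)).comp q)
  free : ∃ (y : ℕ → Y) (c : ℝ), RIS s y ∧ (∀ k, q (y k) = y k) ∧ 0 ≤ c ∧
    ∀ k f, ‖f‖ ≤ c * ‖α f (y k)‖

end

end Pool.Agent.Lib.MP_2a83f9_an.H
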