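import Mathlib
import Pool.Agent.Lib.MP_2a83f9_an.H.Basic

set_option autoImplicit false

open Filter Topology

noncomputable section

namespace Pool.Agent.Lib.MP_2a83f9_an.H

universe u v w

/-- Construction of a chain that stops at the first good initial segment. -/
theorem build_chain {𝓖 : ℕ → Fam} {S : Set ℕ} (h𝓖 : ∀ j, Null (𝓖 j)) (t : Tree 𝓖 S) {j : ℕ}
    (hj : cls j ∈ S) (n₀ : ℕ) {α : Type v} (Ψ : ℕ → α → Cmb → ℕ → Prop)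
    (step : ∀ ξ, n₀ ≤ ξ → ∃ (d : α) (c : Cmb) (n : ℕ), bsum c ≤ 1 ∧
      (Odd j → ∃ η, c = sing η ∧ t.w η = sg (cls j) ξ ∧ j < sg (cls j) ξ) ∧ Ψ ξ d c n) :
    ∃ (γ : ℕ) (d : ℕ → α) (lo n : ℕ → ℕ) (c : ℕ → ℝ) (J : Finset ℕ),
      t.w γ = j ∧ SccW 𝓖 j (t.D γ) c ∧ J ⊆ t.D γ ∧ ∑ p ∈ J, c p = 1 ∧
      (∀ ζ ∈ t.D γ, n₀ ≤ ζ) ∧
      ∀ p ∈ J, t.par p = some (lo p) ∧ lo p ∈ t.D γ ∧ (∀ q ∈ t.D γ, q < p → q ≤ lo p) ∧
        n p ≤ p ∧ Ψ (lo p) (d p) (t.b p) (n p) := by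
  classical
  choose dd cc nn h1 h2 h3 using fun ξ => step (max n₀ ξ) (le_max_left _ _)
  have nx : ∀ ξ, ∃ γ, ξ < γ ∧ (n₀ ≤ ξ → t.w ξ = j → ¬ GoodJ 𝓖 j (t.D ξ) →
      nn ξ ≤ γ ∧ t.par γ = some ξ ∧ t.b γ = cc ξ) := fun ξ => by
    by_cases h : n₀ ≤ ξ ∧ t.w ξ = j ∧ ¬ GoodJ 𝓖 j (t.D ξ)
    · obtain ⟨g1, rfl, g3⟩ := h
      obtain ⟨γ, hγ⟩ := t.rich_child ξ (cc ξ) g3 (h1 ξ)
        (by simpa only [max_eq_right g1] using h2 ξ) (nn ξ)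
      exact ⟨γ, t.par_lt _ _ hγ.2.1, fun _ _ _ => hγ⟩
    · exact ⟨ξ + 1, Nat.lt_succ_self _, fun a b c => (h ⟨a, b, c⟩).elim⟩
  choose nx n1 n2 using nx
  obtain ⟨r0, r1, r2, r3⟩ := t.rich_root j hj n₀
  have x1 : ∀ r, nx^[r + 1] r0 = nx (nx^[r] r0) := fun r => Function.iterate_succ_apply' _ _ _
  have hm : StrictMono fun r => nx^[r] r0 := strictMono_nat_of_lt_succ fun r => by
    rw [x1]; exact n1 _
  have x0 : ∀ r, n₀ ≤ nx^[r] r0 := fun r => r1.trans (hm.monotone (Nat.zero_le r))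
  obtain ⟨N, ⟨c, hc⟩, hN⟩ := exists_first_good h𝓖 j _ hm
  have ind : ∀ r ≤ N, t.w (nx^[r] r0) = j ∧
      t.D (nx^[r] r0) = (Finset.range (r + 1)).image fun r => nx^[r] r0 := fun r => by
    induction r with
    | zero => exact fun _ => ⟨r3, by simpa using t.root_D _ r2⟩
    | succ r ih =>
      intro hr
      obtain ⟨i1, i2⟩ := ih (Nat.le_of_succ_le hr)
      have := (n2 _ (x0 r) i1 (i2 ▸ hN r hr)).2.1
      rw [← x1] at this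
      exact ⟨(t.par_w _ _ this).trans i1, by
        rw [t.par_D _ _ this, i2, Finset.range_add_one (n := r + 1), Finset.image_insert]⟩
  obtain ⟨e1, e2⟩ := ind N le_rfl
  refine ⟨nx^[N] r0, fun p => dd ((t.par p).getD 0), fun p => (t.par p).getD 0,
    fun p => nn ((t.par p).getD 0), c, (t.D (nx^[N] r0)).filter (c · ≠ 0), e1, e2 ▸ hc,
    Finset.filter_subset _ _, by rw [Finset.sum_filter_ne_zero, e2, hc.sum_one], fun ζ hζ => ?_,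
    fun p hp => ?_⟩
  · rw [e2] at hζ
    obtain ⟨r, -, rfl⟩ := Finset.mem_image.1 hζ
    exact x0 r
  obtain ⟨p1, q, p2, p3⟩ := hc.supp p (Finset.mem_filter.1 hp).2
  obtain ⟨r, p4, rfl⟩ := Finset.mem_image.1 p1
  obtain ⟨s, -, rfl⟩ := Finset.mem_image.1 p2
  obtain ⟨r, rfl⟩ := Nat.exists_eq_succ_of_ne_zero (Nat.ne_zero_of_lt (hm.lt_iff_lt.1 p3))
  have p5 : r < N := Nat.lt_of_succ_lt_succ (Finset.mem_range.1 p4)
  obtain ⟨i1, i2⟩ := ind r p5.le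
  obtain ⟨k1, k2, k3⟩ := n2 _ (x0 r) i1 (i2 ▸ hN r p5)
  rw [← x1] at k1 k2 k3
  simp only [k2, Option.getD_some, e2, k3]
  refine ⟨trivial, Finset.mem_image.2 ⟨r, Finset.mem_range.2 (by omega), rfl⟩, fun q hq h => ?_,
    k1, by simpa only [max_eq_right (x0 r)] using h3 (nx^[r] r0)⟩
  obtain ⟨s, -, rfl⟩ := Finset.mem_image.1 hq
  exact hm.monotone (Nat.le_of_lt_succ (hm.lt_iff_lt.1 h))

end Pool.Agent.Lib.MP_2a83f9_an.H
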