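import Mathlib
import Pool.Agent.Lib.MP_2a83f9_an.H.Basic

set_option autoImplicit false

open Filter Topology

noncomputable section

namespace Pool.Agent.Lib.MP_2a83f9_an.H

universe u v w

variable {𝓖 : ℕ → Fam} {S : Set ℕ} {E : Type w} [NormedAddCommGroup E] [NormedSpace ℂ E] {σ : Val E}
  {Y : Type u} [NormedAddCommGroup Y] [NormedSpace ℂ Y]

theorem map_cmb {W : Type v} [NormedAddCommGroup W] [NormedSpace ℂ W] (f : Y →L[ℂ] W)
    (c : ℕ → ℝ) (J : Finset ℕ) (x : ℕ → Y) :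
    f (cmb c J x) = ∑ p ∈ J, (c p : ℂ) • f (x p) := by
  unfold cmb
  rw [map_sum]
  simp only [map_smul]

theorem norm_map_cmb_le (f : Y →L[ℂ] E) {c : ℕ → ℝ} (hc : ∀ p, 0 ≤ c p) (J : Finset ℕ)
    (x : ℕ → Y) {m : ℝ} (h : ∀ p ∈ J, ‖f (x p)‖ ≤ m) :
    ‖f (cmb c J x)‖ ≤ m * ∑ p ∈ J, c p := by
  rw [map_cmb, Finset.mul_sum]
  refine (norm_sum_le _ _).trans (Finset.sum_le_sum fun p hp => ?_)
  rw [norm_smul, Complex.norm_real, Real.norm_eq_abs, abs_of_nonneg (hc p), mul_comm]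
  exact mul_le_mul_of_nonneg_right (h p hp) (hc p)

theorem not_hit {D E : Finset ℕ} {p d : ℕ} (h : ¬ Hit D E p) (hd : d ∈ E) :
    p < d ∨ ∃ q ∈ D, q < p ∧ d ≤ q := by
  by_contra hc
  push Not at hc
  exact h ⟨d, hd, hc.1, fun q hq hqp => hc.2 q hq hqp⟩

theorem hit_self (D : Finset ℕ) {H : Finset ℕ} {p : ℕ} (h : p ∈ H) : Hit D H p :=
  ⟨p, h, le_rfl, fun _ _ hq => hq⟩

theorem hit_mono_right {D H H' : Finset ℕ} {p : ℕ} (h : H ⊆ H') (hh : Hit D H p) :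
    Hit D H' p := by
  obtain ⟨g, hg, h1, h2⟩ := hh
  exact ⟨g, h hg, h1, h2⟩

theorem sum_two_le {c : ℕ → ℝ} (hc : ∀ p, 0 ≤ c p) {J₁ J₂ J : Finset ℕ} (hd : Disjoint J₁ J₂)
    (h₁ : J₁ ⊆ J) (h₂ : J₂ ⊆ J) : ∑ p ∈ J₁, c p + ∑ p ∈ J₂, c p ≤ ∑ p ∈ J, c p := by
  classical
  rw [← Finset.sum_union hd]
  exact Finset.sum_le_sum_of_subset_of_nonneg (Finset.union_subset h₁ h₂) fun p _ _ => hc p

theorem mass_two_le {c : ℕ → ℝ} (hc : ∀ p, 0 ≤ c p) (D H : Finset ℕ) {J₁ J₂ J : Finset ℕ}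
    (hd : Disjoint J₁ J₂) (h₁ : J₁ ⊆ J) (h₂ : J₂ ⊆ J) :
    mass D H c J₁ + mass D H c J₂ ≤ mass D H c J := by
  classical
  unfold mass
  exact sum_two_le hc (Finset.disjoint_filter_filter hd) (Finset.filter_subset_filter _ h₁)
    (Finset.filter_subset_filter _ h₂)

theorem mass_of_all {c : ℕ → ℝ} {D H J : Finset ℕ} (h : ∀ p ∈ J, Hit D H p) :
    mass D H c J = ∑ p ∈ J, c p := by
  classical
  unfold mass
  rw [Finset.filter_true_of_mem h]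

/-- Splitting an estimate into a part covered by `H` and a part with small values. -/
theorem est_split (f : Y →L[ℂ] E) {D J : Finset ℕ} {x : ℕ → Y} {C : ℝ} (hC : 0 ≤ C) {c : ℕ → ℝ}
    (hc : ∀ p, 0 ≤ c p) (G H : Finset ℕ) (hG : ∀ p ∈ J, p ∈ G → Hit D H p)
    (hf : ∀ p ∈ J, ‖f (x p)‖ ≤ C) {m : ℝ}
    (hr : ‖f (cmb c (J \ G) x)‖ ≤ C * mass D H c (J \ G) + m) :
    ‖f (cmb c J x)‖ ≤ C * mass D H c J + m := by
  classical
  have h1 : cmb c J x = cmb c (J ∩ G) x + cmb c (J \ G) x := by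
    unfold cmb
    rw [Finset.sum_inter_add_sum_sdiff]
  have h2 : ‖f (cmb c (J ∩ G) x)‖ ≤ C * mass D H c (J ∩ G) := by
    rw [mass_of_all fun p hp => hG p (Finset.mem_inter.1 hp).1 (Finset.mem_inter.1 hp).2]
    exact norm_map_cmb_le f hc _ x fun p hp => hf p (Finset.mem_inter.1 hp).1
  have h3 := mass_two_le hc D H (J₁ := J ∩ G) (J₂ := J \ G) (J := J)
    (Finset.disjoint_sdiff_inter J G).symm Finset.inter_subset_left Finset.sdiff_subset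
  rw [h1, map_add]
  have h4 := norm_add_le (f (cmb c (J ∩ G) x)) (f (cmb c (J \ G) x))
  nlinarith

theorem chain_aux (s : BD 𝓖 S σ Y) {D J₀ : Finset ℕ} {x : ℕ → Y} {C : ℝ} (hx : BFam s D J₀ x C)
    (hC : 0 ≤ C) {c : ℕ → ℝ} (hc : ∀ p, 0 ≤ c p) (γ : ℕ) {𝓗 : Fam} (h0 : ∅ ∈ 𝓗) {μ : ℝ}
    (hμ : 0 ≤ μ)
    (hin : ∀ ζ ∈ s.t.D γ, ∀ ξ, s.t.par ζ = some ξ → ∀ J ⊆ J₀,
      Est D x c C (bf (σ.θ (cls (s.t.w ζ))) s.e (s.t.b ζ)) 𝓗 μ J) :
    ∀ J ⊆ J₀, (∀ p ∈ J, ¬ Hit D (s.t.D γ) p) →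
      Est D x c C (s.e (Sum.inr γ)) {G | Cov 𝓗 (s.t.D γ) G} (dl (s.t.w γ) * μ) J := by
  classical
  induction γ using s.t.ind with
  | h0 γ hγ =>
    intro J hJ hn
    refine ⟨∅, fun _ _ _ => ⟨∅, h0, fun g hg => absurd hg (by simp)⟩, ?_⟩
    have h1 : ∀ p ∈ J, ‖s.e (Sum.inr γ) (x p)‖ ≤ 0 := by
      intro p hp
      rcases not_hit (hn p hp) (s.t.self_mem γ) with h | ⟨q, hq, hqp, hγq⟩
      · have h2 := s.rec_root γ (x p) hγ
        rw [s.P_of_le (by omega) (hx.high p (hJ hp))] at h2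
        rw [h2, norm_zero]
      · rw [s.e_zero (by omega) (hx.low p (hJ hp) q hq hqp), norm_zero]
    have h2 := norm_map_cmb_le (s.e (Sum.inr γ)) hc J x h1
    have h3 : 0 ≤ mass D ∅ c J := mass_nonneg hc
    have h4 : 0 ≤ ∑ p ∈ J, c p := Finset.sum_nonneg fun p _ => hc p
    have h5 := dl_pos (s.t.w γ)
    have h6 : 0 ≤ C * (dl (s.t.w γ) * μ) * ∑ p ∈ J, c p := by positivity
    nlinarith
  | h1 γ ξ hγ ih =>
    intro J hJ hn
    have hlt := s.t.par_lt γ ξ hγ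
    have hξ : ξ ∈ s.t.D γ := s.t.par_mem (s.t.self_mem γ) hγ
    have hsub : s.t.D ξ ⊆ s.t.D γ := s.t.D_subset hξ
    set J₁ := J.filter (fun p => p < ξ) with hJ₁
    set J₂ := J.filter (fun p => ¬ p < ξ ∧ p < γ) with hJ₂
    have hs₁ : J₁ ⊆ J := Finset.filter_subset _ _
    have hs₂ : J₂ ⊆ J := Finset.filter_subset _ _
    have hd : Disjoint J₁ J₂ := by
      rw [Finset.disjoint_left]
      intro p h1 h2
      exact (Finset.mem_filter.1 h2).2.1 (Finset.mem_filter.1 h1).2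
    obtain ⟨H₁, hH₁, he₁⟩ := ih (fun ζ hζ => hin ζ (hsub hζ)) J₁ (hs₁.trans hJ)
      (fun p hp hh => hn p (hs₁ hp) (hit_mono_right hsub hh))
    obtain ⟨H₂, hH₂, he₂⟩ := hin γ (s.t.self_mem γ) ξ hγ J₂ (hs₂.trans hJ)
    have hwit : ∀ p ∈ J, ¬ p < ξ → ∃ q ∈ D, q < p ∧ ξ ≤ q := fun p hp h =>
      (not_hit (hn p hp) hξ).resolve_left h
    have heq : s.e (Sum.inr γ) (cmb c J x) = s.e (Sum.inr ξ) (cmb c J₁ x) +
        (dl (s.t.w γ) : ℂ) • bf (σ.θ (cls (s.t.w γ))) s.e (s.t.b γ) (cmb c J₂ x) := by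
      rw [map_cmb, map_cmb, map_cmb, Finset.smul_sum, hJ₁, hJ₂, Finset.sum_filter,
        Finset.sum_filter, ← Finset.sum_add_distrib]
      apply Finset.sum_congr rfl
      intro p hp
      by_cases h1 : p < ξ
      · rw [if_pos h1, if_neg (by tauto), add_zero,
          s.e_step hγ (s.P_of_le (by omega) (hx.high p (hJ hp)))]
      · rw [if_neg h1, zero_add]
        by_cases h2 : p < γ
        · rw [if_pos ⟨h1, h2⟩]
          obtain ⟨q, hq, hqp, hξq⟩ := hwit p hp h1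
          have h3 : s.P (ξ + 1) (x p) = 0 :=
            s.P_zero_of_le (by omega) (hx.low p (hJ hp) q hq hqp)
          have h4 := s.rec_child γ ξ (x p) hγ
          rw [s.P_of_le (by omega) (hx.high p (hJ hp)), h3, sub_zero,
            s.e_zero (Nat.lt_succ_self ξ) h3, zero_add] at h4
          rw [h4, smul_comm]
        · rw [if_neg (by tauto)]
          obtain ⟨q, hq, hqp, hγq⟩ := (not_hit (hn p hp) (s.t.self_mem γ)).resolve_left h2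
          rw [s.e_zero (by omega) (hx.low p (hJ hp) q hq hqp), smul_zero]
    refine ⟨H₁.filter (fun g => g < ξ) ∪ H₂.filter (fun g => ξ < g), ?_, ?_⟩
    · intro u t hut
      rcases lt_or_ge t ξ with h1 | h1
      · obtain ⟨H', hH', hcov⟩ := hH₁ u t fun d hd => hut d (hsub hd)
        refine ⟨H', hH', fun g hg hug hgt => ?_⟩
        rcases Finset.mem_union.1 hg with h2 | h2
        · exact hcov g (Finset.mem_filter.1 h2).1 hug hgt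
        · have := (Finset.mem_filter.1 h2).2
          omega
      · have h2 : ξ ≤ u := by
          by_contra h3
          exact hut ξ hξ ⟨by omega, h1⟩
        refine ⟨H₂, hH₂, fun g hg hug _ => ?_⟩
        rcases Finset.mem_union.1 hg with h3 | h3
        · have := (Finset.mem_filter.1 h3).2
          omega
        · exact (Finset.mem_filter.1 h3).1
    · set H := H₁.filter (fun g => g < ξ) ∪ H₂.filter (fun g => ξ < g) with hH
      have m₁ : mass D H₁ c J₁ ≤ mass D H c J₁ := by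
        apply mass_mono hc le_rfl
        rintro p hp ⟨g, hg, h1, h2⟩
        have := (Finset.mem_filter.1 hp).2
        exact ⟨g, Finset.mem_union_left _ (Finset.mem_filter.2 ⟨hg, by omega⟩), h1, h2⟩
      have m₂ : mass D H₂ c J₂ ≤ mass D H c J₂ := by
        apply mass_mono hc le_rfl
        rintro p hp ⟨g, hg, h1, h2⟩
        obtain ⟨q, hq, hqp, hξq⟩ := hwit p (hs₂ hp) (Finset.mem_filter.1 hp).2.1
        have := h2 q hq hqp
        exact ⟨g, Finset.mem_union_right _ (Finset.mem_filter.2 ⟨hg, by omega⟩), h1, h2⟩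
      have m₃ := mass_two_le hc D H hd hs₁ hs₂
      have m₄ := sum_two_le hc hd hs₁ hs₂
      have hw := s.t.par_w γ ξ hγ
      rw [← hw] at he₁
      have d₀ := dl_pos (s.t.w γ)
      have d₁ := dl_le (s.t.w γ)
      have n₂ : 0 ≤ mass D H₂ c J₂ := mass_nonneg hc
      have e₂ : ‖(dl (s.t.w γ) : ℂ) • bf (σ.θ (cls (s.t.w γ))) s.e (s.t.b γ) (cmb c J₂ x)‖ ≤
          C * mass D H₂ c J₂ + C * (dl (s.t.w γ) * μ) * ∑ p ∈ J₂, c p := by
        rw [norm_smul, norm_dl]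
        have h1 := mul_le_mul_of_nonneg_left he₂ d₀.le
        have h2 : dl (s.t.w γ) * (C * mass D H₂ c J₂) ≤ C * mass D H₂ c J₂ := by
          have : 0 ≤ C * mass D H₂ c J₂ := mul_nonneg hC n₂
          nlinarith
        nlinarith
      rw [heq]
      have h5 := norm_add_le (s.e (Sum.inr ξ) (cmb c J₁ x))
        ((dl (s.t.w γ) : ℂ) • bf (σ.θ (cls (s.t.w γ))) s.e (s.t.b γ) (cmb c J₂ x))
      have h6 : 0 ≤ C * (dl (s.t.w γ) * μ) := by positivity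
      have h7 := mul_le_mul_of_nonneg_left m₄ h6
      have h8 := mul_le_mul_of_nonneg_left m₃ hC
      have h9 := mul_le_mul_of_nonneg_left m₁ hC
      have h10 := mul_le_mul_of_nonneg_left m₂ hC
      nlinarith

theorem chain_est (s : BD 𝓖 S σ Y) {D J₀ : Finset ℕ} {x : ℕ → Y} {C : ℝ} (hx : BFam s D J₀ x C)
    (hC : 0 ≤ C) {c : ℕ → ℝ} (hc : ∀ p, 0 ≤ c p) (γ : ℕ) {𝓗 : Fam} (h0 : ∅ ∈ 𝓗) {μ : ℝ}
    (hμ : 0 ≤ μ)
    (hin : ∀ ζ ∈ s.t.D γ, ∀ ξ, s.t.par ζ = some ξ → ∀ J ⊆ J₀,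
      Est D x c C (bf (σ.θ (cls (s.t.w ζ))) s.e (s.t.b ζ)) 𝓗 μ J) :
    ∀ J ⊆ J₀, Est D x c C (s.e (Sum.inr γ)) {G | Cov 𝓗 (s.t.D γ) G} (dl (s.t.w γ) * μ) J := by
  classical
  intro J hJ
  set G := J.filter (Hit D (s.t.D γ)) with hG
  obtain ⟨H, hH, he⟩ := chain_aux s hx hC hc γ h0 hμ hin (J \ G) (Finset.sdiff_subset.trans hJ)
    (fun p hp hh => (Finset.mem_sdiff.1 hp).2 (Finset.mem_filter.2 ⟨(Finset.mem_sdiff.1 hp).1, hh⟩))
  refine ⟨s.t.D γ ∪ H, ?_, ?_⟩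
  · intro u t hut
    obtain ⟨H', hH', hcov⟩ := hH u t hut
    refine ⟨H', hH', fun g hg hug hgt => ?_⟩
    rcases Finset.mem_union.1 hg with h | h
    · exact absurd ⟨hug, hgt⟩ (hut g h)
    · exact hcov g h hug hgt
  · apply est_split _ hC hc G
    · intro p _ hp
      exact hit_mono_right Finset.subset_union_left (Finset.mem_filter.1 hp).2
    · intro p hp
      exact (s.e_le _ _).trans (hx.norm p (hJ hp))
    · have m₁ : mass D H c (J \ G) ≤ mass D (s.t.D γ ∪ H) c (J \ G) :=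
        mass_mono hc le_rfl fun p _ hh => hit_mono_right Finset.subset_union_right hh
      have m₂ : ∑ p ∈ J \ G, c p ≤ ∑ p ∈ J, c p :=
        Finset.sum_le_sum_of_subset_of_nonneg Finset.sdiff_subset fun p _ _ => hc p
      have d₀ := dl_pos (s.t.w γ)
      have h6 : 0 ≤ C * (dl (s.t.w γ) * μ) := by positivity
      have h7 := mul_le_mul_of_nonneg_left m₂ h6
      have h8 := mul_le_mul_of_nonneg_left m₁ hC
      linarith

theorem Est.mono {D : Finset ℕ} {x : ℕ → Y} {c : ℕ → ℝ} {C : ℝ} {f : Y →L[ℂ] E} {𝓗 𝓗' : Fam}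
    {μ μ' : ℝ} {J : Finset ℕ} (h : Est D x c C f 𝓗 μ J) (hC : 0 ≤ C) (hc : ∀ p, 0 ≤ c p)
    (h₁ : 𝓗 ⊆ 𝓗') (h₂ : μ ≤ μ') : Est D x c C f 𝓗' μ' J := by
  obtain ⟨H, hH, he⟩ := h
  refine ⟨H, h₁ hH, he.trans ?_⟩
  have h4 : 0 ≤ ∑ p ∈ J, c p := Finset.sum_nonneg fun p _ => hc p
  have h5 := mul_le_mul_of_nonneg_right (mul_le_mul_of_nonneg_left h₂ hC) h4
  linarith

theorem Est.of_le {D : Finset ℕ} {x : ℕ → Y} {c : ℕ → ℝ} {C : ℝ} {f g : Y →L[ℂ] E} {𝓗 : Fam}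
    {μ : ℝ} {J : Finset ℕ} (h : Est D x c C f 𝓗 μ J) (hg : ‖g (cmb c J x)‖ ≤ ‖f (cmb c J x)‖) :
    Est D x c C g 𝓗 μ J := by
  obtain ⟨H, hH, he⟩ := h
  exact ⟨H, hH, hg.trans he⟩

/-- The estimate given by a set of exceptional indices. -/
theorem est_of_exc (f : Y →L[ℂ] E) {D J : Finset ℕ} {x : ℕ → Y} {C : ℝ} (hC : 0 ≤ C) {c : ℕ → ℝ}
    (hc : ∀ p, 0 ≤ c p) {𝓗 : Fam} {G : Finset ℕ} (hG : G ∈ 𝓗) (hf : ∀ p ∈ J, ‖f (x p)‖ ≤ C)
    {μ : ℝ} (hμ : 0 ≤ μ) (h : ∀ p ∈ J, p ∉ G → ‖f (x p)‖ ≤ C * μ) : Est D x c C f 𝓗 μ J := by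
  refine ⟨G, hG, est_split f hC hc G G (fun p _ hp => hit_self D hp) hf ?_⟩
  have h1 := norm_map_cmb_le f hc (J \ G) x fun p hp =>
    h p (Finset.mem_sdiff.1 hp).1 (Finset.mem_sdiff.1 hp).2
  have m₂ : ∑ p ∈ J \ G, c p ≤ ∑ p ∈ J, c p :=
    Finset.sum_le_sum_of_subset_of_nonneg Finset.sdiff_subset fun p _ _ => hc p
  have h2 := mul_le_mul_of_nonneg_left m₂ (mul_nonneg hC hμ)
  have h3 : 0 ≤ C * mass D G c (J \ G) := mul_nonneg hC (mass_nonneg hc)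
  linarith

theorem single_mem_UU (𝓖 : ℕ → Fam) (j k : ℕ) : ({k} : Finset ℕ) ∈ UU 𝓖 j :=
  Or.inr (by simp)

theorem cov_subset (s : BD 𝓖 S σ Y) {γ j : ℕ} (h : s.t.w γ < j) (d : ℕ) :
    {G | Cov (HH 𝓖 j d) (s.t.D γ) G} ⊆ HH 𝓖 j (d + 1) := fun _ hG =>
  mem_HH_succ (adm_subset_UU h (s.t.D_adm γ)) hG

theorem basic_ineq (s : BD 𝓖 S σ Y) {D J₀ : Finset ℕ} {x : ℕ → Y} {C : ℝ} (hx : BFam s D J₀ x C)
    (hC : 0 ≤ C) {c : ℕ → ℝ} (hc : ∀ p, 0 ≤ c p) (j : ℕ) {β : ℝ} (hβ : 0 ≤ β)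
    (hL : ∀ i, ∃ k₀, ∀ p ∈ J₀, p ≠ k₀ → ‖s.e (Sum.inl i) (x p)‖ ≤ C * dl (j + 1))
    (hH : ∀ γ, j ≤ s.t.w γ → ∃ k₀, ∀ p ∈ J₀, p ≠ k₀ → ‖s.e (Sum.inr γ) (x p)‖ ≤ C * β) :
    ∀ (d : ℕ) (ω : Om), ∀ J ⊆ J₀,
      Est D x c C (s.e ω) (HH 𝓖 j d) (β + dl (j + 1) + (1 / 4 : ℝ) ^ d) J := by
  classical
  have d₀ := dl_pos (j + 1)
  intro d
  induction d with
  | zero =>
    intro ω J hJ
    have hf : ∀ p ∈ J, ‖s.e ω (x p)‖ ≤ C := fun p hp => (s.e_le _ _).trans (hx.norm p (hJ hp))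
    refine est_of_exc _ hC hc (empty_mem_HH 𝓖 j 0) hf (by positivity) fun p hp _ => ?_
    have := hf p hp
    rw [pow_zero]
    nlinarith
  | succ d ih =>
    intro ω J hJ
    have hf : ∀ p ∈ J, ‖s.e ω (x p)‖ ≤ C := fun p hp => (s.e_le _ _).trans (hx.norm p (hJ hp))
    have hq : (0 : ℝ) ≤ (1 / 4) ^ (d + 1) := by positivity
    rcases ω with i | γ
    · obtain ⟨k₀, hk⟩ := hL i
      refine est_of_exc _ hC hc (UU_subset_HH 𝓖 j d (single_mem_UU 𝓖 j k₀)) hf (by positivity)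
        fun p hp hpG => ?_
      have h1 := hk p (hJ hp) (by simpa using hpG)
      nlinarith
    · rcases le_or_gt j (s.t.w γ) with h | h
      · obtain ⟨k₀, hk⟩ := hH γ h
        refine est_of_exc _ hC hc (UU_subset_HH 𝓖 j d (single_mem_UU 𝓖 j k₀)) hf (by positivity)
          fun p hp hpG => ?_
        have h1 := hk p (hJ hp) (by simpa using hpG)
        nlinarith
      · have h1 := chain_est s hx hC hc γ (empty_mem_HH 𝓖 j d)
          (μ := β + dl (j + 1) + (1 / 4 : ℝ) ^ d) (by positivity)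
          (fun ζ _ ξ hξ J' hJ' => by
            obtain ⟨ω, hω⟩ := s.bf_max _ (s.t.par_bsum ζ ξ hξ) (cmb c J' x)
            exact (ih ω J' hJ').of_le hω) J hJ
        refine h1.mono hC hc (cov_subset s h d) ?_
        have d₁ := dl_le (s.t.w γ)
        have d₂ := dl_pos (s.t.w γ)
        have hq' : (0 : ℝ) ≤ (1 / 4) ^ d := by positivity
        rw [pow_succ]
        nlinarith

theorem Est.scc {D J : Finset ℕ} {x : ℕ → Y} {c : ℕ → ℝ} {C : ℝ} {f : Y →L[ℂ] E} {j d : ℕ}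
    {μ : ℝ} (h : Est D x c C f (HH 𝓖 j d) μ J) (hd : d ≤ dep j + 2) (hJ : J ⊆ D) (hC : 0 ≤ C)
    (hc : SccW 𝓖 j D c) (hμ : 0 ≤ μ) : ‖f (cmb c J x)‖ ≤ C * (dl (j + 1) + μ) := by
  obtain ⟨H, hH, he⟩ := h
  have h1 : mass D H c J ≤ dl (j + 1) :=
    (mass_mono hc.nonneg hJ fun _ _ hh => hh).trans (hc.small H (HH_mono 𝓖 j hd hH))
  have h2 : ∑ p ∈ J, c p ≤ 1 := by
    rw [← hc.sum_one]
    exact Finset.sum_le_sum_of_subset_of_nonneg hJ fun p _ _ => hc.nonneg p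
  have h3 := mul_le_mul_of_nonneg_left h1 hC
  have h4 := mul_le_mul_of_nonneg_left h2 (mul_nonneg hC hμ)
  linarith

theorem norm_cmb_le (s : BD 𝓖 S σ Y) {D J : Finset ℕ} {x : ℕ → Y} {C : ℝ} (hx : BFam s D J x C)
    (hC : 0 ≤ C) {c : ℕ → ℝ} {j : ℕ} (hc : SccW 𝓖 j D c) {β : ℝ} (hβ : 0 ≤ β)
    (hL : ∀ i, ∃ k₀, ∀ p ∈ J, p ≠ k₀ → ‖s.e (Sum.inl i) (x p)‖ ≤ C * dl (j + 1))
    (hH : ∀ γ, j ≤ s.t.w γ → ∃ k₀, ∀ p ∈ J, p ≠ k₀ → ‖s.e (Sum.inr γ) (x p)‖ ≤ C * β) :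
    ‖cmb c J x‖ ≤ C * (β + 3 * dl (j + 1)) := by
  have d₀ := dl_pos (j + 1)
  apply s.norming _ _ (by positivity)
  intro ω
  have h1 := basic_ineq s hx hC hc.nonneg j hβ hL hH (dep j) ω J le_rfl
  rw [dl_dep] at h1
  have h2 := h1.scc (by omega) hx.sub hC hc (by positivity)
  linarith

/-- The estimates for special convex combinations of a rapidly increasing family. -/
theorem scc_est (s : BD 𝓖 S σ Y) {D J : Finset ℕ} {x : ℕ → Y} {C : ℝ} (hx : BFam s D J x C)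
    (hC : 0 ≤ C) {c : ℕ → ℝ} {j : ℕ} (hc : SccW 𝓖 j D c)
    (hL : ∀ i, ∃ k₀, ∀ p ∈ J, p ≠ k₀ → ‖s.e (Sum.inl i) (x p)‖ ≤ C * dl (j + 1))
    (hE : ∀ γ, ∃ k₀, ∀ p ∈ J, p ≠ k₀ → ‖s.e (Sum.inr γ) (x p)‖ ≤ C * dl (s.t.w γ)) :
    ‖cmb c J x‖ ≤ 4 * C * dl j ∧
    (∀ γ, s.t.w γ < j → ‖s.e (Sum.inr γ) (cmb c J x)‖ ≤ 4 * C * dl j * dl (s.t.w γ)) ∧
    (∀ γ, j < s.t.w γ → ‖s.e (Sum.inr γ) (cmb c J x)‖ ≤ 4 * C * dl j * dl j) ∧
    (∀ γ, Odd (s.t.w γ) → s.t.w γ < j →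
      (∀ ζ ∈ s.t.D γ, ∀ ξ, s.t.par ζ = some ξ → sg (cls (s.t.w γ)) ξ ≠ j) →
      ‖s.e (Sum.inr γ) (cmb c J x)‖ ≤ 4 * C * dl j * dl (s.t.w γ + 1)) ∧
    (cls j ∉ S → ‖cmb c J x‖ ≤ 4 * C * dl j * dl j) := by
  have d₀ := dl_pos j
  have d₁ := dl_le j
  have d₂ := dl_succ j
  have hH : ∀ γ, j ≤ s.t.w γ → ∃ k₀, ∀ p ∈ J, p ≠ k₀ → ‖s.e (Sum.inr γ) (x p)‖ ≤ C * dl j := by
    intro γ hγ
    obtain ⟨k₀, hk⟩ := hE γ
    exact ⟨k₀, fun p hp hne =>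
      (hk p hp hne).trans (mul_le_mul_of_nonneg_left (dl_anti hγ) hC)⟩
  have hf : ∀ ω, ∀ p ∈ J, ‖s.e ω (x p)‖ ≤ C := fun ω p hp => (s.e_le _ _).trans (hx.norm p hp)
  have hlow : ∀ γ, s.t.w γ < j → ∀ J' ⊆ J, Est D x c C (s.e (Sum.inr γ)) (HH 𝓖 j (dep j + 1))
      (3 * dl j * dl (s.t.w γ)) J' := by
    intro γ hγ J' hJ'
    have h1 := chain_est s hx hC hc.nonneg γ (empty_mem_HH 𝓖 j (dep j))
      (μ := dl j + dl (j + 1) + (1 / 4 : ℝ) ^ dep j) (by rw [d₂]; positivity)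
      (fun ζ _ ξ hξ J'' hJ'' => by
        obtain ⟨ω, hω⟩ := s.bf_max _ (s.t.par_bsum ζ ξ hξ) (cmb c J'' x)
        exact (basic_ineq s hx hC hc.nonneg j d₀.le hL hH (dep j) ω J'' hJ'').of_le hω) J' hJ'
    refine h1.mono hC hc.nonneg (cov_subset s hγ _) ?_
    rw [dl_dep, d₂]
    have := dl_pos (s.t.w γ)
    have h2 : dl j * dl j ≤ dl j := by nlinarith
    nlinarith
  have hhigh : ∀ γ, j < s.t.w γ → ∀ J' ⊆ J, Est D x c C (s.e (Sum.inr γ)) (HH 𝓖 j (dep j + 1))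
      (dl j * dl j) J' := by
    intro γ hγ J' hJ'
    obtain ⟨k₀, hk⟩ := hE γ
    refine est_of_exc _ hC hc.nonneg (UU_subset_HH 𝓖 j _ (single_mem_UU 𝓖 j k₀))
      (fun p hp => hf _ p (hJ' hp)) (by positivity) fun p hp hpG => ?_
    refine (hk p (hJ' hp) (by simpa using hpG)).trans (mul_le_mul_of_nonneg_left ?_ hC)
    rw [← d₂]
    exact dl_anti hγ
  refine ⟨?_, ?_, ?_, ?_, ?_⟩
  · have h1 := norm_cmb_le s hx hC hc d₀.le hL hH
    rw [d₂] at h1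
    have h2 : dl j * dl j ≤ dl j := by nlinarith
    nlinarith
  · intro γ hγ
    have h0 := dl_pos (s.t.w γ)
    have h1 := (hlow γ hγ J le_rfl).scc (by omega) hx.sub hC hc (by positivity)
    have h2 : dl j ≤ dl (s.t.w γ) := dl_anti hγ.le
    rw [d₂] at h1
    have h3 : dl j * dl j ≤ dl j * dl (s.t.w γ) := mul_le_mul_of_nonneg_left h2 d₀.le
    nlinarith
  · intro γ hγ
    have h1 := (hhigh γ hγ J le_rfl).scc (by omega) hx.sub hC hc (by positivity)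
    rw [d₂] at h1
    have : 0 ≤ C * (dl j * dl j) := by positivity
    nlinarith
  · intro γ hodd hγ hne
    have h0 := dl_pos (s.t.w γ + 1)
    have h0' := dl_pos (s.t.w γ)
    have h0'' := dl_le (s.t.w γ)
    have h2 : dl j ≤ dl (s.t.w γ + 1) := dl_anti hγ
    have h3 : dl j * dl j ≤ dl j * dl (s.t.w γ + 1) := mul_le_mul_of_nonneg_left h2 d₀.le
    have h1 := chain_est s hx hC hc.nonneg γ (empty_mem_HH 𝓖 j (dep j + 1))
      (μ := 3 * dl j * dl (s.t.w γ + 1)) (by positivity)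
      (fun ζ hζ ξ hξ J' hJ' => by
        have hw := s.t.w_of_mem hζ
        obtain ⟨η, hb, hη, hlt⟩ := s.t.par_odd ζ ξ hξ (hw ▸ hodd)
        rw [hw] at hη hlt
        rw [hb, bf_sing]
        refine Est.of_le (f := s.e (Sum.inr η)) ?_ (σ.θ_le _ _ _)
        rcases lt_or_gt_of_ne (hne ζ hζ ξ hξ) with h | h
        · refine (hlow η (hη ▸ h) J' hJ').mono hC hc.nonneg le_rfl ?_
          have h4 : dl (s.t.w η) ≤ dl (s.t.w γ + 1) := dl_anti (by omega)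
          exact mul_le_mul_of_nonneg_left h4 (by positivity)
        · refine (hhigh η (hη ▸ h) J' hJ').mono hC hc.nonneg le_rfl ?_
          have : 0 ≤ dl j * dl (s.t.w γ + 1) := by positivity
          nlinarith) J le_rfl
    have h4 := (h1.mono hC hc.nonneg (cov_subset s hγ _)
      (μ' := 3 * dl j * dl (s.t.w γ + 1)) (by
        have : 0 ≤ 3 * dl j * dl (s.t.w γ + 1) := by positivity
        nlinarith)).scc le_rfl hx.sub hC hc (by positivity)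
    rw [d₂] at h4
    nlinarith
  · intro hcls
    have h1 := norm_cmb_le s hx hC hc (β := dl (j + 1)) (dl_pos _).le hL (fun γ hγ => by
      obtain ⟨k₀, hk⟩ := hE γ
      have hne : s.t.w γ ≠ j := fun h => hcls (h ▸ s.t.cls_w γ)
      exact ⟨k₀, fun p hp hne' =>
        (hk p hp hne').trans (mul_le_mul_of_nonneg_left (dl_anti (by omega)) hC)⟩)
    rw [d₂] at h1
    linarith

end Pool.Agent.Lib.MP_2a83f9_an.H
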