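import Mathlib
import Pool.Agent.Lib.MP_2a83f9_an.H.Dep

set_option autoImplicit false

open Filter Topology

noncomputable section

namespace Pool.Agent.Lib.MP_2a83f9_an.H

universe u v w

variable {𝓖 : ℕ → Fam} {S : Set ℕ} {E : Type w} [NormedAddCommGroup E] [NormedSpace ℂ E]
  {σ : Val E} {Y : Type u} [NormedAddCommGroup Y] [NormedSpace ℂ Y] {s : BD 𝓖 S σ Y}
  {F : Type v} [NormedAddCommGroup F] [NormedSpace ℂ F] {α : F →L[ℂ] Y →L[ℂ] Y}

lemma horiz_seq (h𝓖 : ∀ j, Null (𝓖 j)) (L : Loc s α) (T : Y →L[ℂ] Y) (hq : ∀ y, L.q (T y) = T y)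
    {x : ℕ → Y} (hx : RIS s x) (hxq : ∀ k, L.q (x k) = x k)
    (hR : ∀ m, Tendsto (fun k => s.P m (T (x k))) atTop (𝓝 0)) :
    ∃ c : ℕ → F, Tendsto (fun k => T (x k) - α (c k) (x k)) atTop (𝓝 0) := by
  have h1 : ∀ k : ℕ, ∃ c : F, ‖T (x k) - α c (x k)‖ <
      (⨅ c : F, ‖T (x k) - α c (x k)‖) + 1 / ((k : ℝ) + 1) := fun k =>
    exists_lt_of_ciInf_lt (lt_add_of_pos_right _ (by positivity))
  choose c hc using h1
  refine ⟨c, NormedAddGroup.tendsto_nhds_zero.2 fun ε hε => ?_⟩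
  filter_upwards [dist_small h𝓖 L T hq hx hxq hR (half_pos hε),
    (tendsto_one_div_add_atTop_nhds_zero_nat (𝕜 := ℝ)).eventually (gt_mem_nhds (half_pos hε))]
    with k ⟨d, hd⟩ h2
  have h3 : (⨅ c : F, ‖T (x k) - α c (x k)‖) ≤ ‖T (x k) - α d (x k)‖ :=
    ciInf_le ⟨0, by rintro _ ⟨c, rfl⟩; exact norm_nonneg _⟩ d
  linarith [hc k]

lemma horiz_smul (α : F →L[ℂ] Y →L[ℂ] Y) {c : ℕ → F} {x : ℕ → Y} (hc : Tendsto c atTop (𝓝 0))
    (hx : ∃ C : ℝ, ∀ k, ‖x k‖ ≤ C) : Tendsto (fun k => α (c k) (x k)) atTop (𝓝 0) := by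
  obtain ⟨C, hC⟩ := hx
  have h1 := ((α.continuous.tendsto 0).comp hc).norm.mul_const C
  rw [map_zero, norm_zero, zero_mul] at h1
  exact squeeze_zero_norm (fun k => (α (c k)).le_opNorm_of_le (hC k)) h1

lemma horiz_null (h𝓖 : ∀ j, Null (𝓖 j)) (L : Loc s α) (T : Y →L[ℂ] Y)
    (hq : ∀ y, L.q (T y) = T y)
    (hR : ∀ x, RIS s x → ∀ m, Tendsto (fun k => s.P m (T (x k))) atTop (𝓝 0))
    {y : ℕ → Y} (hy : RIS s y) (hyq : ∀ k, L.q (y k) = y k) {c : ℝ} (c0 : 0 ≤ c)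
    (h1 : ∀ k f, ‖f‖ ≤ c * ‖α f (y k)‖)
    (h0 : Tendsto (fun k => T (y k)) atTop (𝓝 0)) {x : ℕ → Y} (hx : RIS s x)
    (hxq : ∀ k, L.q (x k) = x k) : Tendsto (fun k => T (x k)) atTop (𝓝 0) := by
  choose n hn using hx.blk.fin
  choose i hi using fun k => ((hy.blk.far (n k)).and (eventually_ge_atTop k)).exists
  have hi' : Tendsto i atTop atTop := tendsto_atTop_mono (fun k => (hi k).2) tendsto_id
  have hz := hx.add (hy.comp hi')
  obtain ⟨μ, hμ⟩ := horiz_seq h𝓖 L T hq hz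
    (fun k => by rw [map_add, hxq, Function.comp_apply, hyq]) (hR _ hz)
  obtain ⟨ν, hν⟩ := horiz_seq h𝓖 L T hq hx hxq (hR _ hx)
  have h2 : Tendsto (fun k => T (y (i k))) atTop (𝓝 0) := h0.comp hi'
  have h3 : Tendsto (fun k => α (ν k - μ k) (x k) - α (μ k) (y (i k))) atTop (𝓝 0) := by
    have := (hμ.sub hν).sub h2
    rw [sub_zero, sub_zero] at this
    refine this.congr fun k => ?_
    simp only [Function.comp_apply, map_add, map_sub, sub_apply]
    abel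
  have h4 : Tendsto μ atTop (𝓝 0) := by
    have := (h3.norm.const_mul (1 + s.M)).const_mul c
    rw [norm_zero, mul_zero, mul_zero] at this
    refine squeeze_zero_norm (fun k => (h1 (i k) _).trans (mul_le_mul_of_nonneg_left
      (le_trans (le_of_eq ?_) (s.Q_le (n k) _)) c0)) this
    rw [map_sub (s.P (n k)), L.α_P, L.α_P, hn, (hi k).1, map_zero, sub_zero, sub_sub_cancel_left,
      norm_neg]
  have := (hμ.add (horiz_smul α h4 hz.blk.bdd)).sub h2
  rw [add_zero, sub_zero] at this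
  refine this.congr fun k => ?_
  simp only [Function.comp_apply, map_add]
  abel

theorem horiz [FiniteDimensional ℂ F] (h𝓖 : ∀ j, Null (𝓖 j)) (L : Loc s α) (T : Y →L[ℂ] Y)
    (hq : ∀ y, L.q (T y) = T y) (hq' : ∀ y, T (L.q y) = T y)
    (hR : ∀ x, RIS s x → ∀ m, Tendsto (fun k => s.P m (T (x k))) atTop (𝓝 0)) :
    ∃ l : F, Tendsto (fun n => ‖(T - α l).comp (1 - s.P n)‖) atTop (𝓝 0) := by
  have := FiniteDimensional.proper ℂ F
  obtain ⟨y, c₀, hy, hyq, c0, h1⟩ := L.free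
  obtain ⟨c, hc⟩ := horiz_seq h𝓖 L T hq hy hyq (hR _ hy)
  obtain ⟨C, hC⟩ := hy.blk.bdd
  obtain ⟨B, hB⟩ := (Metric.isBounded_range_of_tendsto _ hc).exists_norm_le
  have h2 : ∀ k, c k ∈ Metric.closedBall (0 : F) (c₀ * (‖T‖ * C + B)) := fun k => by
    have e : α (c k) (y k) = T (y k) - (T (y k) - α (c k) (y k)) := by abel
    refine mem_closedBall_zero_iff.2 ((h1 k _).trans (mul_le_mul_of_nonneg_left ?_ c0))
    rw [e]
    exact (norm_sub_le _ _).trans (add_le_add (T.le_opNorm_of_le (hC k)) (hB _ ⟨k, rfl⟩))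
  obtain ⟨l, -, φ, hφ, hl⟩ := (isCompact_closedBall _ _).tendsto_subseq h2
  refine ⟨l, tail_of_RIS s (fun _ => T - α l) _ (fun _ => le_rfl) fun x hx => ?_⟩
  refine (horiz_null h𝓖 L (T - α l) (fun v => by rw [sub_apply, map_sub, hq, L.q_α])
    (fun x hx m => ?_) (hy.comp hφ.tendsto_atTop) (fun k => hyq _) c0 (fun k => h1 _) ?_
    (hx.map L.q L.q_P L.q_e) fun k => L.q_q _).congr fun k => ?_
  · refine (hR x hx m).congr' ?_
    filter_upwards [hx.blk.far m] with k hk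
    rw [sub_apply, map_sub, L.α_P, hk, map_zero, sub_zero]
  · have := (hc.comp hφ.tendsto_atTop).add
      (horiz_smul α (tendsto_sub_nhds_zero_iff.2 hl) ⟨C, fun k => hC (φ k)⟩)
    rw [add_zero] at this
    refine this.congr fun k => ?_
    simp only [Function.comp_apply, map_sub, sub_apply]
    abel
  · rw [sub_apply, sub_apply, hq', L.α_q]

end Pool.Agent.Lib.MP_2a83f9_an.H
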