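import Mathlib
import Pool.Agent.Lib.MP_2a83f9_an.H.Basic

set_option autoImplicit false

open Filter Topology BoundedContinuousFunction

noncomputable section

namespace Pool.Agent.Lib.MP_2a83f9_an.H

universe u v w

section
variable {𝓖 : ℕ → Fam} {S : Set ℕ} {V : Type u} [NormedAddCommGroup V] [NormedSpace ℂ V]
  {E : Type w} [NormedAddCommGroup E] [NormedSpace ℂ E]

abbrev SpBig (V : Type u) (E : Type w) [NormedAddCommGroup E] := V × (ℕ →ᵇ E)

def spEv (g : ℕ) : SpBig V E →L[ℂ] E :=
  (BoundedContinuousFunction.evalCLM ℂ g).comp (ContinuousLinearMap.snd ℂ V (ℕ →ᵇ E))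

theorem spEv_apply (g : ℕ) (y : SpBig V E) : spEv g y = y.2 g := rfl

def spL (B : Base E V) (i m : ℕ) : SpBig V E →L[ℂ] E :=
  (B.φ i).comp ((B.R m).comp (ContinuousLinearMap.fst ℂ V (ℕ →ᵇ E)))

theorem spL_apply (B : Base E V) (i m : ℕ) (y : SpBig V E) : spL B i m y = B.φ i (B.R m y.1) := rfl

def spStep (σ : Val E) (B : Base E V) (t : Tree 𝓖 S) (g : ℕ) (F : ℕ → ℕ → SpBig V E →L[ℂ] E) (n : ℕ) :
    SpBig V E →L[ℂ] E :=
  if g < n then spEv g else
    (t.par g).elim 0 fun ξ => F ξ n + (dl (t.w g) : ℂ) •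
      (bf (σ.θ (cls (t.w g))) (Sum.elim (fun i => spL B i n) fun η => F η n) (t.b g) -
        bf (σ.θ (cls (t.w g))) (Sum.elim (fun i => spL B i (min n (ξ + 1))) fun η => F η (min n (ξ + 1))) (t.b g))

theorem bf_congr {W : Type v} [NormedAddCommGroup W] [NormedSpace ℂ W] (θ : ℕ → E →L[ℂ] E)
    {e e' : Om → W →L[ℂ] E} {c : Cmb} (h : ∀ q ∈ c.support, e q.1 = e' q.1) :
    bf θ e c = bf θ e' c :=
  Finset.sum_congr rfl fun ω hω => by simp only [h ω hω]

theorem bf_map {W : Type v} [NormedAddCommGroup W] [NormedSpace ℂ W] {W' : Type v}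
    [NormedAddCommGroup W'] [NormedSpace ℂ W'] (θ : ℕ → E →L[ℂ] E) (ρ : E →L[ℂ] E)
    (hρ : ∀ r x, ρ (θ r x) = θ r (ρ x)) {e : Om → W →L[ℂ] E} {e' : Om → W' →L[ℂ] E}
    {c : Cmb} {y : W} {y' : W'} (h : ∀ q ∈ c.support, e q.1 y = ρ (e' q.1 y')) :
    bf θ e c y = ρ (bf θ e' c y') := by
  unfold bf gf
  rw [_root_.sum_apply, _root_.sum_apply, map_sum]
  exact Finset.sum_congr rfl fun ω hω => by
    simp only [_root_.smul_apply, ContinuousLinearMap.comp_apply, map_smul, h ω hω, hρ]

theorem bf_congr' {W : Type v} [NormedAddCommGroup W] [NormedSpace ℂ W] {W' : Type v}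
    [NormedAddCommGroup W'] [NormedSpace ℂ W'] {θ : ℕ → E →L[ℂ] E} {e : Om → W →L[ℂ] E}
    {e' : Om → W' →L[ℂ] E} {c : Cmb} {y : W} {y' : W'}
    (h : ∀ q ∈ c.support, e q.1 y = e' q.1 y') : bf θ e c y = bf θ e' c y' :=
  bf_map θ (ContinuousLinearMap.id ℂ E) (fun _ _ => rfl) h

theorem bf_lab {W : Type v} [NormedAddCommGroup W] [NormedSpace ℂ W] (σ : Val E) (a : ℕ)
    (e : Om → W →L[ℂ] E) (c : Cmb) (y : W) :
    σ.Λ a (bf (σ.θ a) e c y) = bf (σ.θ a) e c y := by
  unfold bf gf
  rw [_root_.sum_apply, map_sum]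
  exact Finset.sum_congr rfl fun ω _ => by
    simp only [_root_.smul_apply, ContinuousLinearMap.comp_apply, map_smul, σ.Λ_θ]

theorem spStep_congr (σ : Val E) (B : Base E V) (t : Tree 𝓖 S) (g : ℕ) {F F' : ℕ → ℕ → SpBig V E →L[ℂ] E}
    (h : ∀ η < g, F η = F' η) : spStep σ B t g F = spStep σ B t g F' := by
  funext n
  unfold spStep
  rcases hp : t.par g with _ | ξ
  · simp only [Option.elim]
  · have hb : ∀ m, bf (σ.θ (cls (t.w g))) (Sum.elim (fun i => spL B i m) fun η => F η m) (t.b g) =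
        bf (σ.θ (cls (t.w g))) (Sum.elim (fun i => spL B i m) fun η => F' η m) (t.b g) := fun m => by
      apply bf_congr
      rintro ⟨i | η, r⟩ hω
      · simp only [Sum.elim_inl]
      · simp only [Sum.elim_inr]
        rw [h η (t.par_supp g ξ hp η r hω)]
    simp only [Option.elim]
    rw [hb, hb, h ξ (t.par_lt g ξ hp)]

theorem sp_rec {α : Type v} (z : α) (S : ℕ → (ℕ → α) → α)
    (hS : ∀ g (F F' : ℕ → α), (∀ η < g, F η = F' η) → S g F = S g F') :
    ∃ F : ℕ → α, ∀ g, F g = S g F := by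
  refine ⟨fun g => Nat.strongRec (motive := fun _ => α)
    (fun g ih => S g fun η => if h : η < g then ih η h else z) g, fun g => ?_⟩
  beta_reduce
  rw [Nat.strongRec_eq]
  exact hS g _ _ fun η hη => dif_pos hη

theorem sp_exists (σ : Val E) (B : Base E V) (t : Tree 𝓖 S) :
    ∃ F : ℕ → ℕ → SpBig V E →L[ℂ] E, ∀ g n, F g n = spStep σ B t g F n := by
  obtain ⟨F, hF⟩ := sp_rec 0 (spStep σ B t) fun g _ _ h => spStep_congr σ B t g h
  exact ⟨F, fun g n => congrFun (hF g) n⟩

def spF (σ : Val E) (B : Base E V) (t : Tree 𝓖 S) : ℕ → ℕ → SpBig V E →L[ℂ] E := (sp_exists σ B t).choose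

def spE (σ : Val E) (B : Base E V) (t : Tree 𝓖 S) (n : ℕ) : Om → SpBig V E →L[ℂ] E :=
  Sum.elim (fun i => spL B i n) fun η => spF σ B t η n

variable (σ : Val E) (B : Base E V) (t : Tree 𝓖 S)

theorem spF_lt {g n : ℕ} (h : g < n) (y : SpBig V E) : spF σ B t g n y = y.2 g := by
  have h1 : spF σ B t g n = _ := (sp_exists σ B t).choose_spec g n
  rw [h1, spStep, if_pos h]
  rfl

theorem spF_root {g n : ℕ} (h : n ≤ g) (hp : t.par g = none) (y : SpBig V E) :
    spF σ B t g n y = 0 := by
  have h1 : spF σ B t g n = _ := (sp_exists σ B t).choose_spec g n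
  rw [h1, spStep, if_neg (by omega), hp]
  rfl

theorem spF_child {g n ξ : ℕ} (h : n ≤ g) (hp : t.par g = some ξ) (y : SpBig V E) :
    spF σ B t g n y = spF σ B t ξ n y + (dl (t.w g) : ℂ) •
      (bf (σ.θ (cls (t.w g))) (spE σ B t n) (t.b g) y - bf (σ.θ (cls (t.w g))) (spE σ B t (min n (ξ + 1))) (t.b g) y) := by
  have h1 : spF σ B t g n = _ := (sp_exists σ B t).choose_spec g n
  rw [h1, spStep, if_neg (by omega), hp]
  rfl

omit [NormedSpace ℂ V] [NormedSpace ℂ E] in
theorem sp_snd_le (y : SpBig V E) (g : ℕ) : ‖y.2 g‖ ≤ ‖y‖ :=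
  (y.2.norm_coe_le_norm g).trans (norm_snd_le y)

theorem sp_R_le (n : ℕ) (v : V) : ‖B.R n v‖ ≤ B.K * ‖v‖ :=
  ((B.R n).le_opNorm v).trans (mul_le_mul_of_nonneg_right (B.R_norm n) (norm_nonneg v))

theorem sp_φ_le (i : ℕ) (v : V) : ‖B.φ i v‖ ≤ ‖v‖ := by
  have h1 := (B.φ i).le_opNorm v
  have h2 := B.φ_norm i
  have h3 := norm_nonneg v
  nlinarith

theorem spF_le (y : SpBig V E) (g : ℕ) : ∀ n, ‖spF σ B t g n y‖ ≤ B.K * ‖y‖ := by
  have hK := B.two_le
  have hy := norm_nonneg y
  induction g using Nat.strong_induction_on with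
  | _ g ih =>
    intro n
    rcases lt_or_ge g n with h | h
    · rw [spF_lt σ B t h]
      have := sp_snd_le y g
      nlinarith
    · rcases hp : t.par g with _ | ξ
      · rw [spF_root σ B t h hp, norm_zero]; positivity
      · have hlt := t.par_lt g ξ hp
        rw [spF_child σ B t h hp]
        rcases le_or_gt n (ξ + 1) with h1 | h1
        · rw [min_eq_left h1, sub_self, smul_zero, add_zero]
          exact ih ξ hlt n
        · have hb : ∀ m, ‖bf (σ.θ (cls (t.w g))) (spE σ B t m) (t.b g) y‖ ≤ B.K * ‖y‖ := fun m => by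
            apply bf_le_of _ _ (t.par_bsum g ξ hp) y (by positivity)
            rintro ⟨i | η, r⟩ hω
            · exact (sp_φ_le B i _).trans ((sp_R_le B m _).trans
                (mul_le_mul_of_nonneg_left (norm_fst_le y) (by linarith)))
            · exact ih η (t.par_supp g ξ hp η r hω) m
          rw [spF_lt σ B t (by omega : ξ < n)]
          refine (norm_add_le _ _).trans ?_
          rw [norm_smul, norm_dl]
          have h2 := sp_snd_le y ξ
          have h3 := norm_sub_le (bf (σ.θ (cls (t.w g))) (spE σ B t n) (t.b g) y)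
            (bf (σ.θ (cls (t.w g))) (spE σ B t (min n (ξ + 1))) (t.b g) y)
          have h4 := hb n
          have h5 := hb (min n (ξ + 1))
          have h6 := dl_le (t.w g)
          have h7 := norm_nonneg (bf (σ.θ (cls (t.w g))) (spE σ B t n) (t.b g) y -
            bf (σ.θ (cls (t.w g))) (spE σ B t (min n (ξ + 1))) (t.b g) y)
          nlinarith

def spP (n : ℕ) : SpBig V E →L[ℂ] SpBig V E :=
  LinearMap.mkContinuous
    { toFun := fun y => (B.R n y.1, ofNormedAddCommGroupDiscrete (fun g => spF σ B t g n y)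
        (B.K * ‖y‖) fun g => spF_le σ B t y g n)
      map_add' := fun y z => Prod.ext (by simp) (by ext g; simp)
      map_smul' := fun c y => Prod.ext (by simp) (by ext g; simp) } B.K
    fun y => by
      have hK := B.two_le
      refine norm_prod_le_iff.2 ⟨(sp_R_le B n _).trans
        (mul_le_mul_of_nonneg_left (norm_fst_le y) (by linarith)), ?_⟩
      exact (BoundedContinuousFunction.norm_le (by positivity)).2 fun g => spF_le σ B t y g n

theorem spP_fst (n : ℕ) (y : SpBig V E) : (spP σ B t n y).1 = B.R n y.1 := rfl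

theorem spP_snd (n : ℕ) (y : SpBig V E) (g : ℕ) : (spP σ B t n y).2 g = spF σ B t g n y := rfl

theorem spP_le (n : ℕ) (y : SpBig V E) : ‖spP σ B t n y‖ ≤ B.K * ‖y‖ := by
  have hK := B.two_le
  refine norm_prod_le_iff.2 ⟨(sp_R_le B n _).trans
    (mul_le_mul_of_nonneg_left (norm_fst_le y) (by linarith)), ?_⟩
  exact (BoundedContinuousFunction.norm_le (by positivity)).2 fun g => spF_le σ B t y g n

theorem spF_P (y : SpBig V E) (m g : ℕ) : ∀ n, spF σ B t g n (spP σ B t m y) = spF σ B t g (min n m) y := by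
  induction g using Nat.strong_induction_on with
  | _ g ih =>
    intro n
    rcases lt_or_ge g n with h | h
    · rw [spF_lt σ B t h, spP_snd]
      rcases lt_or_ge g m with h1 | h1
      · rw [spF_lt σ B t h1, spF_lt σ B t (lt_min h h1)]
      · rw [min_eq_right (by omega)]
    · rcases hp : t.par g with _ | ξ
      · rw [spF_root σ B t h hp, spF_root σ B t ((min_le_left _ _).trans h) hp]
      · have hb : ∀ k, bf (σ.θ (cls (t.w g))) (spE σ B t k) (t.b g) (spP σ B t m y) = bf (σ.θ (cls (t.w g))) (spE σ B t (min k m)) (t.b g) y :=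
          fun k => by
            apply bf_congr'
            rintro ⟨i | η, r⟩ hω
            · change B.φ i (B.R k (B.R m y.1)) = B.φ i (B.R (min k m) y.1)
              rw [B.R_comp]
            · exact ih η (t.par_supp g ξ hp η r hω) k
        rw [spF_child σ B t h hp, spF_child σ B t ((min_le_left _ _).trans h) hp,
          ih ξ (t.par_lt g ξ hp), hb, hb, min_right_comm]

theorem spP_comp (n m : ℕ) (y : SpBig V E) : spP σ B t n (spP σ B t m y) = spP σ B t (min n m) y :=
  Prod.ext (B.R_comp n m y.1) (by ext g; exact spF_P σ B t y m g n)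

theorem spF_zero {m : ℕ} {z : SpBig V E} (h1 : B.R m z.1 = 0) (h2 : ∀ g < m, z.2 g = 0) (g : ℕ) :
    ∀ n ≤ m, spF σ B t g n z = 0 := by
  induction g using Nat.strong_induction_on with
  | _ g ih =>
    intro n hn
    rcases lt_or_ge g n with h | h
    · rw [spF_lt σ B t h, h2 g (by omega)]
    · rcases hp : t.par g with _ | ξ
      · exact spF_root σ B t h hp z
      · have hb : ∀ k ≤ m, bf (σ.θ (cls (t.w g))) (spE σ B t k) (t.b g) z = 0 := fun k hk => by
          rw [← map_zero (bf (σ.θ (cls (t.w g))) (spE σ B t k) (t.b g))]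
          apply bf_congr'
          rintro ⟨i | η, r⟩ hω
          · rw [map_zero]
            change B.φ i (B.R k z.1) = 0
            rw [← min_eq_left hk, ← B.R_comp, h1, map_zero, map_zero]
          · rw [map_zero]
            exact ih η (t.par_supp g ξ hp η r hω) k hk
        rw [spF_child σ B t h hp, ih ξ (t.par_lt g ξ hp) n hn, hb n hn,
          hb _ ((min_le_left _ _).trans hn)]
        simp

theorem spP_zero {m : ℕ} {z : SpBig V E} (h1 : B.R m z.1 = 0) (h2 : ∀ g < m, z.2 g = 0) :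
    spP σ B t m z = 0 :=
  Prod.ext h1 (by ext g; exact spF_zero σ B t h1 h2 g m le_rfl)

/-- The label condition. -/
def spLab (y : SpBig V E) : Prop := ∀ g, σ.Λ (cls (t.w g)) (y.2 g) = y.2 g

theorem spF_lab {y : SpBig V E} (hy : spLab σ t y) (n g : ℕ) :
    σ.Λ (cls (t.w g)) (spF σ B t g n y) = spF σ B t g n y := by
  induction g using t.ind with
  | h0 g hp =>
    rcases lt_or_ge g n with h | h
    · rw [spF_lt σ B t h, hy]
    · rw [spF_root σ B t h hp, map_zero]
  | h1 g ξ hp ih =>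
    rcases lt_or_ge g n with h | h
    · rw [spF_lt σ B t h, hy]
    · rw [← t.par_w g ξ hp] at ih
      rw [spF_child σ B t h hp, map_add, map_smul, map_sub, ih, bf_lab, bf_lab]

def spY : Submodule ℂ (SpBig V E) where
  carrier := {y | Tendsto (fun n => spP σ B t n y) atTop (𝓝 y) ∧ spLab σ t y}
  add_mem' := fun {y z} hy hz => ⟨by simpa using Tendsto.add hy.1 hz.1, fun g => by
    change σ.Λ _ (y.2 g + z.2 g) = y.2 g + z.2 g
    rw [map_add, hy.2, hz.2]⟩
  zero_mem' := ⟨by simp, fun g => map_zero _⟩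
  smul_mem' := fun c y hy => ⟨by simpa using Tendsto.const_smul hy.1 c, fun g => by
    change σ.Λ _ (c • y.2 g) = c • y.2 g
    rw [map_smul, hy.2]⟩

theorem spP_mem (n : ℕ) {y : SpBig V E} (hy : spLab σ t y) : spP σ B t n y ∈ spY σ B t :=
  ⟨tendsto_const_nhds.congr' (eventually_atTop.2 ⟨n, fun m hm => by
    simp only [spP_comp, min_eq_right hm]⟩), fun g => spF_lab σ B t hy n g⟩

theorem spY_closed : IsClosed (spY σ B t : Set (SpBig V E)) := by
  have hK := B.two_le
  refine isClosed_of_closure_subset fun y hy => ⟨?_, fun g => ?_⟩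
  · rw [Metric.tendsto_atTop]
    intro ε hε
    obtain ⟨z, hz, hyz⟩ := Metric.mem_closure_iff.1 hy (ε / (2 * (B.K + 1))) (by positivity)
    obtain ⟨N, hN⟩ := Metric.tendsto_atTop.1 hz.1 (ε / 2) (by positivity)
    refine ⟨N, fun n hn => ?_⟩
    have h1 := hN n hn
    have h2 := dist_triangle4 (spP σ B t n y) (spP σ B t n z) z y
    have h3 : dist (spP σ B t n y) (spP σ B t n z) ≤ B.K * dist y z := by
      rw [dist_eq_norm, dist_eq_norm, ← map_sub]
      exact spP_le σ B t n _
    rw [lt_div_iff₀ (by positivity)] at hyz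
    rw [dist_comm z y] at h2
    nlinarith
  · exact closure_minimal (fun z hz => hz.2 g)
      (isClosed_eq ((σ.Λ (cls (t.w g))).comp (spEv (V := V) g)).continuous
        (spEv (V := V) g).continuous) hy

/-- The projections with values in the space. -/
def spQ (n : ℕ) {W : Type v} [NormedAddCommGroup W] [NormedSpace ℂ W] (T : W →L[ℂ] SpBig V E)
    (hT : ∀ x, spLab σ t (T x)) : W →L[ℂ] spY σ B t :=
  ((spP σ B t n).comp T).codRestrict _ fun x => spP_mem σ B t n (hT x)

def spD (g : ℕ) : E →L[ℂ] (ℕ →ᵇ E) :=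
  LinearMap.mkContinuous
    { toFun := fun x => ofNormedAddCommGroupDiscrete (fun h => if h = g then x else 0) ‖x‖
        fun h => by split_ifs <;> simp
      map_add' := fun x y => by
        ext h
        change (if h = g then x + y else 0) = (if h = g then x else 0) + (if h = g then y else 0)
        split_ifs <;> simp
      map_smul' := fun c x => by
        ext h
        change (if h = g then c • x else 0) = c • (if h = g then x else 0)
        split_ifs <;> simp } 1
    fun x => (BoundedContinuousFunction.norm_le (by positivity)).2 fun h => by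
      change ‖(if h = g then x else 0)‖ ≤ _
      split_ifs <;> simp

theorem spD_apply (g : ℕ) (x : E) (h : ℕ) : spD g x h = if h = g then x else 0 := rfl

theorem spD_lab (g : ℕ) {x : E} (hx : σ.Λ (cls (t.w g)) x = x) :
    spLab σ t ((0, spD g x) : SpBig V E) := fun h => by
  change σ.Λ _ (spD g x h) = spD g x h
  rw [spD_apply]
  split_ifs with c
  · rw [c, hx]
  · exact map_zero _

def spEe (ω : Om) : spY σ B t →L[ℂ] E :=
  (Sum.elim (fun i => (B.φ i).comp (ContinuousLinearMap.fst ℂ V (ℕ →ᵇ E))) spEv ω).comp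
    (spY σ B t).subtypeL

theorem spEe_le (ω : Om) (y : spY σ B t) : ‖spEe σ B t ω y‖ ≤ ‖y‖ := by
  rcases ω with i | g
  · exact (sp_φ_le B i _).trans (norm_fst_le (y : SpBig V E))
  · exact sp_snd_le (y : SpBig V E) g

def spPP (n : ℕ) : spY σ B t →L[ℂ] spY σ B t := spQ σ B t n (spY σ B t).subtypeL fun y => y.2.2

theorem spEe_Q (ω : Om) (n : ℕ) (y : spY σ B t) :
    spEe σ B t ω (spPP σ B t n y) = spE σ B t n ω y := by
  rcases ω with i | g <;> rfl

open Classical in
def spBD : BD 𝓖 S σ (spY σ B t) where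
  t := t
  e := spEe σ B t
  P := spPP σ B t
  M := B.K
  two_le := B.two_le
  e_norm ω := ContinuousLinearMap.opNorm_le_bound _ zero_le_one fun y => by
    rw [one_mul]; exact spEe_le σ B t ω y
  norming y c hc h := norm_prod_le_iff.2 ⟨B.norming _ c hc fun i => h (Sum.inl i),
    (BoundedContinuousFunction.norm_le hc).2 fun g => h (Sum.inr g)⟩
  P_norm n := ContinuousLinearMap.opNorm_le_bound _ (by linarith [B.two_le]) fun y =>
    spP_le σ B t n y
  P_comp n m y := Subtype.ext (spP_comp σ B t n m y)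
  P_tendsto y := tendsto_subtype_rng.2 y.2.1
  coord γ n y h := spF_lt σ B t h y
  rec_root γ y h := spF_root σ B t le_rfl h y
  rec_child γ ξ y h := by
    have hlt := t.par_lt γ ξ h
    have h1 := spF_child σ B t le_rfl h (y : SpBig V E)
    rw [min_eq_right (by omega), spF_lt σ B t hlt] at h1
    have h2 : ∀ k, bf (σ.θ (cls (t.w γ))) (spEe σ B t) (t.b γ) (spPP σ B t k y) =
        bf (σ.θ (cls (t.w γ))) (spE σ B t k) (t.b γ) (y : SpBig V E) := fun k =>
      bf_congr' fun q _ => spEe_Q σ B t q.1 k y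
    rw [map_sub, h2, h2]
    exact h1
  lab γ y := y.2.2 γ
  lsep y n ε h hε := by
    obtain ⟨N, hN⟩ := B.lsep (y : SpBig V E).1 n ε
      (congrArg (fun z : spY σ B t => (z : SpBig V E).1) h) hε
    exact ⟨N, fun i => (hN i).imp id fun g z hz =>
      g (z : SpBig V E).1 (congrArg (fun z : spY σ B t => (z : SpBig V E).1) hz)⟩
  split y s n W hs _ := by
    have hb : ∀ g, ‖(if g ∈ W then (y : SpBig V E).2 g else 0)‖ ≤ ‖y‖ := fun g => by
      split_ifs
      · exact sp_snd_le (y : SpBig V E) g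
      · simp
    have hl : spLab σ t ((0, ofNormedAddCommGroupDiscrete _ _ hb) : SpBig V E) := fun g => by
      change σ.Λ _ (if g ∈ W then (y : SpBig V E).2 g else 0) =
        if g ∈ W then (y : SpBig V E).2 g else 0
      split_ifs
      · exact y.2.2 g
      · exact map_zero _
    refine ⟨⟨_, spP_mem σ B t n hl⟩, Subtype.ext ?_, Subtype.ext ?_,
      ?_, fun γ h hW => ?_, fun γ h hW => ?_⟩
    · refine (spP_comp σ B t s n _).trans (spP_zero σ B t (map_zero _) fun g hg => ?_)
      have h1 : spF σ B t g s y = 0 := congrArg (fun z : spY σ B t => (z : SpBig V E).2 g) hs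
      rw [spF_lt σ B t (hg.trans_le (min_le_left _ _))] at h1
      change (if g ∈ W then (y : SpBig V E).2 g else 0) = 0
      rw [h1, ite_self]
    · refine (spP_comp σ B t n n _).trans ?_
      rw [min_self]
    · refine (spP_le σ B t n _).trans (mul_le_mul_of_nonneg_left ?_ (by linarith [B.two_le]))
      exact norm_prod_le_iff.2 ⟨by simp, (BoundedContinuousFunction.norm_le (norm_nonneg y)).2 hb⟩
    · exact (spF_lt σ B t h _).trans (if_pos hW)
    · exact (spF_lt σ B t h _).trans (if_neg hW)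
  unit γ x hx := by
    refine ⟨⟨_, spP_mem σ B t (γ + 1) (spD_lab σ t γ hx)⟩, Subtype.ext ?_, Subtype.ext ?_, ?_, ?_⟩
    · refine (spP_comp σ B t γ (γ + 1) _).trans (spP_zero σ B t (map_zero _) fun g hg => ?_)
      exact if_neg (by omega)
    · refine (spP_comp σ B t _ _ _).trans ?_
      rw [min_self]
    · refine (spP_le σ B t _ _).trans (mul_le_mul_of_nonneg_left ?_ (by linarith [B.two_le]))
      refine norm_prod_le_iff.2 ⟨by simp,
        (BoundedContinuousFunction.norm_le (norm_nonneg x)).2 fun g => ?_⟩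
      rw [spD_apply]
      split_ifs <;> simp
    · exact (spF_lt σ B t (Nat.lt_succ_self γ) _).trans (if_pos rfl)

def spI (n : ℕ) : V →L[ℂ] spY σ B t :=
  spQ σ B t n (ContinuousLinearMap.inl ℂ V (ℕ →ᵇ E)) fun _ _ => map_zero _

def spU (n g : ℕ) : E →L[ℂ] spY σ B t :=
  spQ σ B t n ((ContinuousLinearMap.inr ℂ V (ℕ →ᵇ E)).comp ((spD g).comp (σ.Λ (cls (t.w g)))))
    fun x => spD_lab σ t g (σ.Λ_Λ _ x)

theorem sp_compact (n : ℕ) (T : spY σ B t →L[ℂ] spY σ B t)
    (hT : ∀ γ, IsCompactOperator ((spEe σ B t (Sum.inr γ)).comp T)) :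
    IsCompactOperator ((spPP σ B t n - (spI σ B t n).comp
      ((ContinuousLinearMap.fst ℂ V (ℕ →ᵇ E)).comp (spY σ B t).subtypeL)).comp T) := by
  have h1 : spPP σ B t n - (spI σ B t n).comp
      ((ContinuousLinearMap.fst ℂ V (ℕ →ᵇ E)).comp (spY σ B t).subtypeL) =
      ∑ g ∈ Finset.range n, (spU σ B t n g).comp (spEe σ B t (Sum.inr g)) := by
    ext1 y
    rw [_root_.sum_apply]
    refine Subtype.ext ?_
    rw [Submodule.coe_sum]
    change spP σ B t n y - spP σ B t n ((y : SpBig V E).1, 0) = ∑ g ∈ Finset.range n,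
      spP σ B t n (0, spD g (σ.Λ (cls (t.w g)) ((y : SpBig V E).2 g)))
    rw [← map_sum, ← sub_eq_zero, ← map_sub, ← map_sub]
    refine spP_zero σ B t ?_ fun g hg => ?_
    · simp [Prod.fst_sum]
    · simp only [Prod.snd_sub, Prod.snd_sum, sub_zero, coe_sub, coe_sum,
        Pi.sub_apply, Finset.sum_apply, spD_apply, Finset.sum_ite_eq, Finset.mem_range, hg,
        if_true]
      rw [y.2.2 g, sub_self]
  rw [h1, ContinuousLinearMap.finsetSum_comp]
  refine (compactOperator (RingHom.id ℂ) (spY σ B t) (spY σ B t)).sum_mem fun g _ => ?_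
  exact (hT g).clm_comp (spU σ B t n g)

def spA (ρ : E →L[ℂ] E) : SpBig V E →L[ℂ] SpBig V E :=
  (ContinuousLinearMap.id ℂ V).prodMap (ρ.compLeftContinuousBounded ℕ)

theorem spF_A (hφ : ∀ i, B.φ i = 0) (ρ : E →L[ℂ] E)
    (hρ : ∀ a r x, ρ (σ.θ a r x) = σ.θ a r (ρ x)) (y : SpBig V E) (g : ℕ) :
    ∀ n, spF σ B t g n (spA ρ y) = ρ (spF σ B t g n y) := by
  induction g using Nat.strong_induction_on with
  | _ g ih =>
    intro n
    rcases lt_or_ge g n with h | h
    · rw [spF_lt σ B t h, spF_lt σ B t h]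
      rfl
    · rcases hp : t.par g with _ | ξ
      · rw [spF_root σ B t h hp, spF_root σ B t h hp, map_zero]
      · have hb : ∀ k, bf (σ.θ (cls (t.w g))) (spE σ B t k) (t.b g) (spA ρ y) =
            ρ (bf (σ.θ (cls (t.w g))) (spE σ B t k) (t.b g) y) := fun k => by
          apply bf_map _ ρ (hρ _)
          rintro ⟨i | η, r⟩ hω
          · change B.φ i _ = ρ (B.φ i _)
            simp [hφ]
          · exact ih η (t.par_supp g ξ hp η r hω) k
        rw [spF_child σ B t h hp, spF_child σ B t h hp, ih ξ (t.par_lt g ξ hp), hb, hb, map_add,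
          map_smul, map_sub]

def spLink : Link B (spBD σ B t) where
  π := (ContinuousLinearMap.fst ℂ V (ℕ →ᵇ E)).comp (spY σ B t).subtypeL
  ι := spI σ B t
  π_norm := ContinuousLinearMap.opNorm_le_bound _ zero_le_one fun y => by
    rw [one_mul]; exact norm_fst_le (y : SpBig V E)
  ι_norm n := ContinuousLinearMap.opNorm_le_bound _ (by linarith [(spBD σ B t).two_le]) fun v =>
    (spP_le σ B t n (v, 0)).trans (by simp [spBD])
  e_inl _ _ := rfl
  π_ι _ _ := rfl
  ι_R n v := by
    refine Subtype.ext ?_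
    change spP σ B t n (B.R n v, 0) = spP σ B t n (v, 0)
    rw [← sub_eq_zero, ← map_sub]
    refine spP_zero σ B t ?_ fun g _ => by simp
    simp [B.R_comp]
  P_ι n m v := Subtype.ext (spP_comp σ B t n m (v, 0))
  P_sub n T hT := sp_compact σ B t n T hT
  act hφ ρ h1 h2 := by
    have e : ∀ n y, spP σ B t n (spA ρ y) = spA ρ (spP σ B t n y) := fun n y =>
      Prod.ext rfl (by ext g; exact spF_A σ B t hφ ρ h1 y g n)
    refine ⟨((spA ρ).comp (spY σ B t).subtypeL).codRestrict _ fun y => ⟨?_, fun g => ?_⟩,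
      fun _ _ => rfl, fun n y => Subtype.ext (e n y)⟩
    · exact (((spA ρ).continuous.tendsto _).comp y.2.1).congr fun n => (e n y).symm
    · change σ.Λ _ (ρ ((y : SpBig V E).2 g)) = ρ ((y : SpBig V E).2 g)
      rw [← h2, y.2.2 g]

end

theorem exists_BD {𝓖 : ℕ → Fam} {S : Set ℕ} {V : Type u} [NormedAddCommGroup V] [NormedSpace ℂ V]
    [CompleteSpace V] {E : Type w} [NormedAddCommGroup E] [NormedSpace ℂ E] [CompleteSpace E]
    (σ : Val E) (B : Base E V) (t : Tree 𝓖 S) :
    ∃ (Y : Type (max u w)) (_ : NormedAddCommGroup Y) (_ : NormedSpace ℂ Y) (_ : CompleteSpace Y)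
      (s : BD 𝓖 S σ Y), Nonempty (Link B s) :=
  ⟨spY σ B t, inferInstance, inferInstance, (spY_closed σ B t).completeSpace_coe, spBD σ B t,
    ⟨spLink σ B t⟩⟩

end Pool.Agent.Lib.MP_2a83f9_an.H
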