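import Mathlib
import Pool.Agent.Lib.MP_2a83f9_an.H.Horiz
import Pool.Agent.Lib.MP_2a83f9_an.H.Sep
import Pool.Agent.Lib.MP_2a83f9_an.H.Space
import Pool.Agent.Lib.MP_2a83f9_an.H.TreeEx
import Pool.Agent.Lib.MP_2a83f9_an.H.Idem

set_option autoImplicit false

open Filter Topology

noncomputable section

namespace Pool.Agent.Lib.MP_2a83f9_an.H

universe u v w

theorem gf_map {Y : Type u} [NormedAddCommGroup Y] [NormedSpace ℂ Y] {E : Type w}
    [NormedAddCommGroup E] [NormedSpace ℂ E] {E' : Type v} [NormedAddCommGroup E']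
    [NormedSpace ℂ E'] (g : E →L[ℂ] E') (G : Om × ℕ → Y →L[ℂ] E) (c : Cmb) (y : Y) :
    g (gf G c y) = gf (fun q => g.comp (G q)) c y := by
  simp only [gf, sum_apply, map_sum, smul_apply, map_smul, ContinuousLinearMap.comp_apply]

theorem gf_congr {Y : Type u} [NormedAddCommGroup Y] [NormedSpace ℂ Y]
    {G G' : Om × ℕ → Y →L[ℂ] ℂ} (c : Cmb) {y y' : Y} {t : ℂ} (h : ∀ q, G q y = t * G' q y') :
    gf G c y = t * gf G' c y' := by
  simp only [gf, sum_apply, smul_apply, h, Finset.mul_sum, smul_eq_mul, mul_left_comm]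

theorem BD.e_root' {𝓖 : ℕ → Fam} {S : Set ℕ} {E : Type w} [NormedAddCommGroup E] [NormedSpace ℂ E]
    {σ : Val E} {Y : Type u} [NormedAddCommGroup Y] [NormedSpace ℂ Y] (s : BD 𝓖 S σ Y)
    {γ n : ℕ} (h : s.t.par γ = none) (hn : n ≤ γ) (y : Y) : s.e (Sum.inr γ) (s.P n y) = 0 :=
  s.e_root (fun ζ hζ => by
    rw [s.t.root_D γ h, Finset.mem_singleton] at hζ
    exact hζ ▸ hn) y

variable {B : Type u} [NormedRing B] [NormedAlgebra ℂ B]

/-- Composition of a functional with left multiplication. -/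
def preL (t : B) : (B →L[ℂ] ℂ) →L[ℂ] (B →L[ℂ] ℂ) :=
  (ContinuousLinearMap.compL ℂ B B ℂ).flip (ContinuousLinearMap.mul ℂ B t)

/-- Composition of a functional with right multiplication. -/
def preR (t : B) : (B →L[ℂ] ℂ) →L[ℂ] (B →L[ℂ] ℂ) :=
  (ContinuousLinearMap.compL ℂ B B ℂ).flip ((ContinuousLinearMap.mul ℂ B).flip t)

theorem preL_apply (t : B) (φ : B →L[ℂ] ℂ) (x : B) : preL t φ x = φ (t * x) := rfl

theorem preR_apply (t : B) (φ : B →L[ℂ] ℂ) (x : B) : preR t φ x = φ (x * t) := rfl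

theorem preL_le (t : B) (φ : B →L[ℂ] ℂ) : ‖preL t φ‖ ≤ ‖t‖ * ‖φ‖ :=
  ContinuousLinearMap.opNorm_le_bound _ (by positivity) fun x =>
    (φ.le_opNorm_of_le (norm_mul_le t x)).trans_eq (by ring)

theorem preR_le (t : B) (φ : B →L[ℂ] ℂ) : ‖preR t φ‖ ≤ ‖t‖ * ‖φ‖ :=
  ContinuousLinearMap.opNorm_le_bound _ (by positivity) fun x =>
    (φ.le_opNorm_of_le (norm_mul_le x t)).trans_eq (by ring)

/-- Composition of a functional with an operator. -/
def pre {A : Type v} [NormedAddCommGroup A] [NormedSpace ℂ A] {A' : Type w} [NormedAddCommGroup A']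
    [NormedSpace ℂ A'] (T : A →L[ℂ] A') : (A' →L[ℂ] ℂ) →L[ℂ] (A →L[ℂ] ℂ) :=
  (ContinuousLinearMap.compL ℂ A A' ℂ).flip T

/-- Evaluation of functionals at a point. -/
def evl (x : B) : (B →L[ℂ] ℂ) →L[ℂ] ℂ := ContinuousLinearMap.apply ℂ ℂ x

/-- The zero space as a base space. -/
def zeroBase (E : Type w) [NormedAddCommGroup E] [NormedSpace ℂ E] : Base E (Fin 0 → ℂ) where
  R _ := 0
  φ _ := 0
  K := 2
  two_le := le_rfl
  R_norm _ := by simp
  R_comp _ _ _ := rfl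
  φ_norm _ := by simp
  norming v c hc _ := by rwa [Subsingleton.elim v 0, norm_zero]
  lsep _ _ _ _ _ := ⟨0, fun _ => Or.inr fun _ _ => rfl⟩

/-- The space on which the algebra acts. -/
structure Inn {𝓖 : ℕ → Fam} (F : Pr B) {σ : Val (B →L[ℂ] ℂ)} {Z : Type u} [NormedAddCommGroup Z]
    [NormedSpace ℂ Z] (s : BD 𝓖 {a | a ≠ 0} σ Z) where
  act : B →L[ℂ] Z →L[ℂ] Z
  act_mul : ∀ b b' z, act (b * b') z = act b (act b' z)
  act_one : ∀ z, act 1 z = z
  act_le : ∀ b z, ‖act b z‖ ≤ ‖b‖ * ‖z‖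
  act_P : ∀ b n z, s.P n (act b z) = act b (s.P n z)
  cpt : ∀ n m, IsCompactOperator ((s.P m).comp (act (F.p n)))
  loc : ∀ n, Loc s (act.comp (Corner (F.p n)).subtypeL)
  loc_q : ∀ n, (loc n).q = act (F.p n)
  loc_a : ∀ n, (loc n).a = n + 1
  C : ℝ
  one_le : 1 ≤ C
  test : ∀ n x, ∃ y : ℕ → Z, RIS s y ∧ (∀ k, act (F.p n) (y k) = y k) ∧ (∀ k, ‖y k‖ ≤ C) ∧
    ∀ k, ‖F.p n * x * F.p n‖ ≤ C * ‖act (F.p n * x) (y k)‖

/-- The raw data of the construction. -/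
structure Raw {𝓖 : ℕ → Fam} (F : Pr B) {σ : Val (B →L[ℂ] ℂ)} {Z : Type u} [NormedAddCommGroup Z]
    [NormedSpace ℂ Z] (s : BD 𝓖 {a | a ≠ 0} σ Z) where
  K : ℝ
  K2 : 2 ≤ K
  hK : ∀ n, ‖F.p n‖ ≤ K
  T : ℕ → B
  hT : ∀ (g : B →L[ℂ] ℂ) (c : ℝ), (∀ r, ‖g (T r)‖ ≤ c) → ∀ A ∈ F.alg, ‖g A‖ ≤ c * ‖A‖
  t : ℕ → ℕ → B
  t0 : ∀ m, t m 0 = ((K⁻¹ : ℝ) : ℂ) • F.p m
  t1 : ∀ m r, t m (r + 1) = ((K⁻¹ : ℝ) : ℂ) • (T r * F.p m)
  tn : ∀ m r, ‖t m r‖ ≤ 1
  θ_eq : ∀ n r, σ.θ (n + 1) r = preL (t n r)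
  Λ_eq : ∀ a φ x, σ.Λ a φ x = φ (F.p (a - 1) * x)
  act : B →L[ℂ] Z →L[ℂ] Z
  a1 : ∀ ω b y x, s.e ω (act b y) x = s.e ω y (x * b)
  aP : ∀ b n z, s.P n (act b z) = act b (s.P n z)
  nrm : ∀ (y : Z) (c : ℝ), 0 ≤ c → (∀ γ, ‖s.e (Sum.inr γ) y‖ ≤ c) → ‖y‖ ≤ c
  cptP : ∀ m (A : Z →L[ℂ] Z), (∀ γ, IsCompactOperator ((s.e (Sum.inr γ)).comp A)) →
    IsCompactOperator ((s.P m).comp A)

theorem exists_raw (𝓖 : ℕ → Fam) (F : Pr B) :
    ∃ (σ : Val (B →L[ℂ] ℂ)) (Z : Type u) (_ : NormedAddCommGroup Z) (_ : NormedSpace ℂ Z)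
      (_ : CompleteSpace Z) (s : BD 𝓖 {a | a ≠ 0} σ Z), Nonempty (Raw F s) := by
  obtain ⟨K, K2, hK⟩ := F.exists_bound
  have K0 : 0 < K := by linarith
  obtain ⟨T, hT, hT'⟩ := F.exists_test
  set κ : ℂ := ((K⁻¹ : ℝ) : ℂ) with hκ
  have κn : ‖κ‖ = K⁻¹ := by rw [hκ, Complex.norm_real, Real.norm_of_nonneg (by positivity)]
  obtain ⟨t, t0, t1⟩ : ∃ t : ℕ → ℕ → B, (∀ m, t m 0 = κ • F.p m) ∧
      ∀ m r, t m (r + 1) = κ • (T r * F.p m) :=
    ⟨fun m r => Nat.casesOn r (κ • F.p m) fun r => κ • (T r * F.p m), fun _ => rfl, fun _ _ => rfl⟩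
  have tp : ∀ m r, t m r * F.p m = t m r := fun m r => by
    rcases r with _ | r
    · rw [t0, smul_mul_assoc, F.pp]
    · rw [t1, smul_mul_assoc, mul_assoc, F.pp]
  have tn : ∀ m r, ‖t m r‖ ≤ 1 := fun m r => by
    rcases r with _ | r
    · rw [t0, norm_smul, κn, inv_mul_le_iff₀ K0, mul_one]
      exact hK m
    · rw [t1, norm_smul, κn, inv_mul_le_iff₀ K0, mul_one]
      exact (norm_mul_le _ _).trans ((mul_le_of_le_one_left (norm_nonneg _) (hT r).2).trans (hK m))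
  let σ : Val (B →L[ℂ] ℂ) :=
    { θ := fun a r => preL (t (a - 1) r)
      Λ := fun a => preL (F.p (a - 1))
      θ_le := fun a r φ => (preL_le _ φ).trans (mul_le_of_le_one_left (norm_nonneg _) (tn _ _))
      Λ_θ := fun a r φ => by
        ext x
        rw [preL_apply, preL_apply, preL_apply, ← mul_assoc, tp]
      Λ_Λ := fun a φ => by
        ext x
        rw [preL_apply, preL_apply, preL_apply, ← mul_assoc, F.pp] }
  obtain ⟨tr⟩ := exists_tree 𝓖 (S := {a | a ≠ 0}) (a := 1) one_ne_zero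
  obtain ⟨Z, _, _, _, s, ⟨k⟩⟩ := exists_BD σ (zeroBase (B →L[ℂ] ℂ)) tr
  have el : ∀ i y, s.e (Sum.inl i) y = 0 := fun i y => k.e_inl i y
  have nrm : ∀ (y : Z) (c : ℝ), 0 ≤ c → (∀ γ, ‖s.e (Sum.inr γ) y‖ ≤ c) → ‖y‖ ≤ c :=
    fun y c hc h => s.norming y c hc fun ω => by
      rcases ω with i | γ
      · rwa [el, norm_zero]
      · exact h γ
  have ext : ∀ y y' : Z, (∀ γ x, s.e (Sum.inr γ) y x = s.e (Sum.inr γ) y' x) → y = y' :=
    fun y y' h => sub_eq_zero.1 (norm_le_zero_iff.1 (nrm _ 0 le_rfl fun γ => by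
      rw [map_sub, ContinuousLinearMap.ext (h γ), sub_self, norm_zero]))
  choose A A1 A2 using fun b : B => k.act (fun _ => rfl) (preR b)
    (fun a r φ => ContinuousLinearMap.ext fun x => congrArg φ (mul_assoc _ _ _).symm)
    fun a φ => ContinuousLinearMap.ext fun x => congrArg φ (mul_assoc _ _ _).symm
  have Ale : ∀ b z, ‖A b z‖ ≤ ‖b‖ * ‖z‖ := fun b z => nrm _ _ (by positivity) fun γ => by
    rw [A1]
    exact (preR_le _ _).trans (mul_le_mul_of_nonneg_left (s.e_le _ _) (norm_nonneg _))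
  obtain ⟨act, hact⟩ : ∃ act : B →L[ℂ] Z →L[ℂ] Z, ∀ b, act b = A b :=
    ⟨LinearMap.mkContinuous
      { toFun := A
        map_add' := fun b b' => ContinuousLinearMap.ext fun z => ext _ _ fun γ x => by
          simp only [add_apply, map_add, A1, preR_apply, mul_add]
        map_smul' := fun c b => ContinuousLinearMap.ext fun z => ext _ _ fun γ x => by
          simp only [smul_apply, map_smul, A1, preR_apply, mul_smul_comm, RingHom.id_apply] } 1
      fun b => by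
        rw [one_mul]
        exact ContinuousLinearMap.opNorm_le_bound _ (norm_nonneg _) (Ale b), fun _ => rfl⟩
  refine ⟨σ, Z, inferInstance, inferInstance, inferInstance, s,
    ⟨{ K := K
       K2 := K2
       hK := hK
       T := T
       hT := hT'
       t := t
       t0 := t0
       t1 := t1
       tn := tn
       θ_eq := fun _ _ => rfl
       Λ_eq := fun _ _ _ => rfl
       act := act
       a1 := fun ω b y x => ?_
       aP := fun b n z => hact b ▸ A2 b n z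
       nrm := nrm
       cptP := fun m A hA => ?_ }⟩⟩
  · rcases ω with i | γ
    · simp [el]
    · rw [hact, A1, preR_apply]
  · refine (congrArg IsCompactOperator (funext fun y => ?_)).mp (k.P_sub m A hA)
    change s.P m (A y) - k.ι m (k.π (A y)) = s.P m (A y)
    rw [Subsingleton.elim (k.π _) 0, map_zero, sub_zero]

namespace Raw

variable {𝓖 : ℕ → Fam} {F : Pr B} {σ : Val (B →L[ℂ] ℂ)} {Z : Type u} [NormedAddCommGroup Z]
  [NormedSpace ℂ Z] {s : BD 𝓖 {a | a ≠ 0} σ Z} (r : Raw F s)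

theorem K0 : 0 < r.K := by linarith [r.K2]

theorem tp (m i : ℕ) : r.t m i * F.p m = r.t m i := by
  rcases i with _ | i
  · rw [r.t0, smul_mul_assoc, F.pp]
  · rw [r.t1, smul_mul_assoc, mul_assoc, F.pp]

include r in
theorem ext (y y' : Z) (h : ∀ γ x, s.e (Sum.inr γ) y x = s.e (Sum.inr γ) y' x) : y = y' :=
  sub_eq_zero.1 (norm_le_zero_iff.1 (r.nrm _ 0 le_rfl fun γ => by
    rw [map_sub, ContinuousLinearMap.ext (h γ), sub_self, norm_zero]))

theorem amul (b b' : B) (z : Z) : r.act (b * b') z = r.act b (r.act b' z) :=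
  r.ext _ _ fun γ x => by rw [r.a1, r.a1, r.a1, mul_assoc]

theorem qe' (b : B) (γ : ℕ) (y : Z) :
    ‖s.e (Sum.inr γ) (r.act b y)‖ ≤ ‖b‖ * ‖s.e (Sum.inr γ) y‖ := by
  rw [show s.e (Sum.inr γ) (r.act b y) = preR b (s.e (Sum.inr γ) y) from
    ContinuousLinearMap.ext fun x => r.a1 _ _ _ _]
  exact preR_le _ _

theorem qe (b : B) : ∃ C : ℝ, ∀ γ y, ‖s.e (Sum.inr γ) (r.act b y)‖ ≤ C * ‖s.e (Sum.inr γ) y‖ :=
  ⟨_, r.qe' b⟩

theorem ale (b : B) (z : Z) : ‖r.act b z‖ ≤ ‖b‖ * ‖z‖ :=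
  r.nrm _ _ (by positivity) fun γ =>
    (r.qe' b γ z).trans (mul_le_mul_of_nonneg_left (s.e_le _ _) (norm_nonneg _))

include r in
theorem lab (γ : ℕ) (y : Z) (x : B) :
    s.e (Sum.inr γ) y (F.p (cls (s.t.w γ) - 1) * x) = s.e (Sum.inr γ) y x := by
  rw [← r.Λ_eq, s.lab]

theorem cpt1 (n γ : ℕ) : IsCompactOperator ((s.e (Sum.inr γ)).comp (r.act (F.p n))) := by
  set m := cls (s.t.w γ) - 1
  have := F.fin (max m n)
  have := FiniteDimensional.proper ℂ (Corner (F.p (max m n)) →L[ℂ] ℂ)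
  have h1 : IsCompactOperator (((pre (Corner (F.p (max m n))).subtypeL).comp
      (s.e (Sum.inr γ))).comp (r.act (F.p n))) :=
    isCompactOperator_of_locallyCompactSpace_dom _
  have h2 := h1.clm_comp (pre (F.cor (max m n)))
  refine (congrArg IsCompactOperator (funext fun y => ContinuousLinearMap.ext fun x => ?_)).mp h2
  change s.e (Sum.inr γ) (r.act (F.p n) y) (F.p (max m n) * x * F.p (max m n)) =
    s.e (Sum.inr γ) (r.act (F.p n) y) x
  rw [r.a1, r.a1, ← r.lab γ y (_ * _), ← r.lab γ y (x * _)]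
  simp only [mul_assoc, F.pp', F.p_p, min_eq_left (le_max_left m n),
    min_eq_right (le_max_right m n), m]

include r in
theorem unit (n : ℕ) : ∃ g : ℕ → ℕ, StrictMono g ∧ (∀ j, s.t.par (g j) = none) ∧
    (∀ j, j ≤ s.t.w (g j)) ∧ ∀ j (φ : B →L[ℂ] ℂ), (∀ x, φ (F.p n * x) = φ x) →
      ∃ y : Z, s.P (g j) y = 0 ∧ s.P (g j + 1) y = y ∧ ‖y‖ ≤ s.M * ‖φ‖ ∧
        s.e (Sum.inr (g j)) y = φ := by
  obtain ⟨g, g1, g2, g3, g4⟩ := exists_roots s.t (a := n + 1) (Nat.succ_ne_zero n)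
  exact ⟨g, g1, g2, g4, fun j φ hφ => s.unit (g j) φ (by
    rw [g3]
    exact ContinuousLinearMap.ext fun x => (r.Λ_eq _ _ _).trans (hφ x))⟩

/-- The test functionals. -/
def G (n : ℕ) (q : Om × ℕ) : Z →L[ℂ] ℂ :=
  ((evl (r.t n 0)).comp (preL (r.t n 0))).comp ((preL (r.t n q.2)).comp (s.e q.1))

theorem G_eq (n : ℕ) (q : Om × ℕ) (z : Z) :
    r.G n q z = ((r.K⁻¹ : ℝ) : ℂ) * ((r.K⁻¹ : ℝ) : ℂ) * s.e q.1 z (r.t n q.2) := by
  change s.e q.1 z (r.t n q.2 * (r.t n 0 * r.t n 0)) = _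
  rw [r.t0, smul_mul_smul_comm, F.pp, mul_smul_comm, r.tp, map_smul, smul_eq_mul]

theorem bf_eq (n : ℕ) (b : Cmb) :
    bf (σ.θ (n + 1)) s.e b = gf (fun q => (preL (r.t n q.2)).comp (s.e q.1)) b := by
  simp only [bf, r.θ_eq]

theorem G_low (n : ℕ) {w : Z} (w1 : r.act (F.p n) w = w) {u : ℝ} (hu : 0 ≤ u)
    (hw : ∀ q, ‖r.G n q w‖ ≤ u) : (r.K ^ 5)⁻¹ * ‖w‖ ≤ u := by
  have K0 := r.K0
  have κn : ‖((r.K⁻¹ : ℝ) : ℂ)‖ = r.K⁻¹ := by
    rw [Complex.norm_real, Real.norm_of_nonneg (by positivity)]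
  rw [inv_mul_le_iff₀ (by positivity)]
  refine r.nrm _ _ (by positivity) fun γ =>
    ContinuousLinearMap.opNorm_le_bound _ (by positivity) fun z => ?_
  have w2 := r.hT (s.e (Sum.inr γ) w) (r.K ^ 3 * u) (fun i => by
    have h1 := hw (Sum.inr γ, i + 1)
    rw [G_eq, r.t1, map_smul, ← r.a1, w1, smul_eq_mul, norm_mul, norm_mul, norm_mul, κn] at h1
    have h2 := mul_le_mul_of_nonneg_left h1 (show 0 ≤ r.K ^ 3 by positivity)
    refine le_trans (le_of_eq ?_) h2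
    field_simp) _ (F.two_mem (cls (s.t.w γ) - 1) n z)
  rw [mul_assoc (F.p _), r.lab, ← r.a1, w1] at w2
  have e3 : ‖F.p (cls (s.t.w γ) - 1) * (z * F.p n)‖ ≤ r.K * (‖z‖ * r.K) :=
    (norm_mul_le _ _).trans (mul_le_mul (r.hK _) ((norm_mul_le _ _).trans
      (mul_le_mul_of_nonneg_left (r.hK n) (norm_nonneg _))) (norm_nonneg _) K0.le)
  exact (w2.trans (mul_le_mul_of_nonneg_left e3 (by positivity))).trans (le_of_eq (by ring))

theorem bf_val (n : ℕ) (b : Cmb) {x : Z} (hx : r.act (F.p n) x = x) (z : B) :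
    bf (σ.θ (n + 1)) s.e b x z = (r.K * r.K : ℂ) * gf (r.G n) b (r.act (F.cor n z) x) := by
  have κK : (r.K : ℂ) * ((r.K⁻¹ : ℝ) : ℂ) = 1 := by
    rw [← Complex.ofReal_mul, mul_inv_cancel₀ r.K0.ne', Complex.ofReal_one]
  rw [r.bf_eq]
  refine (gf_map (evl z) _ b x).trans (gf_congr b fun q => ?_)
  change s.e q.1 x (r.t n q.2 * z) = _
  have h1 : s.e q.1 x (r.t n q.2 * z * F.p n) = s.e q.1 x (r.t n q.2 * z) := by
    rw [← r.a1 _ (F.p n), hx]
  rw [G_eq, r.a1, F.cor_coe, ← mul_assoc (r.t n q.2), ← mul_assoc (r.t n q.2), r.tp, h1,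
    ← mul_assoc, mul_mul_mul_comm, κK, one_mul, one_mul]

theorem sep (n : ℕ) (x y : Z) (hx : r.act (F.p n) x = x) (hy : r.act (F.p n) y = y) (δ η : ℝ)
    (hδ : 0 < δ) (hη : 0 < η)
    (h : ∀ f, δ ≤ ‖y - (r.act.comp (Corner (F.p n)).subtypeL) f x‖) :
    ∃ b : Cmb, bsum b ≤ 1 ∧ ‖bf (σ.θ (n + 1)) s.e b x‖ ≤ η ∧ (r.K ^ 5)⁻¹ / 2 * δ ≤
      (evl (r.t n 0) (σ.θ (n + 1) 0 (bf (σ.θ (n + 1)) s.e b y))).re := by
  have := F.fin n
  have K0 := r.K0
  obtain ⟨X, hX⟩ : ∃ X : Corner (F.p n) →L[ℂ] Z, ∀ f, X f = r.act f x :=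
    ⟨(r.act.comp (Corner (F.p n)).subtypeL).flip x, fun _ => rfl⟩
  obtain ⟨b, b1, b2, b3⟩ := sep_gen (r.G n) X y
    (κ := (r.K ^ 5)⁻¹) (ε := η / r.K ^ 4) (by positivity) hδ (by positivity)
    (fun f β u hu hw => r.G_low n (by
      rw [map_add, map_smul, hy, hX, ← r.amul, F.p_cor]) hu hw) fun f => hX f ▸ h f
  refine ⟨b, b1, ContinuousLinearMap.opNorm_le_bound _ hη.le fun z => ?_, ?_⟩
  · have e2 := ((gf (r.G n) b).comp X).le_of_opNorm_le b2 (F.cor n z)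
    have e3 : ‖F.cor n z‖ ≤ r.K * ‖z‖ * r.K :=
      (norm_mul_le (F.p n * z) (F.p n)).trans (mul_le_mul ((norm_mul_le _ _).trans
        (mul_le_mul_of_nonneg_right (r.hK n) (norm_nonneg _))) (r.hK n) (norm_nonneg _)
        (by positivity))
    rw [ContinuousLinearMap.comp_apply, hX] at e2
    rw [r.bf_val n b hx, norm_mul, norm_mul, Complex.norm_real, Real.norm_of_nonneg K0.le]
    refine (mul_le_mul_of_nonneg_left (e2.trans (mul_le_mul_of_nonneg_left e3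
      (by positivity))) (by positivity)).trans (le_of_eq ?_)
    field_simp
  · rw [r.bf_eq, r.θ_eq]
    refine b3.trans (le_of_eq (congrArg Complex.re ?_))
    exact (gf_map ((evl (r.t n 0)).comp (preL (r.t n 0))) _ b y).symm

theorem free (n : ℕ) : ∃ (y : ℕ → Z) (c : ℝ), RIS s y ∧ (∀ k, r.act (F.p n) (y k) = y k) ∧ 0 ≤ c ∧
    ∀ k f, ‖f‖ ≤ c * ‖(r.act.comp (Corner (F.p n)).subtypeL) f (y k)‖ := by
  have K0 := r.K0
  have := F.fin n
  obtain ⟨g, g1, g2, g4, hu⟩ := r.unit n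
  set d := Module.finrank ℂ (Corner (F.p n))
  let β := Module.finBasis ℂ (Corner (F.p n))
  let φ : Fin d → B →L[ℂ] ℂ := fun i =>
    (LinearMap.toContinuousLinearMap (β.coord i)).comp (F.cor n)
  have φ1 : ∀ i x, φ i (F.p n * x) = φ i x := fun i x =>
    congrArg (β.coord i) (show F.cor n (F.p n * x) = F.cor n x from
      Subtype.ext (by rw [F.cor_coe, F.cor_coe, F.pp', min_self]))
  choose u u1 u2 u3 u4 using fun (j : ℕ) (i : Fin d) => hu (j * d + i) (φ i) (φ1 i)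
  have hle : ∀ (j : ℕ) (i : Fin d), j ≤ j * d + i := fun j i =>
    (Nat.le_mul_of_pos_right j (Fin.pos i)).trans (Nat.le_add_right _ _)
  have r1 : RIS s fun j => ∑ i, u j i := RIS.sum Finset.univ (x := fun i j => u j i) fun i =>
    ris_of_unit s (g := fun j => g (j * d + i)) (fun j => (hle j i).trans g1.le_apply)
      (fun j => (hle j i).trans (g4 _)) (fun j => u1 j i) (fun j => u2 j i) fun j => u3 j i
  refine ⟨fun j => r.act (F.p n) (∑ i, u j i), (∑ i, ‖β i‖) * r.K, r1.map _ (r.aP _) (r.qe _),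
    fun j => by rw [← r.amul, F.pp], by positivity, fun j f => ?_⟩
  have e1 : ∀ i : Fin d, s.e (Sum.inr (g (j * d + i))) (∑ i, u j i) = φ i := fun i => by
    rw [map_sum, Finset.sum_eq_single i (fun i' _ h => ?_) (by simp), u4]
    rcases lt_or_gt_of_ne h with c | c
    · rw [← u2 j i']
      exact s.e_root' (g2 _) (g1 (Nat.add_lt_add_left c _)) _
    · exact s.e_zero (g1 (Nat.add_lt_add_left c _)) (u1 j i')
  have e2 : ∀ i, ‖β.repr f i‖ ≤ r.K * ‖r.act f (r.act (F.p n) (∑ i, u j i))‖ := fun i => by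
    have h1 := (s.e (Sum.inr (g (j * d + i))) (r.act f (r.act (F.p n) (∑ i, u j i)))).le_opNorm
      (F.p n)
    rw [r.a1, r.a1, e1, ← F.cor_coe] at h1
    have h2 : φ i (F.cor n f) = β.repr f i := by
      change β.coord i (F.cor n (F.cor n f)) = _
      rw [F.cor_self, F.cor_self]
      rfl
    rw [h2, mul_comm] at h1
    exact h1.trans (mul_le_mul (r.hK n) (s.e_le _ _) (norm_nonneg _) K0.le)
  calc ‖f‖ = ‖∑ i, β.repr f i • β i‖ := by rw [β.sum_repr]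
    _ ≤ ∑ i, ‖β i‖ * (r.K * ‖r.act f (r.act (F.p n) (∑ i, u j i))‖) :=
      (norm_sum_le _ _).trans (Finset.sum_le_sum fun i _ => by
        rw [norm_smul, mul_comm]
        exact mul_le_mul_of_nonneg_left (e2 i) (norm_nonneg _))
    _ = _ := by
      rw [← Finset.sum_mul, mul_assoc]
      rfl

theorem one_le : 1 ≤ s.M * (r.K * r.K) :=
  one_le_mul_of_one_le_of_one_le (by linarith [s.two_le])
    (one_le_mul_of_one_le_of_one_le (by linarith [r.K2]) (by linarith [r.K2]))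

theorem test (n : ℕ) (x : B) : ∃ y : ℕ → Z, RIS s y ∧ (∀ k, r.act (F.p n) (y k) = y k) ∧
    (∀ k, ‖y k‖ ≤ r.K * (s.M * (r.K * r.K))) ∧ ∀ k, ‖F.p n * x * F.p n‖ ≤
      r.K * (s.M * (r.K * r.K)) * ‖r.act (F.p n * x) (y k)‖ := by
  have K0 := r.K0
  have M2 := s.two_le
  obtain ⟨g, g1, g2, g4, hu⟩ := r.unit n
  obtain ⟨G, G1, G2⟩ := exists_dual_vector'' ℂ (F.p n * x * F.p n)
  let φ : B →L[ℂ] ℂ := G.comp (ContinuousLinearMap.mulLeftRight ℂ B (F.p n) (F.p n))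
  have φ0 : ∀ z, φ z = G (F.p n * z * F.p n) := fun _ => rfl
  have φ2 : ‖φ‖ ≤ r.K * r.K := ContinuousLinearMap.opNorm_le_bound _ (by positivity) fun z => by
    rw [φ0, mul_right_comm r.K]
    exact (G.le_of_opNorm_le G1 _).trans ((one_mul _).trans_le ((norm_mul_le _ _).trans
      (mul_le_mul ((norm_mul_le _ _).trans (mul_le_mul_of_nonneg_right (r.hK n) (norm_nonneg _)))
        (r.hK n) (norm_nonneg _) (by positivity))))
  choose u u1 u2 u3 u4 using fun j => hu j φ fun z => by rw [φ0, φ0, F.pp', min_self]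
  have u5 : ∀ j, ‖u j‖ ≤ s.M * (r.K * r.K) := fun j =>
    (u3 j).trans (mul_le_mul_of_nonneg_left φ2 (by linarith))
  refine ⟨fun j => r.act (F.p n) (u j),
    (ris_of_unit s (fun j => g1.le_apply) g4 u1 u2 u5).map _ (r.aP _) (r.qe _),
    fun j => by rw [← r.amul, F.pp],
    fun j => (r.ale _ _).trans (mul_le_mul (r.hK n) (u5 j) (norm_nonneg _) K0.le), fun j => ?_⟩
  have h1 := (s.e (Sum.inr (g j)) (r.act (F.p n * x) (r.act (F.p n) (u j)))).le_opNorm (F.p n)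
  rw [r.a1, r.a1, u4, φ0] at h1
  simp only [mul_assoc, F.pp', F.pp, min_self] at h1 G2
  rw [G2, RCLike.norm_ofReal, abs_norm, mul_comm] at h1
  rw [mul_assoc (F.p n)]
  refine h1.trans (mul_le_mul ((r.hK n).trans ?_) (s.e_le _ _) (norm_nonneg _) (by positivity))
  exact le_mul_of_one_le_right K0.le r.one_le

end Raw

theorem exists_inner (𝓖 : ℕ → Fam) (F : Pr B) :
    ∃ (σ : Val (B →L[ℂ] ℂ)) (Z : Type u) (_ : NormedAddCommGroup Z) (_ : NormedSpace ℂ Z)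
      (_ : CompleteSpace Z) (s : BD 𝓖 {a | a ≠ 0} σ Z), Nonempty (Inn F s) := by
  obtain ⟨σ, Z, _, _, _, s, ⟨r⟩⟩ := exists_raw 𝓖 F
  have K0 := r.K0
  exact ⟨σ, Z, inferInstance, inferInstance, inferInstance, s,
    ⟨{ act := r.act
       act_mul := r.amul
       act_one := fun z => r.ext _ _ fun γ x => by rw [r.a1, mul_one]
       act_le := r.ale
       act_P := r.aP
       cpt := fun n m => r.cptP m _ (r.cpt1 n)
       loc := fun n =>
        { q := r.act (F.p n)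
          a := n + 1
          mem := Nat.succ_ne_zero n
          ε := evl (r.t n 0)
          ε_le := fun φ => (φ.le_opNorm_of_le (r.tn n 0)).trans_eq (mul_one _)
          κ := (r.K ^ 5)⁻¹ / 2
          κ_pos := by positivity
          sep := r.sep n
          q_q := fun y => by rw [← r.amul, F.pp]
          q_P := fun m y => r.aP _ m y
          q_e := r.qe _
          α_q := fun f y => (r.amul _ _ _).symm.trans (congrArg (fun b => r.act b y) (F.cor_p n f))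
          q_α := fun f y => (r.amul _ _ _).symm.trans (congrArg (fun b => r.act b y) (F.p_cor n f))
          α_P := fun f m y => r.aP _ m y
          cpt := r.cpt1 n
          free := r.free n }
       loc_q := fun _ => rfl
       loc_a := fun _ => rfl
       C := r.K * (s.M * (r.K * r.K))
       one_le := one_le_mul_of_one_le_of_one_le (by linarith [r.K2]) r.one_le
       test := r.test }⟩⟩

end Pool.Agent.Lib.MP_2a83f9_an.H
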