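import Mathlib
import Pool.Agent.Lib.MP_2a83f9_an.H.Inner

set_option autoImplicit false

open Filter Topology BoundedContinuousFunction

noncomputable section

namespace Pool.Agent.Lib.MP_2a83f9_an.H

universe u v w

theorem cpt_sep {E : Type v} {E' : Type w} [NormedAddCommGroup E] [NormedSpace ℂ E]
    [NormedAddCommGroup E'] [NormedSpace ℂ E'] {A : E →L[ℂ] E'} (h : IsCompactOperator A) :
    TopologicalSpace.IsSeparable (Set.range A) := by
  choose S hS hS' using fun n : ℕ => h.image_closedBall_subset_compact (f := (A : E →ₗ[ℂ] E')) n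
  refine (TopologicalSpace.IsSeparable.iUnion fun n => (hS n).isSeparable).mono ?_
  rintro _ ⟨x, rfl⟩
  obtain ⟨n, hn⟩ := exists_nat_ge ‖x‖
  exact Set.mem_iUnion.2 ⟨n, hS' n ⟨x, mem_closedBall_zero_iff.2 hn, rfl⟩⟩

/-- A bounded sequence of operators as one operator. -/
def bcf {E : Type v} {E' : Type w} [NormedAddCommGroup E] [NormedSpace ℂ E]
    [NormedAddCommGroup E'] [NormedSpace ℂ E'] (T : ℕ → E →L[ℂ] E') {C : ℝ} (C0 : 0 ≤ C)
    (h : ∀ m x, ‖T m x‖ ≤ C * ‖x‖) : E →L[ℂ] (ℕ →ᵇ E') :=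
  LinearMap.mkContinuous
    { toFun := fun x => ofNormedAddCommGroupDiscrete (fun m => T m x) (C * ‖x‖) fun m => h m x
      map_add' := fun x y => by ext m; simp
      map_smul' := fun c x => by ext m; simp } C
    fun x => (BoundedContinuousFunction.norm_le (by positivity)).2 fun m => h m x

variable {B : Type u} [NormedRing B] [NormedAlgebra ℂ B] {𝓖 : ℕ → Fam} {F : Pr B}
  {σ : Val (B →L[ℂ] ℂ)} {Z : Type u} [NormedAddCommGroup Z] [NormedSpace ℂ Z]
  {s₀ : BD 𝓖 {a | a ≠ 0} σ Z}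

theorem Inn.pp (τ : Inn F s₀) (n m : ℕ) (z : Z) :
    τ.act (F.p n) (τ.act (F.p m) z) = τ.act (F.p (min n m)) z := by
  rw [← τ.act_mul, F.p_p]

theorem Inn.sep (τ : Inn F s₀) (n : ℕ) :
    TopologicalSpace.IsSeparable (Set.range (τ.act (F.p n))) := by
  refine (TopologicalSpace.IsSeparable.iUnion fun m => cpt_sep (τ.cpt n m)).closure.mono ?_
  rintro _ ⟨z, rfl⟩
  exact mem_closure_of_tendsto (s₀.P_tendsto _)
    (Eventually.of_forall fun m => Set.mem_iUnion.2 ⟨m, z, rfl⟩)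

/-- The link between the base space and the space on which the algebra acts. -/
structure Ten (τ : Inn F s₀) {V : Type u} [NormedAddCommGroup V] [NormedSpace ℂ V]
    (D : Base ℂ V) where
  Sg : ℕ → V →L[ℂ] Z
  J : ℕ → Z →L[ℂ] V
  C : ℝ
  one_le : 1 ≤ C
  R_eq : ∀ n v, D.R n v = J n (Sg n v)
  Sg_J : ∀ m n z, Sg m (J n z) = τ.act (F.p (min m n)) z
  p_Sg : ∀ n m v, n ≤ m → τ.act (F.p n) (Sg m v) = Sg n v
  J_p : ∀ n m z, n ≤ m → J m (τ.act (F.p n) z) = J n z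
  J_le : ∀ n z, ‖J n z‖ ≤ C * ‖z‖
  Sg_le : ∀ n v, ‖Sg n v - s₀.P n (Sg n v)‖ ≤ ‖v‖

/-- The levels of an element of the big space. -/
def vS (m : ℕ) : ((ℕ →ᵇ Z) × (ℕ →ᵇ Z)) →L[ℂ] Z :=
  ((m : ℂ) + 1) • (BoundedContinuousFunction.evalCLM ℂ m).comp (ContinuousLinearMap.fst ℂ _ _)

theorem vS_apply (m : ℕ) (y : (ℕ →ᵇ Z) × (ℕ →ᵇ Z)) : vS m y = ((m : ℂ) + 1) • y.1 m := rfl

/-- The base space. -/
def vSp (τ : Inn F s₀) : Submodule ℂ ((ℕ →ᵇ Z) × (ℕ →ᵇ Z)) where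
  carrier := {y | ∀ m, y.2 m = vS m y - s₀.P m (vS m y) ∧ τ.act (F.p m) (vS (m + 1) y) = vS m y}
  add_mem' := fun {y z} hy hz m => ⟨by
    change y.2 m + z.2 m = _
    rw [(hy m).1, (hz m).1, map_add, map_add]
    abel, by rw [map_add, map_add, map_add, (hy m).2, (hz m).2]⟩
  zero_mem' := fun m => by simp
  smul_mem' := fun c y hy m => ⟨by
    change c • y.2 m = _
    rw [(hy m).1, map_smul, map_smul, smul_sub], by rw [map_smul, map_smul, map_smul, (hy m).2]⟩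

theorem vSp_closed (τ : Inn F s₀) : IsClosed (vSp τ : Set ((ℕ →ᵇ Z) × (ℕ →ᵇ Z))) := by
  refine isClosed_of_closure_subset fun y hy m => ⟨?_, ?_⟩
  · exact closure_minimal (fun z hz => (hz m).1) (isClosed_eq
      ((BoundedContinuousFunction.evalCLM ℂ m).comp (ContinuousLinearMap.snd ℂ _ _)).continuous
      (vS m - (s₀.P m).comp (vS m)).continuous) hy
  · exact closure_minimal (fun z hz => (hz m).2)
      (isClosed_eq ((τ.act (F.p m)).comp (vS (m + 1))).continuous (vS m).continuous) hy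

theorem nat_inv_le (m : ℕ) (z : Z) {n : ℕ} (h : n ≤ m) :
    ‖((m : ℂ) + 1)⁻¹ • z‖ ≤ ‖((n : ℂ) + 1)⁻¹ • z‖ := by
  rw [norm_smul, norm_smul, norm_inv, norm_inv, ← Nat.cast_succ, ← Nat.cast_succ,
    Complex.norm_natCast, Complex.norm_natCast]
  gcongr

theorem exists_V [CompleteSpace Z] (τ : Inn F s₀) :
    ∃ (V : Type u) (_ : NormedAddCommGroup V) (_ : NormedSpace ℂ V) (_ : CompleteSpace V)
      (Sg : ℕ → V →L[ℂ] Z) (J : ℕ → Z →L[ℂ] V),
      (∀ m n z, Sg m (J n z) = τ.act (F.p (min m n)) z) ∧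
      (∀ m v, τ.act (F.p m) (Sg (m + 1) v) = Sg m v) ∧
      (∀ (v : V) (c : ℝ), 0 ≤ c → (∀ m : ℕ, ‖((m : ℂ) + 1)⁻¹ • Sg m v‖ ≤ c) →
        (∀ m, ‖Sg m v - s₀.P m (Sg m v)‖ ≤ c) → ‖v‖ ≤ c) ∧
      (∀ (m : ℕ) v, ‖((m : ℂ) + 1)⁻¹ • Sg m v‖ ≤ ‖v‖) ∧
      ∀ m v, ‖Sg m v - s₀.P m (Sg m v)‖ ≤ ‖v‖ := by
  obtain ⟨K, K2, hK⟩ := F.exists_bound
  have M2 := s₀.two_le
  have hm : ∀ m : ℕ, (m : ℂ) + 1 ≠ 0 := fun m => Nat.cast_add_one_ne_zero m
  have h0 : ∀ m z, ‖τ.act (F.p m) z‖ ≤ K * ‖z‖ := fun m z =>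
    (τ.act_le _ _).trans (mul_le_mul_of_nonneg_right (hK m) (norm_nonneg _))
  have h1 : ∀ n (m : ℕ) z, ‖(((m : ℂ) + 1)⁻¹ • τ.act (F.p (min m n))) z‖ ≤ K * ‖z‖ := fun n m z =>
    (nat_inv_le m _ (Nat.zero_le m)).trans (by simpa using h0 _ z)
  have h2 : ∀ n m z, ‖((1 - s₀.P m).comp (τ.act (F.p (min m n)))) z‖ ≤ (1 + s₀.M) * K * ‖z‖ :=
    fun n m z => (s₀.Q_le m _).trans (by
      rw [mul_assoc]
      exact mul_le_mul_of_nonneg_left (h0 _ z) (by linarith))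
  let j : ℕ → Z →L[ℂ] (ℕ →ᵇ Z) × (ℕ →ᵇ Z) := fun n =>
    (bcf _ (by linarith) (h1 n)).prod (bcf _ (by positivity) (h2 n))
  have j1 : ∀ m n z, vS m (j n z) = τ.act (F.p (min m n)) z := fun m n z =>
    smul_inv_smul₀ (hm m) _
  have j2 : ∀ n z, j n z ∈ vSp τ := fun n z m => ⟨by rw [j1]; rfl, by
    rw [j1, j1, τ.pp, ← min_assoc, min_eq_left (Nat.le_succ m)]⟩
  have e1 : ∀ (m : ℕ) (y : (ℕ →ᵇ Z) × (ℕ →ᵇ Z)), ((m : ℂ) + 1)⁻¹ • vS m y = y.1 m := fun m y =>
    inv_smul_smul₀ (hm m) _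
  refine ⟨vSp τ, inferInstance, inferInstance, (vSp_closed τ).completeSpace_coe,
    fun m => (vS m).comp (vSp τ).subtypeL, fun n => (j n).codRestrict _ (j2 n), j1,
    fun m v => (v.2 m).2, fun v c hc g1 g2 => ?_, fun m v => ?_, fun m v => ?_⟩
  · refine norm_prod_le_iff.2 ⟨(BoundedContinuousFunction.norm_le hc).2 fun m => ?_,
      (BoundedContinuousFunction.norm_le hc).2 fun m => ?_⟩
    · exact (congrArg norm (e1 m v)).symm.trans_le (g1 m)
    · exact (congrArg norm (v.2 m).1).trans_le (g2 m)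
  · exact (congrArg norm (e1 m v)).trans_le (((v : (ℕ →ᵇ Z) × (ℕ →ᵇ Z)).1.norm_coe_le_norm m).trans
      (norm_fst_le (v : (ℕ →ᵇ Z) × (ℕ →ᵇ Z))))
  · exact (congrArg norm (v.2 m).1).symm.trans_le
      (((v : (ℕ →ᵇ Z) × (ℕ →ᵇ Z)).2.norm_coe_le_norm m).trans
        (norm_snd_le (v : (ℕ →ᵇ Z) × (ℕ →ᵇ Z))))

theorem exists_ten [CompleteSpace Z] (τ : Inn F s₀) :
    ∃ (V : Type u) (_ : NormedAddCommGroup V) (_ : NormedSpace ℂ V) (_ : CompleteSpace V)
      (D : Base ℂ V), Nonempty (Ten τ D) := by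
  obtain ⟨V, _, _, _, Sg, J, v1, v2, v3, v4, v5⟩ := exists_V τ
  obtain ⟨K, K2, hK⟩ := F.exists_bound
  have M2 := s₀.two_le
  have h0 : ∀ m z, ‖τ.act (F.p m) z‖ ≤ K * ‖z‖ := fun m z =>
    (τ.act_le _ _).trans (mul_le_mul_of_nonneg_right (hK m) (norm_nonneg _))
  have pS : ∀ n m v, n ≤ m → τ.act (F.p n) (Sg m v) = Sg n v := fun n m v h => by
    induction m, h using Nat.le_induction with
    | base => rw [← v2, τ.pp, min_self]
    | succ m h ih => rw [← ih, ← v2 m, τ.pp, min_eq_left h]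
  have ext : ∀ v v' : V, (∀ m, Sg m v = Sg m v') → v = v' := fun v v' h =>
    sub_eq_zero.1 (norm_le_zero_iff.1 (v3 _ 0 le_rfl (fun m => by simp [h]) fun m => by simp [h]))
  have SR : ∀ m n v, Sg m (J n (Sg n v)) = Sg (min m n) v := fun m n v => by
    rw [v1, pS _ _ _ (min_le_right m n)]
  obtain ⟨X, X1, X2⟩ : ∃ X : Bool → ℕ → Z →L[ℂ] Z, (∀ m z, X true m z = ((m : ℂ) + 1)⁻¹ • z) ∧
      ∀ m z, X false m z = z - s₀.P m z :=
    ⟨fun c m => Bool.casesOn c (1 - s₀.P m) (((m : ℂ) + 1)⁻¹ • 1), fun _ _ => rfl, fun _ _ => rfl⟩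
  have X3 : ∀ c m v, ‖X c m (Sg m v)‖ ≤ ‖v‖ := fun c m v => by
    rcases c with _ | _
    · rw [X2]
      exact v5 m v
    · rw [X1]
      exact v4 m v
  have X4 : ∀ c m v, X c m (Sg m v) ∈ ⋃ n, Set.range (τ.act (F.p n)) := fun c m v => by
    refine Set.mem_iUnion.2 ⟨m, X c m (Sg m v), ?_⟩
    rcases c with _ | _
    · rw [X2, map_sub, ← τ.act_P, pS _ _ _ le_rfl]
    · rw [X1, map_smul, pS _ _ _ le_rfl]
  have X5 : ∀ c z, Tendsto (fun m => X c m z) atTop (𝓝 0) := fun c z => by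
    rcases c with _ | _
    · simpa [X2] using (s₀.P_tendsto z).const_sub z
    · have := (tendsto_one_div_add_atTop_nhds_zero_nat (𝕜 := ℂ)).smul_const z
      simpa [X1] using this
  obtain ⟨G, G1, G2⟩ := exists_norming (TopologicalSpace.IsSeparable.iUnion τ.sep)
  obtain ⟨d, hd⟩ := exists_surjective_nat (Bool × ℕ × ℕ)
  have G3 : ∀ r z, ‖G r z‖ ≤ ‖z‖ := fun r z => by simpa using (G r).le_of_opNorm_le (G1 r) z
  refine ⟨V, inferInstance, inferInstance, inferInstance,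
    { R := fun n => (J n).comp (Sg n)
      φ := fun i => (G (d i).2.2).comp ((X (d i).1 (d i).2.1).comp (Sg (d i).2.1))
      K := 1 + s₀.M
      two_le := by linarith
      R_norm := fun n => ContinuousLinearMap.opNorm_le_bound _ (by linarith) fun v => ?_
      R_comp := fun n m v => ext _ _ fun k => ?_
      φ_norm := fun i => ContinuousLinearMap.opNorm_le_bound _ zero_le_one fun v =>
        (G3 _ _).trans ((X3 _ _ v).trans_eq (one_mul _).symm)
      norming := fun v c hc h => ?_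
      lsep := fun v n ε hv hε => ?_ },
    ⟨{ Sg := Sg
       J := J
       C := (1 + s₀.M) * K
       one_le := by nlinarith
       R_eq := fun _ _ => rfl
       Sg_J := v1
       p_Sg := pS
       J_p := fun n m z h => ext _ _ fun k => by
        rw [v1, v1, τ.pp, min_assoc, min_eq_right h]
       J_le := fun n z => v3 _ _ (by positivity) (fun m => ?_) fun m => ?_
       Sg_le := v5 }⟩⟩
  · have n0 := norm_nonneg v
    refine v3 _ _ (by positivity) (fun m => ?_) fun m => ?_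
    · rw [ContinuousLinearMap.comp_apply, SR]
      exact (nat_inv_le m _ (min_le_left m n)).trans ((v4 _ v).trans (by nlinarith))
    · rw [ContinuousLinearMap.comp_apply, SR]
      have h1 := s₀.Q_le m (Sg (min m n) v - s₀.P (min m n) (Sg (min m n) v))
      rw [map_sub, s₀.P_comp, min_eq_right (min_le_left m n), sub_sub_sub_cancel_right] at h1
      exact h1.trans (mul_le_mul_of_nonneg_left (v5 _ v) (by linarith))
  · change Sg k (J n (Sg n (J m (Sg m v)))) = Sg k (J (min n m) (Sg (min n m) v))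
    rw [SR k n, SR, SR, min_assoc]
  · have h1 : ∀ b m, ‖X b m (Sg m v)‖ ≤ c := fun b m => G2 _ (X4 b m v) c fun r => by
      obtain ⟨i, hi⟩ := hd (b, m, r)
      simpa only [hi, ContinuousLinearMap.comp_apply] using h i
    exact v3 v c hc (fun m => X1 m _ ▸ h1 true m) fun m => X2 m _ ▸ h1 false m
  · obtain ⟨N, hN⟩ := eventually_atTop.1 (((ev_small (X5 true (Sg n v)) hε).and
      (ev_small (X5 false (Sg n v)) hε)).and (eventually_ge_atTop n))
    refine ⟨N, fun i => ?_⟩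
    rcases le_total N (d i).2.1 with c | c
    · refine Or.inl ((G3 _ _).trans ?_)
      obtain ⟨⟨a1, a2⟩, a3⟩ := hN _ c
      change ‖X (d i).1 (d i).2.1 (Sg (d i).2.1 v)‖ ≤ ε
      rw [← hv, ContinuousLinearMap.comp_apply, SR, min_eq_right a3]
      rcases (d i).1 with _ | _
      exacts [a2, a1]
    · refine Or.inr fun z hz => ?_
      have h1 := SR (d i).2.1 N z
      rw [min_eq_left c, show J N (Sg N z) = 0 from hz, map_zero] at h1
      simp only [ContinuousLinearMap.comp_apply, ← h1, map_zero]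
  · have n0 := norm_nonneg z
    rw [v1]
    refine (nat_inv_le m _ (Nat.zero_le m)).trans ?_
    have := h0 (min m n) z
    simp only [Nat.cast_zero, zero_add, inv_one, one_smul]
    nlinarith [mul_nonneg (show 0 ≤ K by linarith) n0]
  · rw [v1, mul_assoc]
    exact (s₀.Q_le m _).trans (mul_le_mul_of_nonneg_left (h0 _ z) (by linarith))

end Pool.Agent.Lib.MP_2a83f9_an.H
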