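import Mathlib
import Pool.Agent.Lib.MP_2a83f9_an.H.Core
import Pool.Agent.Lib.MP_2a83f9_an.H.Ten

set_option autoImplicit false

open Filter Topology

noncomputable section

namespace Pool.Agent.Lib.MP_2a83f9_an.H

universe u v w

section Eqc

variable {E F G : Type*} [NormedAddCommGroup E] [NormedSpace ℂ E] [NormedAddCommGroup F]
  [NormedSpace ℂ F] [NormedAddCommGroup G] [NormedSpace ℂ G]

/-- Equality modulo compact operators. -/
abbrev Eqc (A B : E →L[ℂ] F) : Prop := SModEq (compactOperator (RingHom.id ℂ) E F) A B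

theorem eqc_of {A B : E →L[ℂ] F} (h : IsCompactOperator ⇑(A - B)) : Eqc A B :=
  SModEq.sub_mem.2 h

theorem Eqc.cpt {A B : E →L[ℂ] F} (h : Eqc A B) : IsCompactOperator ⇑(A - B) :=
  SModEq.sub_mem.1 h

theorem Eqc.left {A B : E →L[ℂ] F} (h : Eqc A B) (U : F →L[ℂ] G) : Eqc (U.comp A) (U.comp B) :=
  eqc_of (by rw [← ContinuousLinearMap.comp_sub]; exact h.cpt.clm_comp U)

theorem Eqc.right {A B : E →L[ℂ] F} (h : Eqc A B) (W : G →L[ℂ] E) : Eqc (A.comp W) (B.comp W) :=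
  eqc_of (by rw [← ContinuousLinearMap.sub_comp]; exact h.cpt.comp_clm W)

theorem Eqc.tr {A B C : E →L[ℂ] F} (h : Eqc A B) (h' : Eqc B C) : Eqc A C := SModEq.trans h h'

theorem Eqc.of_eq {A B : E →L[ℂ] F} (h : A = B) : Eqc A B := h ▸ SModEq.rfl

/-- A lower estimate along a sequence on which two operators agree in the limit. -/
theorem low_of_null {A T : E →L[ℂ] F} {y : ℕ → E} {a c d : ℝ} (c0 : 0 ≤ c)
    (h : Tendsto (fun k => A (y k) - T (y k)) atTop (𝓝 0)) (h1 : ∀ k, a ≤ c * ‖A (y k)‖)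
    (h2 : ∀ k, ‖T (y k)‖ ≤ d) : a ≤ c * d := by
  have h3 := (h.norm.add_const d).const_mul c
  rw [norm_zero, zero_add] at h3
  exact ge_of_tendsto' h3 fun k => (h1 k).trans (mul_le_mul_of_nonneg_left
    ((norm_le_norm_sub_add _ (T (y k))).trans (add_le_add le_rfl (h2 k))) c0)

theorem low_cal {A : E →L[ℂ] E} {a c : ℝ} (c0 : 0 ≤ c)
    (h : ∀ T : E →L[ℂ] E, Eqc A T → a ≤ c * ‖T‖) : a ≤ c * ‖cal A‖ := by
  refine le_of_forall_pos_le_add fun ε hε => ?_
  obtain ⟨T, h2, h3⟩ := Submodule.Quotient.norm_mk_lt (cal A)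
    (show 0 < ε / (c + 1) by positivity)
  have h4 : ε / (c + 1) * (c + 1) = ε := div_mul_cancel₀ _ (by positivity)
  have h5 : 0 < ε / (c + 1) := by positivity
  nlinarith [h T h2.symm, mul_le_mul_of_nonneg_left h3.le c0]

end Eqc

/-- The trivial space of values. -/
def val0 : Val ℂ where
  θ _ _ := ContinuousLinearMap.id ℂ ℂ
  Λ _ := ContinuousLinearMap.id ℂ ℂ
  θ_le _ _ _ := le_rfl
  Λ_θ _ _ _ := rfl
  Λ_Λ _ _ := rfl

section Outer

variable {𝓖 : ℕ → Fam} {Y : Type u} [NormedAddCommGroup Y] [NormedSpace ℂ Y]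
  (s : BD 𝓖 {0} val0 Y)

theorem outer_ris : ∃ y : ℕ → Y, RIS s y ∧ (∀ k, ‖y k‖ ≤ s.M) ∧ ∀ k, 1 ≤ ‖y k‖ := by
  obtain ⟨g, g1, -, -, g4⟩ := exists_roots s.t (a := 0) rfl
  choose u u1 u2 u3 u4 using fun j => s.unit (g j) 1 rfl
  simp only [norm_one, mul_one] at u3
  refine ⟨u, ris_of_unit s (fun j => g1.le_apply) g4 u1 u2 u3, u3, fun j => ?_⟩
  have := s.e_le (Sum.inr (g j)) (u j)
  rwa [u4, norm_one] at this

/-- The local data of the outer space: the scalars. -/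
def outerLoc : Loc s (ContinuousLinearMap.toSpanSingleton ℂ (1 : Y →L[ℂ] Y)) where
  q := 1
  a := 0
  mem := rfl
  ε := ContinuousLinearMap.id ℂ ℂ
  ε_le _ := le_rfl
  κ := 1 / 2
  κ_pos := one_half_pos
  sep x y _ _ δ η hδ hη h := by
    obtain ⟨b, b1, b2, b3⟩ := sep_gen (fun q => (ContinuousLinearMap.id ℂ ℂ).comp (s.e q.1))
      (ContinuousLinearMap.toSpanSingleton ℂ x) y one_pos hδ hη
      (fun f β u hu hw => (one_mul _).trans_le (s.norming _ u hu fun ω => hw (ω, 0))) h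
    refine ⟨b, b1, ?_, b3⟩
    have h1 := ContinuousLinearMap.le_of_opNorm_le _ b2 1
    rwa [ContinuousLinearMap.comp_apply, ContinuousLinearMap.toSpanSingleton_apply, one_smul,
      norm_one, mul_one] at h1
  q_q _ := rfl
  q_P _ _ := rfl
  q_e := ⟨1, fun _ _ => (one_mul _).ge⟩
  α_q _ _ := rfl
  q_α _ _ := rfl
  α_P f n y := map_smul (s.P n) f y
  cpt _ := isCompactOperator_of_locallyCompactSpace_dom _
  free := by
    obtain ⟨y, h1, -, h2⟩ := outer_ris s
    refine ⟨y, 1, h1, fun _ => rfl, zero_le_one, fun k f => ?_⟩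
    change _ ≤ 1 * ‖f • y k‖
    rw [one_mul, norm_smul]
    exact le_mul_of_one_le_right (norm_nonneg _) (h2 k)

theorem asm_Q_norm (n : ℕ) : ‖1 - s.P n‖ ≤ 1 + s.M :=
  ContinuousLinearMap.opNorm_le_bound _ (by linarith [s.two_le]) fun y => s.Q_le n y

end Outer

section Main

variable {B : Type u} [NormedRing B] [NormedAlgebra ℂ B] {𝓖 : ℕ → Fam} {F : Pr B}
  {σ : Val (B →L[ℂ] ℂ)} {Z : Type u} [NormedAddCommGroup Z] [NormedSpace ℂ Z]
  {s₀ : BD 𝓖 {a | a ≠ 0} σ Z} {τ : Inn F s₀}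
  {V : Type u} [NormedAddCommGroup V] [NormedSpace ℂ V]
  {Y : Type u} [NormedAddCommGroup Y] [NormedSpace ℂ Y]
  {D : Base ℂ V} (ν : Ten τ D) {s : BD 𝓖 {0} val0 Y} (k : Link D s)

theorem Inn.cut (τ : Inn F s₀) {W : Type v} [NormedAddCommGroup W] [NormedSpace ℂ W] {n : ℕ}
    {S : W →L[ℂ] Z} (hS : ∀ y, τ.act (F.p n) (S y) = S y) (m : ℕ) :
    IsCompactOperator ((s₀.P m).comp S) :=
  (congrArg IsCompactOperator (funext fun y => congrArg (s₀.P m) (hS y))).mp
    ((τ.cpt n m).comp_clm S)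

theorem Inn.cut' (τ : Inn F s₀) {W : Type v} [NormedAddCommGroup W] [NormedSpace ℂ W] {n : ℕ}
    {S : W →L[ℂ] Z} (hS : ∀ y, τ.act (F.p n) (S y) = S y) (m : ℕ) :
    Eqc S ((1 - s₀.P m).comp S) :=
  eqc_of ((congrArg IsCompactOperator (funext fun y => by simp)).mp (τ.cut hS m))

theorem asm_kill (hG : ∀ j, Null (𝓖 j)) (τ : Inn F s₀) {n : ℕ} (S : Y →L[ℂ] Z)
    (hS : ∀ y, τ.act (F.p n) (S y) = S y) {x : ℕ → Y} (hx : RIS s x) :
    Tendsto (fun k => S (x k)) atTop (𝓝 0) := by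
  refine NormedAddGroup.tendsto_nhds_zero.2 fun ε hε => ?_
  obtain ⟨m, hm⟩ := cross hG s (τ.loc n) (by rw [τ.loc_a]; exact Nat.succ_ne_zero n) S
    (by rw [τ.loc_q]; exact hS) hx (half_pos hε)
  filter_upwards [hm, NormedAddGroup.tendsto_nhds_zero.1
    (hx.compact_null hG ((s₀.P m).comp S) (τ.cut hS m)) _ (half_pos hε)] with k h1 h2
  have h3 := norm_le_norm_sub_add (S (x k)) (s₀.P m (S (x k)))
  rw [ContinuousLinearMap.comp_apply] at h2
  linarith

theorem asm_tail (hG : ∀ j, Null (𝓖 j)) (τ : Inn F s₀) (s : BD 𝓖 {0} val0 Y) (S : Z →L[ℂ] Y)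
    {r : ℕ} (W : Y →L[ℂ] Z) (hW : ∀ y, τ.act (F.p r) (W y) = W y) :
    Tendsto (fun n => ‖cal (((1 - s.P n).comp S).comp W)‖) atTop (𝓝 0) := by
  have hM : 0 < 1 + s.M := by linarith [s.two_le]
  have h1 := tail_of_RIS s₀ (fun k => (1 - s.P k).comp S) ((1 + s.M) * ‖S‖)
    (fun k => (ContinuousLinearMap.opNorm_comp_le _ _).trans
      (mul_le_mul_of_nonneg_right (asm_Q_norm s k) (norm_nonneg _))) fun x hx => by
      refine NormedAddGroup.tendsto_nhds_zero.2 fun ε hε => ?_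
      obtain ⟨n, hn⟩ := cross hG s₀ (outerLoc s) (fun h => h rfl) S (fun _ => rfl) hx
        (show 0 < ε / 2 / (1 + s.M) by positivity)
      filter_upwards [hn, eventually_ge_atTop n] with k h1 h2
      have h3 := s.Q_le k (S (x k) - s.P n (S (x k)))
      rw [map_sub, s.P_comp, min_eq_right h2, sub_sub_sub_cancel_right] at h3
      rw [le_div_iff₀' hM] at h1
      simp only [ContinuousLinearMap.comp_apply, sub_apply,
        one_apply_eq_self]
      linarith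
  have h0 := h1.mul_const ‖W‖
  rw [zero_mul] at h0
  refine squeeze_zero (fun _ => cal_nonneg _) (fun n => ?_) h0
  have h3 : cal (((1 - s.P n).comp S).comp W) =
      cal ((((1 - s.P n).comp S).comp (1 - s₀.P n)).comp W) :=
    (τ.cut' hW n).left ((1 - s.P n).comp S)
  rw [h3]
  exact (Submodule.Quotient.norm_mk_le _ _).trans (ContinuousLinearMap.opNorm_comp_le _ _)

theorem asm_local [CompleteSpace Z] (hG : ∀ j, Null (𝓖 j)) (τ : Inn F s₀) (n : ℕ) (S : Z →L[ℂ] Z)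
    (hS : ∀ y, τ.act (F.p n) (S y) = S y) (hS' : ∀ y, S (τ.act (F.p n) y) = S y) :
    ∃ A ∈ F.alg, Eqc S (τ.act A) := by
  have := F.fin n
  obtain ⟨f, hf⟩ := horiz hG (τ.loc n) S (by rw [τ.loc_q]; exact hS) (by rw [τ.loc_q]; exact hS')
    fun x hx m => hx.compact_null hG _ (τ.cut hS m)
  refine ⟨f, F.corner_le n f.2, eqc_of (isCompactOperator_of_tendsto (l := atTop)
    (F := fun m => (S - τ.act f).comp (s₀.P m)) ?_ (Eventually.of_forall fun m => ?_))⟩
  · refine tendsto_iff_norm_sub_tendsto_zero.2 (hf.congr fun m => ?_)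
    rw [norm_sub_rev]
    congr 1
    ext z
    simp
  · refine (congrArg IsCompactOperator (funext fun y => ?_)).mp
      ((τ.cpt n m).clm_comp (S - τ.act f))
    change (S - τ.act f) (s₀.P m (τ.act (F.p n) y)) = (S - τ.act f) (s₀.P m y)
    rw [τ.act_P, sub_apply, sub_apply, hS', ← τ.act_mul, F.cor_p]

/-- The inclusion of a level. -/
def asmU (n : ℕ) : Z →L[ℂ] Y := (k.ι n).comp (ν.J n)

/-- The projection to a level. -/
def asmW (n : ℕ) : Y →L[ℂ] Z := (ν.Sg n).comp k.π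

/-- The lift of an element of the algebra. -/
def asmL (n : ℕ) : B →ₗ[ℂ] (Y →L[ℂ] Y) where
  toFun A := (asmU ν k n).comp ((τ.act A).comp (asmW ν k n))
  map_add' A A' := by
    ext y
    simp
  map_smul' c A := by
    ext y
    simp

theorem asmL_apply (n : ℕ) (A : B) (y : Y) :
    asmL ν k n A y = asmU ν k n (τ.act A (asmW ν k n y)) := rfl

theorem Ten.R_J (n : ℕ) (z : Z) : D.R n (ν.J n z) = ν.J n z := by
  rw [ν.R_eq, ν.Sg_J, min_self, ν.J_p _ _ _ le_rfl]

theorem asm_WU (n : ℕ) (z : Z) : asmW ν k n (asmU ν k n z) = τ.act (F.p n) z := by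
  change ν.Sg n (k.π (k.ι n (ν.J n z))) = _
  rw [k.π_ι, ν.R_J, ν.Sg_J, min_self]

theorem asm_pW (n : ℕ) (y : Y) : τ.act (F.p n) (asmW ν k n y) = asmW ν k n y :=
  ν.p_Sg n n _ le_rfl

theorem asm_Up (n : ℕ) (z : Z) : asmU ν k n (τ.act (F.p n) z) = asmU ν k n z :=
  congrArg (k.ι n) (ν.J_p n n z le_rfl)

theorem asm_U_le (n : ℕ) (z : Z) : ‖asmU ν k n z‖ ≤ s.M * (ν.C * ‖z‖) :=
  (k.ι n).le_of_opNorm_le_of_le (k.ι_norm n) (ν.J_le n z)

theorem asm_W_le (n : ℕ) (y : Y) : ‖((1 - s₀.P n).comp (asmW ν k n)) y‖ ≤ ‖y‖ :=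
  (ν.Sg_le n _).trans ((k.π.le_of_opNorm_le k.π_norm y).trans_eq (one_mul _))

theorem asm_norm (n : ℕ) (A : B) : ‖cal (asmL ν k n A)‖ ≤ s.M * ν.C * ‖A‖ := by
  have h1 := s.two_le
  have h2 := ν.one_le
  have e : cal (asmL ν k n A) =
      cal ((asmU ν k n).comp ((τ.act A).comp ((1 - s₀.P n).comp (asmW ν k n)))) :=
    ((τ.cut' (asm_pW ν k n) n).left _).left _
  rw [e]
  refine (Abs.cal_le _).trans (ContinuousLinearMap.opNorm_le_bound _ (by positivity) fun y => ?_)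
  refine (asm_U_le ν k n _).trans ?_
  rw [mul_assoc, mul_assoc]
  gcongr
  exact (τ.act_le _ _).trans (mul_le_mul_of_nonneg_left (asm_W_le ν k n y) (norm_nonneg _))

theorem asm_mul (n : ℕ) (A A' : B) :
    asmL ν k n A * asmL ν k n A' = asmL ν k n (A * F.p n * A') := by
  ext y
  change asmL ν k n A (asmL ν k n A' y) = _
  rw [asmL_apply, asmL_apply, asmL_apply, asm_WU, τ.act_mul, τ.act_mul]

theorem asm_P0 (n : ℕ) : Eqc (s.P n) ((k.ι n).comp k.π) :=
  eqc_of (k.P_sub n 1 fun _ => isCompactOperator_of_locallyCompactSpace_dom _)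

theorem asm_P (n : ℕ) : Eqc (s.P n) ((asmU ν k n).comp (asmW ν k n)) := by
  refine (asm_P0 k n).tr (Eqc.of_eq ?_)
  ext y
  rw [ContinuousLinearMap.comp_apply, ← k.ι_R, ν.R_eq]
  rfl

theorem asm_stab (n m : ℕ) (A : B) (h : n ≤ m) :
    cal (asmL ν k m (F.p n * A * F.p n)) = cal (asmL ν k n A) := by
  refine (Eqc.of_eq ?_).tr (Eqc.tr (SModEq.symm ((asm_P0 k m).right (asmL ν k n A))) (Eqc.of_eq ?_))
  · ext y
    change k.ι m (ν.J m (τ.act (F.p n * A * F.p n) (ν.Sg m (k.π y)))) =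
      k.ι m (k.π (k.ι n (ν.J n (τ.act A (ν.Sg n (k.π y))))))
    rw [τ.act_mul, τ.act_mul, ν.p_Sg _ _ _ h, ν.J_p _ _ _ h, k.π_ι, ν.R_J]
  · ext y
    change s.P m (k.ι n _) = k.ι n _
    rw [k.P_ι, min_eq_right h]

theorem asm_low (hG : ∀ j, Null (𝓖 j)) (n : ℕ) (A : B) (l : ℂ) :
    ‖l • F.p n + F.p n * A * F.p n‖ ≤
      τ.C * (s.M * (ν.C * τ.C)) * ‖cal (l • (1 : Y →L[ℂ] Y) + asmL ν k n A)‖ := by
  have h1 := s.two_le
  have h2 := ν.one_le
  have h3 := τ.one_le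
  obtain ⟨y, y1, y2, y3, y4⟩ := τ.test n (l • 1 + A)
  refine low_cal (by positivity) fun T hT => ?_
  have h4 : Eqc ((τ.act (F.p n * (l • 1 + A))).comp (τ.act (F.p n)))
      (((1 - s₀.P n).comp (asmW ν k n)).comp (T.comp (asmU ν k n))) := by
    refine (Eqc.of_eq ?_).tr ((((hT.right (asmU ν k n)).left (asmW ν k n))).tr
      ((τ.cut' (asm_pW ν k n) n).right _))
    ext z
    simp only [ContinuousLinearMap.comp_apply, add_apply, smul_apply, one_apply_eq_self, map_add,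
      map_smul, asmL_apply, asm_WU, τ.act_mul, τ.act_one, τ.pp, min_self]
  have e : F.p n * (l • 1 + A) * F.p n = l • F.p n + F.p n * A * F.p n := by
    rw [mul_add, add_mul, mul_smul_comm, mul_one, smul_mul_assoc, F.pp]
  rw [mul_assoc τ.C, ← e]
  refine low_of_null (by positivity) (y1.compact_null hG _ h4.cpt) (fun j => ?_) fun j => ?_
  · rw [ContinuousLinearMap.comp_apply, y2]
    exact y4 j
  · refine (asm_W_le ν k n _).trans ((T.le_opNorm_of_le ((asm_U_le ν k n _).trans ?_)).trans_eq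
      (mul_comm _ _))
    have := y3 j
    gcongr

theorem asm_low2 (hG : ∀ j, Null (𝓖 j)) (n : ℕ) (A : B) (l : ℂ) :
    ‖l‖ ≤ s.M * ‖cal (l • (1 : Y →L[ℂ] Y) + asmL ν k n A)‖ := by
  have h1 := s.two_le
  obtain ⟨y, y1, y2, y3⟩ := outer_ris s
  refine low_cal (by positivity) fun T hT => ?_
  have h2 := (((asmU ν k n).comp (τ.act A)).continuous.tendsto 0).comp
    (asm_kill hG τ (asmW ν k n) (asm_pW ν k n) y1)
  rw [map_zero] at h2
  have h3 := (y1.compact_null hG _ hT.cpt).sub h2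
  rw [sub_zero] at h3
  rw [← one_mul (s.M * _)]
  refine low_of_null (A := l • (1 : Y →L[ℂ] Y)) (T := T) (y := y) zero_le_one
    (h3.congr fun j => ?_) (fun j => ?_) fun j => (T.le_opNorm_of_le (y2 j)).trans_eq (mul_comm _ _)
  · simp only [Function.comp_apply, ContinuousLinearMap.comp_apply, add_apply, sub_apply,
      asmL_apply]
    abel
  · rw [one_mul, smul_apply, one_apply_eq_self, norm_smul]
    exact le_mul_of_one_le_right (norm_nonneg _) (y3 j)

include ν k in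
theorem asm_sep : TopologicalSpace.SeparableSpace Y := by
  rw [← TopologicalSpace.isSeparable_univ_iff]
  have h : ∀ n, TopologicalSpace.IsSeparable (Set.range (s.P n)) := fun n => by
    refine (((cpt_sep (asm_P ν k n).cpt).union
      ((τ.sep n).image (asmU ν k n).continuous)).span (R := ℂ)).mono ?_
    rintro _ ⟨y, rfl⟩
    have e : s.P n y = (s.P n - (asmU ν k n).comp (asmW ν k n)) y +
        asmU ν k n (τ.act (F.p n) (asmW ν k n y)) := by simp [asm_pW]
    rw [e]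
    exact Submodule.add_mem _ (Submodule.subset_span (Or.inl ⟨y, rfl⟩))
      (Submodule.subset_span (Or.inr ⟨_, ⟨_, rfl⟩, rfl⟩))
  refine (TopologicalSpace.IsSeparable.iUnion h).closure.mono fun y _ => ?_
  exact mem_closure_of_tendsto (s.P_tendsto y)
    (Eventually.of_forall fun n => Set.mem_iUnion.2 ⟨n, y, rfl⟩)

theorem asm_corner [CompleteSpace Z] (hG : ∀ j, Null (𝓖 j)) (T : Y →L[ℂ] Y) (n : ℕ) :
    ∃ A ∈ F.alg, Eqc ((s.P n).comp (T.comp (s.P n))) (asmL ν k n A) := by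
  obtain ⟨A, h1, h2⟩ := asm_local hG τ n ((asmW ν k n).comp (T.comp (asmU ν k n)))
    (fun _ => asm_pW ν k n _) fun y => by simp only [ContinuousLinearMap.comp_apply, asm_Up]
  exact ⟨A, h1, ((asm_P ν k n).right _).tr ((((asm_P ν k n).left T).left _).tr
    ((h2.right (asmW ν k n)).left (asmU ν k n)))⟩

theorem asm_dense [CompleteSpace Z] (hG : ∀ j, Null (𝓖 j)) (T : Y →L[ℂ] Y) :
    ∃ (l : ℂ) (A : ℕ → B), (∀ n, A n ∈ F.alg) ∧
      Tendsto (fun n => ‖cal (T - l • (1 : Y →L[ℂ] Y) - asmL ν k n (A n))‖) atTop (𝓝 0) := by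
  have hM : 0 < s.M := by linarith [s.two_le]
  obtain ⟨l, hl⟩ : ∃ l : ℂ, Tendsto (fun n => ‖(T - l • (1 : Y →L[ℂ] Y)).comp (1 - s.P n)‖) atTop
      (𝓝 0) := horiz hG (outerLoc s) T (fun _ => rfl) (fun _ => rfl) fun x hx m => by
    have h1 := hx.compact_null hG _ ((asm_P ν k m).right T).cpt
    have h2 := ((asmU ν k m).continuous.tendsto 0).comp
      (asm_kill hG τ ((asmW ν k m).comp T) (fun _ => asm_pW ν k m _) hx)
    simpa using h1.add h2
  set T' := T - l • (1 : Y →L[ℂ] Y) with hT'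
  choose A hA ha using asm_corner ν k hG T'
  refine ⟨l, A, hA, ?_⟩
  have h1 : ∀ r, Tendsto (fun n => ‖cal ((1 - s.P n).comp (T'.comp (s.P r)))‖) atTop (𝓝 0) :=
    fun r => (asm_tail hG τ s (T'.comp (asmU ν k r)) _ (asm_pW ν k r)).congr fun n =>
      congrArg norm (((asm_P ν k r).left T').left (1 - s.P n)).symm
  refine NormedAddGroup.tendsto_nhds_zero.2 fun ε hε => ?_
  obtain ⟨r, hr⟩ := (NormedAddGroup.tendsto_nhds_zero.1 hl _
    (show 0 < ε / 3 / ((1 + s.M) * s.M) by positivity)).exists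
  filter_upwards [NormedAddGroup.tendsto_nhds_zero.1 hl _ (show 0 < ε / 3 by positivity),
    NormedAddGroup.tendsto_nhds_zero.1 (h1 r) _ (show 0 < ε / 3 by positivity),
    eventually_ge_atTop r] with n h2 h3 h4
  rw [norm_norm] at hr h2 h3 ⊢
  rw [lt_div_iff₀ (by positivity)] at hr
  have h5 : cal (T' - asmL ν k n (A n)) = cal (T'.comp (1 - s.P n)) +
      cal ((1 - s.P n).comp (T'.comp (s.P r))) +
      cal ((1 - s.P n).comp ((T'.comp (1 - s.P r)).comp (s.P n))) := by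
    refine Eq.trans (SModEq.rfl.sub (ha n).symm) ?_
    rw [← Submodule.Quotient.mk_add, ← Submodule.Quotient.mk_add]
    congr 1
    ext y
    simp only [add_apply, sub_apply,
      ContinuousLinearMap.comp_apply, one_apply_eq_self, map_sub, s.P_comp r n,
      min_eq_left h4]
    abel
  have h6 : ‖cal ((1 - s.P n).comp ((T'.comp (1 - s.P r)).comp (s.P n)))‖ ≤
      (1 + s.M) * (‖T'.comp (1 - s.P r)‖ * s.M) :=
    (Submodule.Quotient.norm_mk_le _ _).trans ((ContinuousLinearMap.opNorm_comp_le _ _).trans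
      (mul_le_mul (asm_Q_norm s n) ((ContinuousLinearMap.opNorm_comp_le _ _).trans
        (mul_le_mul_of_nonneg_left (s.P_norm n) (norm_nonneg _))) (norm_nonneg _) (by positivity)))
  have h7 : ‖cal (T'.comp (1 - s.P n))‖ ≤ ‖T'.comp (1 - s.P n)‖ := Submodule.Quotient.norm_mk_le _ _
  rw [h5]
  refine (norm_add₃_le (E := Calkin Y)).trans_lt ?_
  nlinarith

end Main

theorem calkin_main {B : Type u} [NormedRing B] [NormedAlgebra ℂ B] [CompleteSpace B] (F : Pr B) :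
    ∃ (Y : Type u) (_ : NormedAddCommGroup Y) (_ : NormedSpace ℂ Y) (_ : CompleteSpace Y),
      TopologicalSpace.SeparableSpace Y ∧ ¬ FiniteDimensional ℂ Y ∧
        QuotIsoUnitization (Compacts Y) F.alg := by
  have hG : ∀ j, Null ((fun _ => ∅ : ℕ → Fam) j) := fun _ =>
    Null.mono (Set.empty_subset _) null_small
  obtain ⟨σ, Z, _, _, _, s₀, ⟨τ⟩⟩ := exists_inner (fun _ => ∅) F
  obtain ⟨V, _, _, _, D, ⟨ν⟩⟩ := exists_ten τ
  obtain ⟨t₁⟩ := exists_tree (fun _ => ∅) (S := {0}) (a := 0) rfl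
  obtain ⟨Y, _, _, _, s, ⟨k⟩⟩ := exists_BD val0 D t₁
  have h1 := s.two_le
  have h2 := ν.one_le
  have h3 := τ.one_le
  have h4 : ν.C ≤ ν.C * τ.C := le_mul_of_one_le_right (by linarith) h3
  have h5 : s.M * ν.C ≤ τ.C * (s.M * (ν.C * τ.C)) :=
    (mul_le_mul_of_nonneg_left h4 (by linarith)).trans (le_mul_of_one_le_left (by positivity) h3)
  exact ⟨Y, inferInstance, inferInstance, inferInstance, asm_sep ν k,
    calkin_of_lifts F (asmL ν k) (τ.C * (s.M * (ν.C * τ.C)))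
      (fun n A _ => (asm_norm ν k n A).trans (mul_le_mul_of_nonneg_right h5 (norm_nonneg _)))
      (fun n A _ A' _ => asm_mul ν k n A A') (asm_stab ν k) (fun n A _ l => asm_low ν k hG n A l)
      (fun n A _ l => (asm_low2 ν k hG n A l).trans (mul_le_mul_of_nonneg_right
        ((le_mul_of_one_le_right (by linarith) h2).trans h5) (cal_nonneg _))) (asm_dense ν k hG)⟩

end Pool.Agent.Lib.MP_2a83f9_an.H
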