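import Mathlib
import Pool.Agent.Lib.MP_2a83f9_an.H.Assemble

set_option autoImplicit false

open Filter Topology

noncomputable section

namespace Pool.Agent.Lib.MP_2a83f9_an.H

universe u

theorem calkin_findim (B : Type u) [NormedRing B] [NormedAlgebra ℂ B] [FiniteDimensional ℂ B]
    [Nontrivial B] :
    ∃ (Y : Type u) (_ : NormedAddCommGroup Y) (_ : NormedSpace ℂ Y) (_ : CompleteSpace Y),
      TopologicalSpace.SeparableSpace Y ∧ ¬ FiniteDimensional ℂ Y ∧
        ∃ Φ : (Y →L[ℂ] Y) →ₐ[ℂ] B, Function.Surjective Φ ∧ ∀ T, Φ T = 0 ↔ IsCompactOperator T := by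
  have hG : ∀ j, Null ((fun _ => ∅ : ℕ → Fam) j) := fun _ =>
    Null.mono (Set.empty_subset _) null_small
  let F : Pr B := ⟨fun _ => 1, fun _ _ => one_mul 1, ⟨_, fun _ => le_rfl⟩, fun _ => inferInstance⟩
  obtain ⟨σ, Z, _, _, _, s, ⟨τ⟩⟩ := exists_inner (fun _ => ∅) F
  have a1 : τ.act 1 = 1 := ContinuousLinearMap.ext τ.act_one
  have inj : ∀ b, IsCompactOperator (τ.act b) → b = 0 := fun b hb => by
    obtain ⟨y, y1, -, -, y4⟩ := τ.test 0 b
    have h1 := (y1.compact_null hG _ hb).norm.const_mul τ.C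
    rw [norm_zero, mul_zero] at h1
    refine norm_le_zero_iff.1 (ge_of_tendsto' h1 fun k => ?_)
    simpa only [F, one_mul, mul_one] using y4 k
  choose φ _ hφ using fun T : Z →L[ℂ] Z =>
    asm_local hG τ 0 T (fun _ => τ.act_one _) fun y => congrArg T (τ.act_one y)
  have uq : ∀ T b, Eqc T (τ.act b) → φ T = b := fun T b h => sub_eq_zero.1 (inj _ (by
    rw [map_sub]
    exact (Eqc.tr (SModEq.symm (hφ T)) h).cpt))
  let Φ : (Z →L[ℂ] Z) →ₐ[ℂ] B := AlgHom.ofLinearMap
    { toFun := φ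
      map_add' := fun S T => uq _ _ (by
        rw [map_add]
        exact (hφ S).add (hφ T))
      map_smul' := fun c T => uq _ _ (by
        rw [map_smul]
        exact (hφ T).smul c) }
    (uq _ _ (Eqc.of_eq a1.symm)) fun S T => uq _ _
      (((hφ S).right T).tr (((hφ T).left _).tr
        (Eqc.of_eq (ContinuousLinearMap.ext fun z => (τ.act_mul _ _ z).symm))))
  refine ⟨Z, inferInstance, inferInstance, inferInstance, ?_, fun hf => ?_, Φ,
    fun b => ⟨τ.act b, uq _ _ SModEq.rfl⟩, fun T => ⟨fun h => ?_, fun h => uq T 0 (eqc_of ?_)⟩⟩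
  · rw [← TopologicalSpace.isSeparable_univ_iff]
    exact (τ.sep 0).mono fun z _ => ⟨z, τ.act_one z⟩
  · have := FiniteDimensional.proper ℂ Z
    exact one_ne_zero (inj 1 (isCompactOperator_of_locallyCompactSpace_dom _))
  · have h1 := (hφ T).cpt
    rwa [show φ T = 0 from h, map_zero, sub_zero] at h1
  · rwa [map_zero, sub_zero]

end Pool.Agent.Lib.MP_2a83f9_an.H
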